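import Pool.Agent.Lib.MP_2c4b12_ag.H66Lift

/-!
# Logarithms of nonvanishing functions on an interval and on a square
-/

namespace Pool.Agent.Gal2c4b12

open Topology unitInterval Complex
open scoped LinearAlgebra.Projectivization

/-- Retraction of the plane onto the square. -/
noncomputable def ret : C(ℝ × ℝ, I × I) :=
  ⟨fun z => (Set.projIcc 0 1 zero_le_one z.1, Set.projIcc 0 1 zero_le_one z.2), by fun_prop⟩

lemma ret_coe (z : I × I) : ret ((z.1 : ℝ), (z.2 : ℝ)) = z := by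
  simp only [ret, ContinuousMap.coe_mk, Set.projIcc_val]

/-- The inclusion of the square in the plane. -/
noncomputable def inc : C(I × I, ℝ × ℝ) := ⟨fun z => ((z.1 : ℝ), (z.2 : ℝ)), by fun_prop⟩

lemma ret_inc (z : I × I) : ret (inc z) = z := ret_coe z

/-- Lifting maps from the square through covering maps on a subset. -/
theorem lift_square {E X : Type*} [TopologicalSpace E] [TopologicalSpace X] {p : E → X}
    {s : Set X} (cov : IsCoveringMapOn p s) (F : C(I × I, X)) (hF : ∀ z, F z ∈ s) (z₀ : I × I)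
    (e₀ : E) (he : p e₀ = F z₀) : ∃ G : C(I × I, E), (∀ z, p (G z) = F z) ∧ G z₀ = e₀ := by
  obtain ⟨G, ⟨h1, h2⟩, -⟩ := cov.existsUnique_continuousMap_lifts (F.comp ret) (a₀ := inc z₀)
    (e₀ := e₀) (by rw [ContinuousMap.comp_apply, ret_inc]; exact he) (fun a => hF _)
  refine ⟨G.comp inc, fun z => ?_, h1⟩
  have := congrFun h2 (inc z)
  simp only [Function.comp, ContinuousMap.comp_apply, ret_inc] at this
  exact this

/-- A continuous logarithm on the square. -/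
theorem exists_log_square (F : C(I × I, ℂ)) (hF : ∀ z, F z ≠ 0) :
    ∃ G : C(I × I, ℂ), ∀ z, exp (G z) = F z := by
  obtain ⟨e, he⟩ : ∃ e, exp e = F (0, 0) := ⟨_, exp_log (hF _)⟩
  obtain ⟨G, hG, -⟩ := lift_square isCoveringMapOn_exp F hF (0, 0) e he
  exact ⟨G, hG⟩

/-- A continuous logarithm on the interval. -/
theorem exists_log_path (l : C(I, ℂ)) (hl : ∀ t, l t ≠ 0) :
    ∃ L : C(I, ℂ), ∀ t, exp (L t) = l t := by
  obtain ⟨G, hG⟩ := exists_log_square (l.comp ⟨Prod.fst, continuous_fst⟩) (fun z => hl _)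
  exact ⟨G.comp ⟨fun t => (t, 0), by fun_prop⟩, fun t => hG _⟩

/-- A continuous function on the interval whose exponential is `1` is constant. -/
lemma const_of_exp_one {f : I → ℂ} (hf : Continuous f) (h : ∀ t, exp (f t) = 1) (s t : I) :
    f s = f t := by
  have h1 : ∀ t, ∃ n : ℤ, f t = n * (2 * Real.pi * Complex.I) := fun t => exp_eq_one_iff.1 (h t)
  choose n hn using h1
  have hpi : (2 * Real.pi * Complex.I) ≠ 0 := by
    simp [Real.pi_ne_zero]
  have h2 : ∀ t, (n t : ℝ) = (f t / (2 * Real.pi * Complex.I)).re := by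
    intro t
    rw [hn t, mul_div_assoc, div_self hpi, mul_one]
    simp
  have h3 : Continuous n := by
    rw [Int.isClosedEmbedding_coe_real.isEmbedding.continuous_iff]
    have : ((fun x : ℤ => (x : ℝ)) ∘ n) = fun t => (f t / (2 * Real.pi * Complex.I)).re := by
      funext t
      exact h2 t
    rw [this]
    fun_prop
  have h4 : n s = n t := by
    have := PreconnectedSpace.constant (inferInstance : PreconnectedSpace I) h3 (x := s) (y := t)
    exact this
  rw [hn s, hn t, h4]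

/-- The variation of the logarithm along a nonvanishing path. -/
noncomputable def lv (l : C(I, ℂ)) : ℂ :=
  open Classical in
  if h : ∃ L : C(I, ℂ), ∀ t, exp (L t) = l t then h.choose 1 - h.choose 0 else 0

lemma lv_eq {l : C(I, ℂ)} (L : C(I, ℂ)) (hL : ∀ t, exp (L t) = l t) : lv l = L 1 - L 0 := by
  unfold lv
  have h : ∃ L : C(I, ℂ), ∀ t, exp (L t) = l t := ⟨L, hL⟩
  rw [dif_pos h]
  have h1 := h.choose_spec
  have h2 : ∀ t, exp ((fun t => h.choose t - L t) t) = 1 := by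
    intro t
    simp only [exp_sub, h1, hL]
    exact div_self (by rw [← hL t]; exact exp_ne_zero _)
  have h3 := const_of_exp_one (by fun_prop) h2 0 1
  change h.choose 0 - L 0 = h.choose 1 - L 1 at h3
  linear_combination -h3

lemma exp_lv {l : C(I, ℂ)} (hl : ∀ t, l t ≠ 0) : exp (lv l) = l 1 / l 0 := by
  obtain ⟨L, hL⟩ := exists_log_path l hl
  rw [lv_eq L hL, exp_sub, hL, hL]

lemma lv_mul {l l' : C(I, ℂ)} (hl : ∀ t, l t ≠ 0) (hl' : ∀ t, l' t ≠ 0) :
    lv (l * l') = lv l + lv l' := by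
  obtain ⟨L, hL⟩ := exists_log_path l hl
  obtain ⟨L', hL'⟩ := exists_log_path l' hl'
  rw [lv_eq (L + L') (fun t => by simp [exp_add, hL, hL']), lv_eq L hL, lv_eq L' hL']
  change (L 1 + L' 1) - (L 0 + L' 0) = _
  ring

lemma lv_pow {l : C(I, ℂ)} (hl : ∀ t, l t ≠ 0) (m : ℕ) : lv (l ^ m) = m * lv l := by
  obtain ⟨L, hL⟩ := exists_log_path l hl
  rw [lv_eq ((m : ℂ) • L) (fun t => by simp [exp_nat_mul, hL]), lv_eq L hL]
  change (m : ℂ) * L 1 - (m : ℂ) * L 0 = _
  ring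

lemma lv_const {l : C(I, ℂ)} {c : ℂ} (hc : c ≠ 0) (hl : ∀ t, l t = c) : lv l = 0 := by
  rw [lv_eq (ContinuousMap.const _ (log c)) (fun t => by simp [exp_log hc, hl])]
  simp

/-- The continuous ratio of two parallel nowhere zero vector functions. -/
lemma exists_ratio {A : Type*} [TopologicalSpace A] {n : ℕ} (K X : C(A, Fin n → ℂ))
    (hK : ∀ t, K t ≠ 0) (hX : ∀ t, X t ≠ 0) (h : ∀ t, ∃ c : ℂ, K t = c • X t) :
    ∃ l : C(A, ℂ), ∀ t, K t = l t • X t ∧ l t ≠ 0 := by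
  have hc : ∀ (Z : C(A, Fin n → ℂ)) (i : Fin n), Continuous fun v => Z v i := fun Z i =>
    (continuous_apply i).comp Z.continuous
  have hs : ∀ i : Fin n, Continuous fun v => (starRingEnd ℂ) (X v i) := fun i =>
    Complex.continuous_conj.comp (hc X i)
  have hcont : Continuous fun t => (∑ i, (starRingEnd ℂ) (X t i) * K t i) / hn (X t) := by
    refine Continuous.div ?_ ?_ (fun t => hn_ne (hX t))
    · exact continuous_finsetSum _ fun i _ => (hs i).mul (hc K i)
    · unfold hn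
      exact continuous_finsetSum _ fun i _ => (hs i).mul (hc X i)
  have hl : ∀ t, K t = ((∑ i, (starRingEnd ℂ) (X t i) * K t i) / hn (X t)) • X t := by
    intro t
    obtain ⟨c, hc⟩ := h t
    have := pa_self (hX t) c
    rw [← hc, pa_eq] at this
    exact this.symm
  refine ⟨⟨_, hcont⟩, fun t => ⟨hl t, fun h0 => ?_⟩⟩
  change (∑ i, (starRingEnd ℂ) (X t i) * K t i) / hn (X t) = 0 at h0
  have := hl t
  rw [h0, zero_smul] at this
  exact hK t this

/-- Around the boundary of the square the variations of the ratios of a vector function to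
given boundary data add up to a multiple of `2πi`. -/
lemma boundary_int (lb lr lt ll : C(I, ℂ)) (hb : ∀ t, lb t ≠ 0) (hr : ∀ t, lr t ≠ 0)
    (ht : ∀ t, lt t ≠ 0) (hl : ∀ t, ll t ≠ 0) (h00 : lb 0 = ll 0) (h01 : lb 1 = lr 0)
    (h11 : lr 1 = lt 1) (h10 : lt 0 = ll 1) :
    ∃ k : ℤ, lv lb + lv lr - lv lt - lv ll = k * (2 * Real.pi * Complex.I) := by
  apply exp_eq_one_iff.1
  rw [exp_sub, exp_sub, exp_add, exp_lv hb, exp_lv hr, exp_lv ht, exp_lv hl, h00, h01, h11, h10]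
  have h1 := hr 0
  have h2 := hl 0
  have h3 := hl 1
  have h4 := ht 1
  field_simp

/-- The two sheet obstruction. A homotopy (relative to end points) in the fibre product, given by
lifts `(K₀,W₀)`, `(K₁,W₁)` on the square with equal image, forces a congruence modulo `m` between
the variations of a coordinate of the section along the sides. -/
theorem two_sheet {n : ℕ} (s : (Fin 2 → ℂ) → ℂ → (Fin n → ℂ)) (m : ℕ)
    (hs : Continuous fun z : (Fin 2 → ℂ) × ℂ => s z.1 z.2)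
    (hhom : ∀ (c : ℂ) X w, s (c • X) w = c ^ m • s X w)
    (hne : ∀ X w, X ≠ 0 → s X w ≠ 0) (j : Fin n)
    (K : Fin 2 → C(I × I, Fin 2 → ℂ)) (W : Fin 2 → C(I × I, ℂ)) (hK : ∀ a z, K a z ≠ 0)
    (hpar : ∀ z, ∃ c : ℂ, s (K 0 z) (W 0 z) = c • s (K 1 z) (W 1 z))
    (X X' : Fin 2 → C(I, Fin 2 → ℂ)) (hX : ∀ a t, X a t ≠ 0) (hX' : ∀ a t, X' a t ≠ 0)
    (h0 : ∀ a, X a 0 = X' a 0) (h1 : ∀ a, X a 1 = X' a 1)
    (hb : ∀ a t, ∃ c : ℂ, K a (0, t) = c • X a t)
    (ht : ∀ a t, ∃ c : ℂ, K a (1, t) = c • X' a t)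
    (hl : ∀ a r, ∃ c : ℂ, K a (r, 0) = c • X a 0)
    (hr : ∀ a r, ∃ c : ℂ, K a (r, 1) = c • X a 1)
    (hW0 : ∀ a r, W a (r, 0) = W a (0, 0)) (hW1 : ∀ a r, W a (r, 1) = W a (0, 1))
    (S S' : Fin 2 → C(I, ℂ)) (hS : ∀ a t, S a t = s (X a t) (W a (0, t)) j)
    (hS' : ∀ a t, S' a t = s (X' a t) (W a (1, t)) j)
    (hS0 : ∀ a t, S a t ≠ 0) (hS0' : ∀ a t, S' a t ≠ 0) :
    ∃ k : ℤ, (lv (S 0) - lv (S 1)) - (lv (S' 0) - lv (S' 1))
      = m * k * (2 * Real.pi * Complex.I) := by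
  -- ratio of the sections
  have hsc : ∀ a, Continuous fun z => s (K a z) (W a z) := fun a =>
    hs.comp ((K a).continuous.prodMk (W a).continuous)
  obtain ⟨c, hc⟩ := exists_ratio ⟨_, hsc 0⟩ ⟨_, hsc 1⟩ (fun z => hne _ _ (hK 0 z))
    (fun z => hne _ _ (hK 1 z)) hpar
  simp only [ContinuousMap.coe_mk] at hc
  obtain ⟨C, hC⟩ := exists_log_square c (fun z => (hc z).2)
  -- sides
  let ib : C(I, I × I) := ⟨fun t => (0, t), by fun_prop⟩
  let it : C(I, I × I) := ⟨fun t => (1, t), by fun_prop⟩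
  let il : C(I, I × I) := ⟨fun t => (t, 0), by fun_prop⟩
  let ir : C(I, I × I) := ⟨fun t => (t, 1), by fun_prop⟩
  have Hb : ∀ a, ∃ l : C(I, ℂ), ∀ t, K a (0, t) = l t • X a t ∧ l t ≠ 0 := fun a =>
    exists_ratio ((K a).comp ib) (X a) (fun t => hK a _) (hX a) (hb a)
  have Ht : ∀ a, ∃ l : C(I, ℂ), ∀ t, K a (1, t) = l t • X' a t ∧ l t ≠ 0 := fun a =>
    exists_ratio ((K a).comp it) (X' a) (fun t => hK a _) (hX' a) (ht a)
  have Hl : ∀ a, ∃ l : C(I, ℂ), ∀ t, K a (t, 0) = l t • X a 0 ∧ l t ≠ 0 := fun a =>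
    exists_ratio ((K a).comp il) (ContinuousMap.const _ (X a 0)) (fun t => hK a _)
      (fun _ => hX a 0) (hl a)
  have Hr : ∀ a, ∃ l : C(I, ℂ), ∀ t, K a (t, 1) = l t • X a 1 ∧ l t ≠ 0 := fun a =>
    exists_ratio ((K a).comp ir) (ContinuousMap.const _ (X a 1)) (fun t => hK a _)
      (fun _ => hX a 1) (hr a)
  choose lb hlb using Hb
  choose lt hlt using Ht
  choose ll hll using Hl
  choose lr hlr using Hr
  have canc : ∀ {x y : ℂ} {v : Fin 2 → ℂ}, v ≠ 0 → x • v = y • v → x = y := by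
    intro x y v hv h
    exact smul_left_injective ℂ hv h
  -- integrality of the boundary variations
  have hint : ∀ a, ∃ k : ℤ, lv (lb a) + lv (lr a) - lv (lt a) - lv (ll a)
      = k * (2 * Real.pi * Complex.I) := by
    intro a
    refine boundary_int (lb a) (lr a) (lt a) (ll a) (fun t => (hlb a t).2) (fun t => (hlr a t).2)
      (fun t => (hlt a t).2) (fun t => (hll a t).2) ?_ ?_ ?_ ?_
    · exact canc (hX a 0) ((hlb a 0).1.symm.trans (hll a 0).1)
    · exact canc (hX a 1) ((hlb a 1).1.symm.trans (hlr a 0).1)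
    · refine canc (hX a 1) ((hlr a 1).1.symm.trans ?_)
      rw [(hlt a 1).1, h1]
    · refine canc (hX a 0) (Eq.trans ?_ (hll a 1).1)
      rw [(hlt a 0).1, h0]
  obtain ⟨k0, hk0⟩ := hint 0
  obtain ⟨k1, hk1⟩ := hint 1
  -- variations of c
  have hcb : lv (c.comp ib) = C (0, 1) - C (0, 0) := lv_eq (C.comp ib) (fun t => hC _)
  have hct : lv (c.comp it) = C (1, 1) - C (1, 0) := lv_eq (C.comp it) (fun t => hC _)
  have hcl : lv (c.comp il) = C (1, 0) - C (0, 0) := lv_eq (C.comp il) (fun t => hC _)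
  have hcr : lv (c.comp ir) = C (1, 1) - C (0, 1) := lv_eq (C.comp ir) (fun t => hC _)
  -- comparison on the sides
  have hsect : ∀ (a : Fin 2) (z : I × I) (l : ℂ) (Y : Fin 2 → ℂ), K a z = l • Y →
      s (K a z) (W a z) j = l ^ m * s Y (W a z) j := by
    intro a z l Y h
    rw [h, hhom]
    simp
  have hcj : ∀ z, s (K 0 z) (W 0 z) j = c z * s (K 1 z) (W 1 z) j := by
    intro z
    have := congrFun (hc z).1 j
    simpa using this
  have side : ∀ (i : C(I, I × I)) (l0 l1 τ0 τ1 : C(I, ℂ)), (∀ t, l0 t ≠ 0) → (∀ t, l1 t ≠ 0) →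
      (∀ t, τ0 t ≠ 0) → (∀ t, τ1 t ≠ 0) →
      (∀ t, l0 t ^ m * τ0 t = c (i t) * (l1 t ^ m * τ1 t)) →
      m * lv l0 + lv τ0 = lv (c.comp i) + (m * lv l1 + lv τ1) := by
    intro i l0 l1 τ0 τ1 hl0 hl1 hτ0 hτ1 h
    have e : l0 ^ m * τ0 = c.comp i * (l1 ^ m * τ1) := by
      ext t
      simpa using h t
    have p0 : ∀ t, (l0 ^ m) t ≠ 0 := fun t => by simpa using pow_ne_zero m (hl0 t)
    have p1 : ∀ t, (l1 ^ m) t ≠ 0 := fun t => by simpa using pow_ne_zero m (hl1 t)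
    have := congrArg lv e
    rw [lv_mul p0 hτ0, lv_mul (fun t => (hc (i t)).2) (fun t => mul_ne_zero (p1 t) (hτ1 t)),
      lv_mul p1 hτ1, lv_pow hl0, lv_pow hl1] at this
    exact this
  have sb := side ib (lb 0) (lb 1) (S 0) (S 1) (fun t => (hlb 0 t).2) (fun t => (hlb 1 t).2)
    (hS0 0) (hS0 1) (fun t => by
      rw [hS, hS, ← hsect 0 (0, t) _ _ (hlb 0 t).1, ← hsect 1 (0, t) _ _ (hlb 1 t).1]
      exact hcj _)
  have st := side it (lt 0) (lt 1) (S' 0) (S' 1) (fun t => (hlt 0 t).2) (fun t => (hlt 1 t).2)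
    (hS0' 0) (hS0' 1) (fun t => by
      rw [hS', hS', ← hsect 0 (1, t) _ _ (hlt 0 t).1, ← hsect 1 (1, t) _ _ (hlt 1 t).1]
      exact hcj _)
  have sl := side il (ll 0) (ll 1) (ContinuousMap.const _ (S 0 0)) (ContinuousMap.const _ (S 1 0))
    (fun t => (hll 0 t).2) (fun t => (hll 1 t).2) (fun t => hS0 0 0) (fun t => hS0 1 0)
    (fun t => by
      simp only [ContinuousMap.const_apply]
      rw [hS, hS, ← hW0 0 t, ← hW0 1 t, ← hsect 0 (t, 0) _ _ (hll 0 t).1,
        ← hsect 1 (t, 0) _ _ (hll 1 t).1]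
      exact hcj _)
  have sr := side ir (lr 0) (lr 1) (ContinuousMap.const _ (S 0 1)) (ContinuousMap.const _ (S 1 1))
    (fun t => (hlr 0 t).2) (fun t => (hlr 1 t).2) (fun t => hS0 0 1) (fun t => hS0 1 1)
    (fun t => by
      simp only [ContinuousMap.const_apply]
      rw [hS, hS, ← hW1 0 t, ← hW1 1 t, ← hsect 0 (t, 1) _ _ (hlr 0 t).1,
        ← hsect 1 (t, 1) _ _ (hlr 1 t).1]
      exact hcj _)
  have z0 : lv (ContinuousMap.const I (S 0 0)) = 0 := lv_const (hS0 0 0) (fun _ => rfl)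
  have z1 : lv (ContinuousMap.const I (S 1 0)) = 0 := lv_const (hS0 1 0) (fun _ => rfl)
  have z2 : lv (ContinuousMap.const I (S 0 1)) = 0 := lv_const (hS0 0 1) (fun _ => rfl)
  have z3 : lv (ContinuousMap.const I (S 1 1)) = 0 := lv_const (hS0 1 1) (fun _ => rfl)
  rw [z0, z1] at sl
  rw [z2, z3] at sr
  rw [hcb] at sb
  rw [hct] at st
  rw [hcl] at sl
  rw [hcr] at sr
  refine ⟨k1 - k0, ?_⟩
  push_cast
  linear_combination sb - st - sl + sr - m * hk0 + m * hk1

end Pool.Agent.Gal2c4b12
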