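import Pool.Agent.Lib.MP_2c4b12_ag.H27Theta

/-!
# The even pencil `θ_{2K,0}, θ_{2K,K}`
-/

namespace Pool.Agent.Gal2c4b12

open Complex Filter Topology

theorem lin_single {n : ℕ} (τ : ℂ) (i : Fin n) (w : ℂ) :
    lin τ (Pi.single i 1) w = th n τ i w := by
  unfold lin
  rw [Finset.sum_eq_single i]
  · simp
  · intro b _ hb
    simp [hb]
  · intro h
    exact absurd (Finset.mem_univ i) h

/-- The even theta function `θ_{2K,0}`. -/
noncomputable def ev0 (K : ℕ) (τ : ℂ) (w : ℂ) : ℂ :=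
  ∑' j : ℤ, exp (2 * Real.pi * I * (K * τ) * j ^ 2 + 4 * Real.pi * I * j * (K * w))

/-- The even theta function `θ_{2K,K}`. -/
noncomputable def ev1 (K : ℕ) (τ : ℂ) (w : ℂ) : ℂ :=
  ∑' j : ℤ, exp (2 * Real.pi * I * (K * τ) * (j + 1 / 2) ^ 2 +
    4 * Real.pi * I * (j + 1 / 2) * (K * w))

theorem th_zero_eq {K : ℕ} (hK : 0 < K) (τ w : ℂ) :
    th (K + K) τ ⟨0, by omega⟩ w = ev0 K τ w := by
  unfold th ev0
  refine tsum_congr fun j => ?_
  congr 1
  push_cast
  ring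

theorem th_half_eq {K : ℕ} (hK : 0 < K) (τ w : ℂ) :
    th (K + K) τ ⟨K, by omega⟩ w = ev1 K τ w := by
  have hK' : (K : ℂ) ≠ 0 := by exact_mod_cast hK.ne'
  have h2 : ((K : ℕ) : ℂ) / ((K + K : ℕ) : ℂ) = 1 / 2 := by
    push_cast
    field_simp
    ring
  unfold th ev1
  refine tsum_congr fun j => ?_
  rw [h2]
  congr 1
  push_cast
  ring

theorem differentiable_ev0 {K : ℕ} (hK : 0 < K) {τ : ℂ} (hτ : 0 < τ.im) :
    Differentiable ℂ (ev0 K τ) := by
  have h : ev0 K τ = th (K + K) τ ⟨0, by omega⟩ := by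
    funext w
    exact (th_zero_eq hK τ w).symm
  rw [h]
  exact differentiable_th hτ _

theorem differentiable_ev1 {K : ℕ} (hK : 0 < K) {τ : ℂ} (hτ : 0 < τ.im) :
    Differentiable ℂ (ev1 K τ) := by
  have h : ev1 K τ = th (K + K) τ ⟨K, by omega⟩ := by
    funext w
    exact (th_half_eq hK τ w).symm
  rw [h]
  exact differentiable_th hτ _

theorem ev0_neg (K : ℕ) (τ w : ℂ) : ev0 K τ (-w) = ev0 K τ w := by
  unfold ev0
  rw [← (Equiv.neg ℤ).tsum_eq (fun j : ℤ =>
    exp (2 * Real.pi * I * (K * τ) * j ^ 2 + 4 * Real.pi * I * j * (K * w)))]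
  refine tsum_congr fun j => ?_
  congr 1
  simp only [Equiv.neg_apply]
  push_cast
  ring

theorem ev1_neg (K : ℕ) (τ w : ℂ) : ev1 K τ (-w) = ev1 K τ w := by
  unfold ev1
  rw [← ((Equiv.neg ℤ).trans (Equiv.addRight (-1 : ℤ))).tsum_eq (fun j : ℤ =>
    exp (2 * Real.pi * I * (K * τ) * (j + 1 / 2) ^ 2 + 4 * Real.pi * I * (j + 1 / 2) * (K * w)))]
  refine tsum_congr fun j => ?_
  congr 1
  simp only [Equiv.trans_apply, Equiv.neg_apply, Equiv.coe_addRight]
  push_cast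
  ring

theorem ev0_add_div {K : ℕ} (hK : 0 < K) (τ w : ℂ) (a : ℤ) :
    ev0 K τ (w + a / K) = ev0 K τ w := by
  have hK' : (K : ℂ) ≠ 0 := by exact_mod_cast hK.ne'
  unfold ev0
  refine tsum_congr fun j => ?_
  have h : (2 * Real.pi * I * (K * τ) * j ^ 2 + 4 * Real.pi * I * j * (K * (w + a / K)) : ℂ) =
      (2 * Real.pi * I * (K * τ) * j ^ 2 + 4 * Real.pi * I * j * (K * w)) +
        ((2 * j * a : ℤ) : ℂ) * (2 * Real.pi * I) := by
    push_cast
    field_simp
    ring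
  rw [h, exp_add, exp_int_mul_two_pi_mul_I, mul_one]

theorem ev1_add_div {K : ℕ} (hK : 0 < K) (τ w : ℂ) (a : ℤ) :
    ev1 K τ (w + a / K) = ev1 K τ w := by
  have hK' : (K : ℂ) ≠ 0 := by exact_mod_cast hK.ne'
  unfold ev1
  refine tsum_congr fun j => ?_
  have h : (2 * Real.pi * I * (K * τ) * (j + 1 / 2) ^ 2 +
      4 * Real.pi * I * (j + 1 / 2) * (K * (w + a / K)) : ℂ) =
      (2 * Real.pi * I * (K * τ) * (j + 1 / 2) ^ 2 + 4 * Real.pi * I * (j + 1 / 2) * (K * w)) +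
        (((2 * j + 1) * a : ℤ) : ℂ) * (2 * Real.pi * I) := by
    push_cast
    field_simp
    ring
  rw [h, exp_add, exp_int_mul_two_pi_mul_I, mul_one]

/-- The common factor of automorphy of the sections of degree `2K`. -/
noncomputable def aut (K : ℕ) (τ w : ℂ) : ℂ :=
  exp (-(2 * Real.pi * I * (K * τ)) - 4 * Real.pi * I * (K * w))

theorem aut_ne_zero (K : ℕ) (τ w : ℂ) : aut K τ w ≠ 0 := exp_ne_zero _

theorem ev0_add_tau (K : ℕ) (τ w : ℂ) : ev0 K τ (w + τ) = aut K τ w * ev0 K τ w := by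
  unfold ev0 aut
  rw [← tsum_mul_left, ← (Equiv.addRight (1 : ℤ)).tsum_eq (fun j : ℤ =>
    exp (-(2 * Real.pi * I * (K * τ)) - 4 * Real.pi * I * (K * w)) *
      exp (2 * Real.pi * I * (K * τ) * j ^ 2 + 4 * Real.pi * I * j * (K * w)))]
  refine tsum_congr fun j => ?_
  rw [← exp_add]
  congr 1
  simp only [Equiv.coe_addRight]
  push_cast
  ring

theorem ev1_add_tau (K : ℕ) (τ w : ℂ) : ev1 K τ (w + τ) = aut K τ w * ev1 K τ w := by
  unfold ev1 aut
  rw [← tsum_mul_left, ← (Equiv.addRight (1 : ℤ)).tsum_eq (fun j : ℤ =>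
    exp (-(2 * Real.pi * I * (K * τ)) - 4 * Real.pi * I * (K * w)) *
      exp (2 * Real.pi * I * (K * τ) * (j + 1 / 2) ^ 2 +
        4 * Real.pi * I * (j + 1 / 2) * (K * w)))]
  refine tsum_congr fun j => ?_
  rw [← exp_add]
  congr 1
  simp only [Equiv.coe_addRight]
  push_cast
  ring

/-- `θ_{2K,0}` and `θ_{2K,K}` have no common zero. -/
theorem ev_nocommon {K : ℕ} (hK : 0 < K) {τ : ℂ} (hτ : 0 < τ.im) (w : ℂ) :
    ev0 K τ w ≠ 0 ∨ ev1 K τ w ≠ 0 := by
  by_contra! h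
  obtain ⟨h0, h1⟩ := h
  have hσ : 0 < ((K : ℂ) * τ).im := im_natmul hK hτ
  have hzero : ∀ b : ℂ, jacobiTheta₂ (K * w + b) (K * τ) * jacobiTheta₂ (K * w - b) (K * τ) = 0 := by
    intro b
    have := theta_mul_theta hσ (K * w) b
    unfold ev0 at h0
    unfold ev1 at h1
    rw [h0, h1, zero_mul, zero_mul, zero_add] at this
    exact this
  have hd : Differentiable ℂ (fun z : ℂ => jacobiTheta₂ z (K * τ)) := fun z =>
    differentiableAt_jacobiTheta₂_fst z hσ
  have hf : AnalyticOnNhd ℂ (fun b : ℂ => jacobiTheta₂ (K * w + b) (K * τ)) Set.univ :=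
    (hd.comp (by fun_prop : Differentiable ℂ fun b : ℂ => K * w + b)).differentiableOn.analyticOnNhd
      isOpen_univ
  have hg : AnalyticOnNhd ℂ (fun b : ℂ => jacobiTheta₂ (K * w - b) (K * τ)) Set.univ :=
    (hd.comp (by fun_prop : Differentiable ℂ fun b : ℂ => K * w - b)).differentiableOn.analyticOnNhd
      isOpen_univ
  obtain ⟨z, hz⟩ := exists_theta_ne_zero hσ
  rcases AnalyticOnNhd.eq_zero_or_eq_zero_of_mul_eq_zero hf hg (fun b _ => hzero b)
    isPreconnected_univ with h | h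
  · have := h (z - K * w) (Set.mem_univ _)
    simp only [add_sub_cancel] at this
    exact hz this
  · have := h (K * w - z) (Set.mem_univ _)
    simp only [sub_sub_cancel] at this
    exact hz this

/-- The zero `1/(4K) + τ/2` of `θ_{2K,0}`. -/
noncomputable def z1 (K : ℕ) (τ : ℂ) : ℂ := 1 / (4 * K) + τ / 2

theorem ev0_z1 {K : ℕ} (hK : 0 < K) (τ : ℂ) : ev0 K τ (z1 K τ) = 0 := by
  have hK' : (K : ℂ) ≠ 0 := by exact_mod_cast hK.ne'
  let f : ℤ → ℂ := fun j => exp (2 * Real.pi * I * (K * τ) * j ^ 2 +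
    4 * Real.pi * I * j * (K * z1 K τ))
  have hf : ∀ j : ℤ, f (-j + (-1)) = -f j := by
    intro j
    have h1 : (2 * Real.pi * I * (K * τ) * ((-j + (-1) : ℤ) : ℂ) ^ 2 +
        4 * Real.pi * I * ((-j + (-1) : ℤ) : ℂ) * (K * z1 K τ)) =
        (2 * Real.pi * I * (K * τ) * j ^ 2 + 4 * Real.pi * I * j * (K * z1 K τ)) +
          (Real.pi * I) + ((-j - 1 : ℤ) : ℂ) * (2 * Real.pi * I) := by
      unfold z1
      push_cast
      field_simp
      ring
    simp only [f]
    rw [h1, exp_add, exp_add, exp_int_mul_two_pi_mul_I, exp_pi_mul_I]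
    ring
  have h1 : ev0 K τ (z1 K τ) = ∑' j, f j := rfl
  have h2 : ∑' j, f j = ∑' j, -f j := by
    rw [← ((Equiv.neg ℤ).trans (Equiv.addRight (-1 : ℤ))).tsum_eq f]
    refine tsum_congr fun j => ?_
    simp only [Equiv.trans_apply, Equiv.neg_apply, Equiv.coe_addRight]
    exact hf j
  rw [h1]
  rw [tsum_neg] at h2
  exact self_eq_neg.1 h2

theorem exists_ev0_ne_zero {K : ℕ} (hK : 0 < K) {τ : ℂ} (hτ : 0 < τ.im) :
    ∃ w, ev0 K τ w ≠ 0 := by
  have hn : 0 < K + K := by omega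
  obtain ⟨z, hz⟩ := exists_theta_ne_zero (im_natmul hn hτ)
  have hn' : ((K + K : ℕ) : ℂ) ≠ 0 := by exact_mod_cast hn.ne'
  refine ⟨z / ((K + K : ℕ) : ℂ), ?_⟩
  rw [← th_zero_eq hK, th_eq hn]
  refine mul_ne_zero (exp_ne_zero _) ?_
  rw [mul_div_cancel₀ _ hn']
  simpa using hz

/-- The Wronskian. -/
noncomputable def wr (K : ℕ) (τ : ℂ) (w : ℂ) : ℂ :=
  deriv (ev1 K τ) w * ev0 K τ w - ev1 K τ w * deriv (ev0 K τ) w

theorem differentiable_wr {K : ℕ} (hK : 0 < K) {τ : ℂ} (hτ : 0 < τ.im) :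
    Differentiable ℂ (wr K τ) := by
  have h0 := differentiable_ev0 hK hτ
  have h1 := differentiable_ev1 hK hτ
  have h0' : Differentiable ℂ (deriv (ev0 K τ)) := h0.deriv
  have h1' : Differentiable ℂ (deriv (ev1 K τ)) := h1.deriv
  exact (h1'.mul h0).sub (h1.mul h0')

theorem analytic_univ {f : ℂ → ℂ} (hf : Differentiable ℂ f) : AnalyticOnNhd ℂ f Set.univ :=
  hf.differentiableOn.analyticOnNhd isOpen_univ

theorem ev1_z1 {K : ℕ} (hK : 0 < K) {τ : ℂ} (hτ : 0 < τ.im) : ev1 K τ (z1 K τ) ≠ 0 := by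
  rcases ev_nocommon hK hτ (z1 K τ) with h | h
  · exact absurd (ev0_z1 hK τ) h
  · exact h

theorem exists_wr_ne_zero {K : ℕ} (hK : 0 < K) {τ : ℂ} (hτ : 0 < τ.im) :
    ∃ w, wr K τ w ≠ 0 := by
  by_contra! hW
  have h0 := differentiable_ev0 hK hτ
  have h1 := differentiable_ev1 hK hτ
  have hopen : IsOpen {w | ev1 K τ w ≠ 0} := isOpen_ne_fun h1.continuous continuous_const
  obtain ⟨r, hr, hball⟩ := Metric.isOpen_iff.1 hopen _ (ev1_z1 hK hτ)
  have hconst : ∀ w ∈ Metric.ball (z1 K τ) r, ev0 K τ w / ev1 K τ w = 0 := by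
    intro w hw
    have hd : DifferentiableOn ℂ (fun w => ev0 K τ w / ev1 K τ w) (Metric.ball (z1 K τ) r) :=
      fun x hx => ((h0 x).div (h1 x) (hball hx)).differentiableWithinAt
    have hd' : Set.EqOn (deriv fun w => ev0 K τ w / ev1 K τ w) 0 (Metric.ball (z1 K τ) r) := by
      intro x hx
      have := hW x
      unfold wr at this
      change deriv (fun w => ev0 K τ w / ev1 K τ w) x = 0
      rw [deriv_fun_div (h0 x) (h1 x) (hball hx)]
      rw [div_eq_zero_iff]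
      left
      linear_combination -this
    have := Metric.isOpen_ball.is_const_of_deriv_eq_zero
      (convex_ball (z1 K τ) r).isPreconnected hd hd' hw (Metric.mem_ball_self hr)
    rw [this, ev0_z1 hK, zero_div]
  have hev : ∀ᶠ w in 𝓝 (z1 K τ), ev0 K τ w = 0 := by
    filter_upwards [Metric.ball_mem_nhds _ hr] with w hw
    have := hconst w hw
    rw [div_eq_zero_iff] at this
    exact this.resolve_right (hball hw)
  obtain ⟨w, hw⟩ := exists_ev0_ne_zero hK hτ
  exact hw ((analytic_univ h0).eqOn_zero_of_preconnected_of_eventuallyEq_zero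
    isPreconnected_univ (Set.mem_univ _) hev (Set.mem_univ w))

/-- The zero set of a nonzero entire function is countable. -/
theorem countable_zeros {f : ℂ → ℂ} (hf : Differentiable ℂ f) {w : ℂ} (hw : f w ≠ 0) :
    {z | f z = 0}.Countable := by
  rcases (analytic_univ hf).eqOn_zero_or_eventually_ne_zero_of_preconnected
    isPreconnected_univ with h | h
  · exact absurd (h (Set.mem_univ w)) hw
  · have hdisc : IsDiscrete ({z | f z = 0} ∩ Set.univ) := by
      refine isDiscrete_of_codiscreteWithin (U := Set.univ) ?_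
      rw [Filter.eventually_iff] at h
      have : {x | f x ≠ 0} = {z | f z = 0}ᶜ := rfl
      rw [← this]
      exact h
    rw [Set.inter_univ] at hdisc
    exact (HereditarilyLindelofSpace.isLindelof _).countable_of_isDiscrete hdisc

theorem eventually_punctured_ne_zero {f : ℂ → ℂ} (hf : Differentiable ℂ f) {w : ℂ}
    (hw : f w ≠ 0) (z : ℂ) : ∀ᶠ x in 𝓝[≠] z, f x ≠ 0 := by
  by_contra h
  have h' : ∃ᶠ x in 𝓝[≠] z, f x = 0 := by
    rw [Filter.not_eventually] at h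
    exact h.mono fun x hx => not_not.1 hx
  exact hw ((analytic_univ hf).eqOn_zero_of_preconnected_of_frequently_eq_zero
    isPreconnected_univ (Set.mem_univ z) h' (Set.mem_univ w))

end Pool.Agent.Gal2c4b12
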