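import Pool.Agent.Lib.MP_2c4b12_ag.H27Even

/-!
# A pencil of sections of even degree with explicit sheets
-/

namespace Pool.Agent.Gal2c4b12

open Complex Filter Topology

theorem mem_lat {τ z : ℂ} : z ∈ lat τ ↔ ∃ a b : ℤ, z = a + b * τ := by
  unfold lat
  rw [AddSubgroup.mem_closure_pair]
  constructor
  · rintro ⟨a, b, h⟩
    refine ⟨a, b, ?_⟩
    rw [← h]
    simp
  · rintro ⟨a, b, h⟩
    refine ⟨a, b, ?_⟩
    rw [h]
    simp

/-- The elliptic function `θ_{2K,K} / θ_{2K,0}`. -/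
noncomputable def hq (K : ℕ) (τ : ℂ) (w : ℂ) : ℂ := ev1 K τ w / ev0 K τ w

theorem hq_neg (K : ℕ) (τ w : ℂ) : hq K τ (-w) = hq K τ w := by
  unfold hq
  rw [ev0_neg, ev1_neg]

theorem hq_add_div {K : ℕ} (hK : 0 < K) (τ w : ℂ) (a : ℤ) : hq K τ (w + a / K) = hq K τ w := by
  unfold hq
  rw [ev0_add_div hK, ev1_add_div hK]

theorem hq_periodic_tau (K : ℕ) (τ : ℂ) : Function.Periodic (hq K τ) τ := by
  intro w
  unfold hq
  rw [ev0_add_tau, ev1_add_tau, mul_div_mul_left _ _ (aut_ne_zero K τ w)]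

theorem hq_add_full {K : ℕ} (hK : 0 < K) (τ w : ℂ) (j a b : ℤ) :
    hq K τ (w + (j / K + a + b * τ)) = hq K τ w := by
  have hK' : (K : ℂ) ≠ 0 := by exact_mod_cast hK.ne'
  have h1 : w + ((j : ℂ) / K + a + b * τ) = (w + ((j + a * K : ℤ) : ℂ) / K) + b * τ := by
    push_cast
    field_simp
    ring
  rw [h1, (hq_periodic_tau K τ).int_mul b, hq_add_div hK]

theorem hasDerivAt_hq {K : ℕ} (hK : 0 < K) {τ : ℂ} (hτ : 0 < τ.im) {x : ℂ}
    (hx : ev0 K τ x ≠ 0) : HasDerivAt (hq K τ) (wr K τ x / ev0 K τ x ^ 2) x := by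
  have h0 := (differentiable_ev0 hK hτ x).hasDerivAt
  have h1 := (differentiable_ev1 hK hτ x).hasDerivAt
  exact h1.fun_div h0 hx

/-- At a regular point the involutions `w ↦ -w + j/K + λ` have no fixed point. -/
theorem two_mul_ne {K : ℕ} (hK : 0 < K) {τ : ℂ} (hτ : 0 < τ.im) {x : ℂ}
    (hx : ev0 K τ x ≠ 0) (hW : wr K τ x ≠ 0) (j a b : ℤ) : 2 * x ≠ j / K + a + b * τ := by
  intro h
  have hd := hasDerivAt_hq hK hτ hx
  have hfix : -x + ((j : ℂ) / K + a + b * τ) = x := by rw [← h]; ring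
  have hd1 : HasDerivAt (fun y : ℂ => -y + ((j : ℂ) / K + a + b * τ)) (-1) x :=
    (hasDerivAt_neg x).add_const _
  have hd2 : HasDerivAt (fun y : ℂ => hq K τ (-y + ((j : ℂ) / K + a + b * τ)))
      (wr K τ x / ev0 K τ x ^ 2 * (-1)) x := by
    have hd' : HasDerivAt (hq K τ) (wr K τ x / ev0 K τ x ^ 2)
      (-x + ((j : ℂ) / K + a + b * τ)) := by rw [hfix]; exact hd
    exact hd'.comp x hd1
  have heq : (fun y : ℂ => hq K τ (-y + ((j : ℂ) / K + a + b * τ))) = hq K τ := by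
    funext y
    rw [hq_add_full hK, hq_neg]
  rw [heq] at hd2
  have := hd.unique hd2
  have h3 : wr K τ x / ev0 K τ x ^ 2 = 0 := by
    linear_combination this / 2
  rw [div_eq_zero_iff] at h3
  rcases h3 with h3 | h3
  · exact hW h3
  · exact hx (pow_eq_zero_iff (two_ne_zero) |>.1 h3)

/-- The sign of the sheet `j`. -/
def sg (K : ℕ) (j : Fin (K + K)) : ℤ := if (j : ℕ) < K then 1 else -1

theorem sg_cases (K : ℕ) (j : Fin (K + K)) :
    ((j : ℕ) < K ∧ sg K j = 1) ∨ (K ≤ (j : ℕ) ∧ sg K j = -1) := by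
  unfold sg
  split_ifs with h
  · exact Or.inl ⟨h, rfl⟩
  · exact Or.inr ⟨not_lt.1 h, rfl⟩

/-- The sheet `j` over the point `x`. -/
noncomputable def sh (K : ℕ) (j : Fin (K + K)) (x : ℂ) : ℂ :=
  (sg K j : ℂ) * x + (((j : ℕ) : ℤ) : ℂ) / K

theorem apply_sh {K : ℕ} (f : ℂ → ℂ) (hneg : ∀ w, f (-w) = f w)
    (hadd : ∀ (w : ℂ) (a : ℤ), f (w + a / K) = f w) (j : Fin (K + K)) (x : ℂ) :
    f (sh K j x) = f x := by
  unfold sh
  rw [hadd]
  rcases sg_cases K j with ⟨_, h⟩ | ⟨_, h⟩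
  · rw [h]
    simp
  · rw [h]
    simp [hneg]

theorem deriv_sh {K : ℕ} (f : ℂ → ℂ) (hf : Differentiable ℂ f) (hneg : ∀ w, f (-w) = f w)
    (hadd : ∀ (w : ℂ) (a : ℤ), f (w + a / K) = f w) (j : Fin (K + K)) (x : ℂ) :
    deriv f x = deriv f (sh K j x) * (sg K j : ℂ) := by
  have h1 : HasDerivAt (sh K j) (sg K j : ℂ) x := by
    unfold sh
    have := ((hasDerivAt_id x).const_mul (sg K j : ℂ)).add_const ((((j : ℕ) : ℤ) : ℂ) / K)
    simpa using this
  have h2 := (hf (sh K j x)).hasDerivAt.comp x h1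
  have h3 : f ∘ sh K j = f := by
    funext y
    exact apply_sh f hneg hadd j y
  rw [h3] at h2
  exact h2.deriv

theorem sh_dist {K : ℕ} (hK : 0 < K) {τ : ℂ} (hτ : 0 < τ.im) {x : ℂ}
    (hx : ev0 K τ x ≠ 0) (hW : wr K τ x ≠ 0) {j j' : Fin (K + K)} (hj : j ≠ j') :
    sh K j x - sh K j' x ∉ lat τ := by
  intro hmem
  obtain ⟨a, b, hab⟩ := mem_lat.1 hmem
  have hK' : (K : ℂ) ≠ 0 := by exact_mod_cast hK.ne'
  unfold sh at hab
  have same : ((((j : ℕ) : ℤ) : ℂ) / K - (((j' : ℕ) : ℤ) : ℂ) / K = a + b * τ) →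
      (((j : ℕ) : ℤ) - ((j' : ℕ) : ℤ) = a * K) := by
    intro h
    have him := congrArg Complex.im h
    have h1 : ((((j : ℕ) : ℤ) : ℂ) / K - (((j' : ℕ) : ℤ) : ℂ) / K).im = 0 := by
      have : ((((j : ℕ) : ℤ) : ℂ) / K - (((j' : ℕ) : ℤ) : ℂ) / K) =
        (((((j : ℕ) : ℝ) / K - ((j' : ℕ) : ℝ) / K : ℝ)) : ℂ) := by
        push_cast
        ring
      rw [this]
      exact Complex.ofReal_im _
    have h2 : ((a : ℂ) + b * τ).im = b * τ.im := by simp
    rw [h1, h2] at him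
    have hb : (b : ℝ) = 0 := by
      rcases mul_eq_zero.1 him.symm with h | h
      · exact h
      · exact absurd h hτ.ne'
    have hb' : (b : ℂ) = 0 := by exact_mod_cast hb
    rw [hb', zero_mul, add_zero, ← sub_div, div_eq_iff hK'] at h
    exact_mod_cast h
  rcases sg_cases K j with ⟨h1, h2⟩ | ⟨h1, h2⟩ <;> rcases sg_cases K j' with ⟨h3, h4⟩ | ⟨h3, h4⟩
  · rw [h2, h4] at hab
    have := same (by linear_combination hab)
    have ha : a = 0 := by
      by_contra ha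
      rcases lt_or_gt_of_ne ha with ha | ha
      · have : a * K ≤ -1 * K := by
          apply mul_le_mul_of_nonneg_right (by omega) (by positivity)
        omega
      · have : 1 * (K : ℤ) ≤ a * K := by
          apply mul_le_mul_of_nonneg_right (by omega) (by positivity)
        omega
    rw [ha, zero_mul] at this
    exact hj (Fin.ext (by omega))
  · rw [h2, h4] at hab
    refine two_mul_ne hK hτ hx hW (((j' : ℕ) : ℤ) - ((j : ℕ) : ℤ)) a b ?_
    push_cast at hab ⊢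
    linear_combination hab
  · rw [h2, h4] at hab
    refine two_mul_ne hK hτ hx hW (((j : ℕ) : ℤ) - ((j' : ℕ) : ℤ)) (-a) (-b) ?_
    push_cast at hab ⊢
    linear_combination -hab
  · rw [h2, h4] at hab
    have := same (by linear_combination hab)
    have hj1 := j.isLt
    have hj2 := j'.isLt
    have ha : a = 0 := by
      by_contra ha
      rcases lt_or_gt_of_ne ha with ha | ha
      · have : a * K ≤ -1 * K := by
          apply mul_le_mul_of_nonneg_right (by omega) (by positivity)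
        omega
      · have : 1 * (K : ℤ) ≤ a * K := by
          apply mul_le_mul_of_nonneg_right (by omega) (by positivity)
        omega
    rw [ha, zero_mul] at this
    exact hj (Fin.ext (by omega))

/-- A base point such that the two full lines in the directions `1` and `τ` avoid the zeros of a
given nonzero entire function. -/
theorem exists_base {f : ℂ → ℂ} (hf : Differentiable ℂ f) {w : ℂ} (hw : f w ≠ 0) {τ : ℂ}
    (hτ : 0 < τ.im) : ∃ w₀ : ℂ, (∀ t : ℝ, f (w₀ + t) ≠ 0) ∧ ∀ t : ℝ, f (w₀ + t * τ) ≠ 0 := by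
  have hc := countable_zeros hf hw
  have hB : ((fun z : ℂ => z.im / τ.im) '' {z | f z = 0}).Countable := hc.image _
  have hA : ((fun z : ℂ => z.re - z.im / τ.im * τ.re) '' {z | f z = 0}).Countable := hc.image _
  obtain ⟨b, hb⟩ := (hB.dense_compl ℝ).nonempty
  obtain ⟨a, ha⟩ := (hA.dense_compl ℝ).nonempty
  refine ⟨a + b * τ, fun t h => hb ⟨_, h, ?_⟩, fun t h => ha ⟨_, h, ?_⟩⟩
  · simp
    field_simp
  · simp
    field_simp
    ring

/-- Near the zero `z1` of `θ_{2K,0}` there are regular points with large values. -/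
theorem exists_large {K : ℕ} (hK : 0 < K) {τ : ℂ} (hτ : 0 < τ.im) (M : ℝ) :
    ∃ v : ℂ, ev0 K τ v ≠ 0 ∧ wr K τ v ≠ 0 ∧ M < ‖hq K τ v‖ := by
  have h0 := differentiable_ev0 hK hτ
  have h1 := differentiable_ev1 hK hτ
  obtain ⟨w, hw⟩ := exists_ev0_ne_zero hK hτ
  obtain ⟨w', hw'⟩ := exists_wr_ne_zero hK hτ
  have e1 := eventually_punctured_ne_zero h0 hw (z1 K τ)
  have e2 := eventually_punctured_ne_zero (differentiable_wr hK hτ) hw' (z1 K τ)
  have hc : 0 < ‖ev1 K τ (z1 K τ)‖ := norm_pos_iff.2 (ev1_z1 hK hτ)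
  have e3 : ∀ᶠ v in 𝓝 (z1 K τ), ‖ev1 K τ (z1 K τ)‖ / 2 < ‖ev1 K τ v‖ :=
    (h1.continuous.norm.tendsto (z1 K τ)).eventually (lt_mem_nhds (by linarith))
  have e4 : ∀ᶠ v in 𝓝 (z1 K τ), ‖ev0 K τ v‖ < ‖ev1 K τ (z1 K τ)‖ / (2 * (|M| + 1)) := by
    refine (h0.continuous.norm.tendsto (z1 K τ)).eventually (gt_mem_nhds ?_)
    rw [ev0_z1 hK, norm_zero]
    positivity
  obtain ⟨v, hv1, hv2, hv3, hv4⟩ :=
    (e1.and (e2.and ((e3.filter_mono nhdsWithin_le_nhds).and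
      (e4.filter_mono nhdsWithin_le_nhds)))).exists
  refine ⟨v, hv1, hv2, ?_⟩
  unfold hq
  rw [norm_div, lt_div_iff₀ (norm_pos_iff.2 hv1)]
  have hM : M ≤ |M| := le_abs_self M
  have hM0 : 0 ≤ |M| := abs_nonneg M
  have h5 : M * ‖ev0 K τ v‖ ≤ (|M| + 1) * ‖ev0 K τ v‖ :=
    mul_le_mul_of_nonneg_right (by linarith) (norm_nonneg _)
  have h6 : (|M| + 1) * ‖ev0 K τ v‖ < (|M| + 1) * (‖ev1 K τ (z1 K τ)‖ / (2 * (|M| + 1))) :=
    mul_lt_mul_of_pos_left hv4 (by linarith)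
  have h7 : (|M| + 1) * (‖ev1 K τ (z1 K τ)‖ / (2 * (|M| + 1))) = ‖ev1 K τ (z1 K τ)‖ / 2 := by
    field_simp
  linarith

end Pool.Agent.Gal2c4b12
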