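import Pool.Agent.Lib.MP_2c4b12_ag.H27Pencil

/-!
# Existence of the pencil in even degree
-/

namespace Pool.Agent.Gal2c4b12

open Filter Topology unitInterval

theorem exists_pencil_add {K : ℕ} (hK : 0 < K) {τ : ℂ} (hτ : 0 < τ.im) :
    Nonempty (Pencil (K + K) τ) := by
  have d0 := differentiable_ev0 hK hτ
  have d1 := differentiable_ev1 hK hτ
  obtain ⟨y0, hy0⟩ := exists_ev0_ne_zero hK hτ
  obtain ⟨y1, hy1⟩ := exists_wr_ne_zero hK hτ
  have hprod : Differentiable ℂ fun w => ev0 K τ w * wr K τ w := d0.mul (differentiable_wr hK hτ)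
  obtain ⟨y, hy⟩ : ∃ y, ev0 K τ y * wr K τ y ≠ 0 := by
    by_contra! h
    rcases AnalyticOnNhd.eq_zero_or_eq_zero_of_mul_eq_zero (analytic_univ d0)
      (analytic_univ (differentiable_wr hK hτ)) (fun z _ => h z) isPreconnected_univ with h | h
    · exact hy0 (h y0 (Set.mem_univ _))
    · exact hy1 (h y1 (Set.mem_univ _))
  obtain ⟨w₀, hw1, hwτ⟩ := exists_base hprod hy hτ
  let ω : Fin 2 → ℂ := fun c => if c = 0 then 1 else τ
  have hω0 : ω 0 = 1 := rfl
  have hω1 : ω 1 = τ := rfl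
  have hreg : ∀ (c : Fin 2) (t : ℝ), ev0 K τ (w₀ + t * ω c) ≠ 0 ∧ wr K τ (w₀ + t * ω c) ≠ 0 := by
    intro c t
    have h : ev0 K τ (w₀ + t * ω c) * wr K τ (w₀ + t * ω c) ≠ 0 := by
      fin_cases c
      · have := hw1 t
        simpa [ω] using this
      · have := hwτ t
        simpa [ω] using this
    exact ⟨left_ne_zero_of_mul h, right_ne_zero_of_mul h⟩
  let P : Fin 2 → C(I, ℂ) := fun c =>
    ⟨fun t => hq K τ (w₀ + ((t : ℝ) : ℂ) * ω c), by
      unfold hq
      refine Continuous.div ?_ ?_ fun t => (hreg c t).1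
      · exact d1.continuous.comp (by fun_prop)
      · exact d0.continuous.comp (by fun_prop)⟩
  let S : Fin 2 → Fin (K + K) → C(I, ℂ) := fun c j =>
    ⟨fun t => sh K j (w₀ + ((t : ℝ) : ℂ) * ω c), by
      unfold sh
      fun_prop⟩
  obtain ⟨v₀, hv0, hvW, hvM⟩ := exists_large hK hτ (max ‖P 0‖ ‖P 1‖)
  have hn0 : ∀ w, ev0 K τ (-w) = ev0 K τ w := ev0_neg K τ
  have hn1 : ∀ w, ev1 K τ (-w) = ev1 K τ w := ev1_neg K τ
  have ha0 : ∀ (w : ℂ) (a : ℤ), ev0 K τ (w + a / K) = ev0 K τ w := ev0_add_div hK τ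
  have ha1 : ∀ (w : ℂ) (a : ℤ), ev1 K τ (w + a / K) = ev1 K τ w := ev1_add_div hK τ
  have hsimple : ∀ (j : Fin (K + K)) (x : ℂ), ev0 K τ x ≠ 0 → wr K τ x ≠ 0 →
      deriv (ev1 K τ) (sh K j x) ≠ hq K τ x * deriv (ev0 K τ) (sh K j x) := by
    intro j x hx hW h
    have h1 := deriv_sh (ev1 K τ) d1 hn1 ha1 j x
    have h0 := deriv_sh (ev0 K τ) d0 hn0 ha0 j x
    apply hW
    have h2 : hq K τ x * ev0 K τ x = ev1 K τ x := div_mul_cancel₀ _ hx
    unfold wr
    rw [h1, h0, h, ← h2]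
    ring
  refine ⟨{
    u := fun c => if c = 0 then Pi.single ⟨0, by omega⟩ 1 else Pi.single ⟨K, by omega⟩ 1
    nocommon := ?_
    p := P
    p_base := ?_
    p_closed := ?_
    w := S
    w_eq := ?_
    w_ne := ?_
    w_simple := ?_
    w_dist := ?_
    w_start := ?_
    ε := sg K
    w_end0 := ?_
    w_end1 := ?_
    j₀ := ⟨0, by omega⟩
    ε_j₀ := ?_
    q := hq K τ v₀
    q_ne := ?_
    v := fun j => sh K j v₀
    v_eq := ?_
    v_ne := ?_
    v_simple := ?_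
    v_dist := ?_ }⟩
  all_goals
    try
      have hu0 : lin τ (Pi.single (⟨0, by omega⟩ : Fin (K + K)) 1) = ev0 K τ := by
        funext w
        rw [lin_single, th_zero_eq hK]
      have hu1 : lin τ (Pi.single (⟨K, by omega⟩ : Fin (K + K)) 1) = ev1 K τ := by
        funext w
        rw [lin_single, th_half_eq hK]
  · intro w
    simp only [if_true, one_ne_zero, if_false]
    rw [hu0, hu1]
    exact ev_nocommon hK hτ w
  · change hq K τ (w₀ + (((0 : I) : ℝ) : ℂ) * ω 0) = hq K τ (w₀ + (((0 : I) : ℝ) : ℂ) * ω 1)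
    simp
  · intro c
    change hq K τ (w₀ + (((1 : I) : ℝ) : ℂ) * ω c) = hq K τ (w₀ + (((0 : I) : ℝ) : ℂ) * ω c)
    fin_cases c
    · have := hq_add_full hK τ w₀ 0 1 0
      simpa [ω] using this
    · have := hq_periodic_tau K τ w₀
      simpa [ω] using this
  · intro c j t
    simp only [if_true, one_ne_zero, if_false]
    rw [hu0, hu1]
    change ev1 K τ (sh K j (w₀ + ((t : ℝ) : ℂ) * ω c)) =
      hq K τ (w₀ + ((t : ℝ) : ℂ) * ω c) * ev0 K τ (sh K j (w₀ + ((t : ℝ) : ℂ) * ω c))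
    rw [apply_sh _ hn1 ha1, apply_sh _ hn0 ha0]
    exact (div_mul_cancel₀ _ (hreg c t).1).symm
  · intro c j t
    simp only [if_true]
    rw [hu0]
    change ev0 K τ (sh K j (w₀ + ((t : ℝ) : ℂ) * ω c)) ≠ 0
    rw [apply_sh _ hn0 ha0]
    exact (hreg c t).1
  · intro c j t
    simp only [if_true, one_ne_zero, if_false]
    rw [hu0, hu1]
    exact hsimple j _ (hreg c t).1 (hreg c t).2
  · intro c t j j' hj
    exact sh_dist hK hτ (hreg c t).1 (hreg c t).2 hj
  · intro j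
    change sh K j (w₀ + (((0 : I) : ℝ) : ℂ) * ω 0) = sh K j (w₀ + (((0 : I) : ℝ) : ℂ) * ω 1)
    simp
  · intro j
    change sh K j (w₀ + (((1 : I) : ℝ) : ℂ) * ω 0) =
      sh K j (w₀ + (((0 : I) : ℝ) : ℂ) * ω 0) + sg K j
    unfold sh
    rw [hω0]
    simp
    ring
  · intro j
    change sh K j (w₀ + (((1 : I) : ℝ) : ℂ) * ω 1) =
      sh K j (w₀ + (((0 : I) : ℝ) : ℂ) * ω 1) + sg K j * τ
    unfold sh
    rw [hω1]
    simp
    ring
  · unfold sg
    simp [hK]
  · intro c t h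
    have h1 : ‖P c t‖ ≤ ‖P c‖ := (P c).norm_coe_le_norm t
    have h2 : ‖P c‖ ≤ max ‖P 0‖ ‖P 1‖ := by
      fin_cases c
      · exact le_max_left _ _
      · exact le_max_right _ _
    rw [h] at h1
    linarith
  · intro j
    simp only [if_true, one_ne_zero, if_false]
    rw [hu0, hu1, apply_sh _ hn1 ha1, apply_sh _ hn0 ha0]
    exact (div_mul_cancel₀ _ hv0).symm
  · intro j
    simp only [if_true]
    rw [hu0, apply_sh _ hn0 ha0]
    exact hv0
  · intro j
    simp only [if_true, one_ne_zero, if_false]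
    rw [hu0, hu1]
    exact hsimple j v₀ hv0 hvW
  · intro j j' hj
    exact sh_dist hK hτ hv0 hvW hj

/-- **Existence of the pencil** in every even degree. -/
theorem exists_pencil {τ : ℂ} (hτ : 0 < τ.im) {n : ℕ} (hn : Even n) (h2 : 2 ≤ n) :
    Nonempty (Pencil n τ) := by
  obtain ⟨K, rfl⟩ := hn
  exact exists_pencil_add (by omega) hτ

end Pool.Agent.Gal2c4b12
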