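import Pool.Agent.Lib.MP_2c4b12_ag.H66Defs

/-!
# Theta functions: the facts needed for the pencil of sections on the torus
-/

namespace Pool.Agent.Gal2c4b12

open Complex

/-- `θ_{n,k}` in terms of Mathlib's `jacobiTheta₂`. -/
theorem th_eq {n : ℕ} (hn : 0 < n) (τ : ℂ) (k : Fin n) (w : ℂ) :
    th n τ k w = exp (Real.pi * I * τ * (k : ℕ) ^ 2 / n + 2 * Real.pi * I * (k : ℕ) * w) *
      jacobiTheta₂ (n * w + (k : ℕ) * τ) (n * τ) := by
  have hn' : (n : ℂ) ≠ 0 := by exact_mod_cast hn.ne'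
  unfold th jacobiTheta₂
  rw [← tsum_mul_left]
  refine tsum_congr fun j => ?_
  rw [jacobiTheta₂_term, ← exp_add]
  congr 1
  field_simp
  ring

theorem im_natmul {n : ℕ} (hn : 0 < n) {τ : ℂ} (hτ : 0 < τ.im) : 0 < ((n : ℂ) * τ).im := by
  have : ((n : ℂ) * τ).im = n * τ.im := by simp
  rw [this]
  exact mul_pos (by exact_mod_cast hn) hτ

/-- `θ_{n,k}` is entire. -/
theorem differentiable_th {n : ℕ} {τ : ℂ} (hτ : 0 < τ.im) (k : Fin n) :
    Differentiable ℂ (th n τ k) := by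
  have hn : 0 < n := k.pos
  have h : th n τ k = fun w => exp (Real.pi * I * τ * (k : ℕ) ^ 2 / n +
      2 * Real.pi * I * (k : ℕ) * w) * jacobiTheta₂ (n * w + (k : ℕ) * τ) (n * τ) := by
    funext w
    exact th_eq hn τ k w
  rw [h]
  intro w
  have h0 : DifferentiableAt ℂ (fun w : ℂ => (n : ℂ) * w + (k : ℕ) * τ) w := by fun_prop
  have h1 : DifferentiableAt ℂ (fun w : ℂ => jacobiTheta₂ (n * w + (k : ℕ) * τ) (n * τ)) w :=
    DifferentiableAt.comp (g := fun z : ℂ => jacobiTheta₂ z (n * τ)) w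
      (differentiableAt_jacobiTheta₂_fst (n * w + (k : ℕ) * τ) (im_natmul hn hτ)) h0
  have h2 : DifferentiableAt ℂ (fun w : ℂ => exp (Real.pi * I * τ * (k : ℕ) ^ 2 / n +
      2 * Real.pi * I * (k : ℕ) * w)) w := by fun_prop
  exact h2.mul h1

theorem th_add_one {n : ℕ} (τ : ℂ) (k : Fin n) (w : ℂ) : th n τ k (w + 1) = th n τ k w := by
  have hn : (n : ℂ) ≠ 0 := by exact_mod_cast (k.pos).ne'
  unfold th
  refine tsum_congr fun j => ?_
  have h : (Real.pi * I * n * τ * (j + (k : ℕ) / n) ^ 2 +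
      2 * Real.pi * I * n * (j + (k : ℕ) / n) * (w + 1) : ℂ) =
      (Real.pi * I * n * τ * (j + (k : ℕ) / n) ^ 2 + 2 * Real.pi * I * n * (j + (k : ℕ) / n) * w) +
        ((n * j + k : ℤ) : ℂ) * (2 * Real.pi * I) := by
    push_cast
    field_simp
    ring
  rw [h, exp_add, exp_int_mul_two_pi_mul_I, mul_one]

theorem th_add_tau {n : ℕ} (τ : ℂ) (k : Fin n) (w : ℂ) :
    th n τ k (w + τ) = exp (-(Real.pi * I * n * τ) - 2 * Real.pi * I * n * w) * th n τ k w := by
  unfold th
  rw [← tsum_mul_left, ← (Equiv.addRight (1 : ℤ)).tsum_eq (fun j : ℤ =>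
    exp (-(Real.pi * I * n * τ) - 2 * Real.pi * I * n * w) *
      exp (Real.pi * I * n * τ * (j + (k : ℕ) / n) ^ 2 +
        2 * Real.pi * I * n * (j + (k : ℕ) / n) * w))]
  refine tsum_congr fun j => ?_
  rw [← exp_add]
  congr 1
  simp only [Equiv.coe_addRight]
  push_cast
  ring

/-- The bijection `(ℤ × ℤ) ⊕ (ℤ × ℤ) → ℤ × ℤ` splitting pairs by the parity of the sum. -/
def parSplit : (ℤ × ℤ) ⊕ (ℤ × ℤ) → ℤ × ℤ :=
  Sum.elim (fun p => (p.1 + p.2, p.1 - p.2)) (fun p => (p.1 + p.2 + 1, p.1 - p.2))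

theorem parSplit_bijective : Function.Bijective parSplit := by
  constructor
  · rintro (⟨a, b⟩ | ⟨a, b⟩) (⟨c, d⟩ | ⟨c, d⟩) h
    · simp only [parSplit, Sum.elim_inl, Prod.mk.injEq] at h
      have h1 : a = c := by omega
      have h2 : b = d := by omega
      rw [h1, h2]
    · simp only [parSplit, Sum.elim_inl, Sum.elim_inr, Prod.mk.injEq] at h
      omega
    · simp only [parSplit, Sum.elim_inl, Sum.elim_inr, Prod.mk.injEq] at h
      omega
    · simp only [parSplit, Sum.elim_inr, Prod.mk.injEq] at h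
      have h1 : a = c := by omega
      have h2 : b = d := by omega
      rw [h1, h2]
  · rintro ⟨p, q⟩
    rcases Int.even_or_odd (p + q) with ⟨r, hr⟩ | ⟨r, hr⟩
    · refine ⟨Sum.inl (r, p - r), ?_⟩
      simp only [parSplit, Sum.elim_inl, Prod.mk.injEq]
      omega
    · refine ⟨Sum.inr (r, p - r - 1), ?_⟩
      simp only [parSplit, Sum.elim_inr, Prod.mk.injEq]
      omega

theorem tsum_parSplit (F : ℤ × ℤ → ℂ) (hF : Summable F) :
    ∑' p, F p = ∑' p : ℤ × ℤ, F (p.1 + p.2, p.1 - p.2) +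
      ∑' p : ℤ × ℤ, F (p.1 + p.2 + 1, p.1 - p.2) := by
  have hinj : Summable fun s => F (parSplit s) := hF.comp_injective parSplit_bijective.injective
  have h1 : Summable fun p : ℤ × ℤ => F (parSplit (Sum.inl p)) :=
    hinj.comp_injective Sum.inl_injective
  have h2 : Summable fun p : ℤ × ℤ => F (parSplit (Sum.inr p)) :=
    hinj.comp_injective Sum.inr_injective
  have h3 := Summable.tsum_sum (f := fun s => F (parSplit s)) h1 h2
  have h4 := (Equiv.ofBijective parSplit parSplit_bijective).tsum_eq F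
  rw [← h4]
  exact h3

theorem im_two_mul {σ : ℂ} (hσ : 0 < σ.im) : 0 < (2 * σ).im := by simpa using hσ

theorem summable_A {σ : ℂ} (hσ : 0 < σ.im) (z : ℂ) : Summable fun j : ℤ =>
    ‖exp (2 * Real.pi * I * σ * j ^ 2 + 4 * Real.pi * I * j * z)‖ := by
  have h := ((summable_jacobiTheta₂_term_iff (2 * z) (2 * σ)).2 (im_two_mul hσ)).norm
  refine h.congr fun j => ?_
  have : (2 * Real.pi * I * σ * j ^ 2 + 4 * Real.pi * I * j * z : ℂ) =
    2 * Real.pi * I * j * (2 * z) + Real.pi * I * j ^ 2 * (2 * σ) := by ring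
  rw [jacobiTheta₂_term, this]

theorem summable_B {σ : ℂ} (hσ : 0 < σ.im) (z : ℂ) : Summable fun j : ℤ =>
    ‖exp (2 * Real.pi * I * σ * (j + 1 / 2) ^ 2 + 4 * Real.pi * I * (j + 1 / 2) * z)‖ := by
  have h := (((summable_jacobiTheta₂_term_iff (2 * z + σ) (2 * σ)).2
    (im_two_mul hσ)).norm).mul_left ‖exp (Real.pi * I * σ / 2 + 2 * Real.pi * I * z)‖
  refine h.congr fun j => ?_
  have : (2 * Real.pi * I * σ * (j + 1 / 2) ^ 2 + 4 * Real.pi * I * (j + 1 / 2) * z : ℂ) =
    (Real.pi * I * σ / 2 + 2 * Real.pi * I * z) +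
      (2 * Real.pi * I * j * (2 * z + σ) + Real.pi * I * j ^ 2 * (2 * σ)) := by ring
  rw [jacobiTheta₂_term, this, exp_add (Real.pi * I * σ / 2 + 2 * Real.pi * I * z), norm_mul]

/-- The product formula, reindexed by parity. -/
theorem theta_mul_theta {σ : ℂ} (hσ : 0 < σ.im) (z b : ℂ) :
    jacobiTheta₂ (z + b) σ * jacobiTheta₂ (z - b) σ =
      (∑' j : ℤ, exp (2 * Real.pi * I * σ * j ^ 2 + 4 * Real.pi * I * j * z)) *
        (∑' j : ℤ, exp (2 * Real.pi * I * σ * j ^ 2 + 4 * Real.pi * I * j * b)) +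
      (∑' j : ℤ, exp (2 * Real.pi * I * σ * (j + 1 / 2) ^ 2 + 4 * Real.pi * I * (j + 1 / 2) * z)) *
        (∑' j : ℤ, exp (2 * Real.pi * I * σ * (j + 1 / 2) ^ 2 +
          4 * Real.pi * I * (j + 1 / 2) * b)) := by
  have hs : ∀ z : ℂ, Summable fun j : ℤ => ‖jacobiTheta₂_term j z σ‖ := fun z =>
    ((summable_jacobiTheta₂_term_iff z σ).2 hσ).norm
  have hprod : Summable fun p : ℤ × ℤ =>
      jacobiTheta₂_term p.1 (z + b) σ * jacobiTheta₂_term p.2 (z - b) σ :=
    summable_mul_of_summable_norm (f := fun j : ℤ => jacobiTheta₂_term j (z + b) σ)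
      (g := fun j : ℤ => jacobiTheta₂_term j (z - b) σ) (hs (z + b)) (hs (z - b))
  have e1 : ∀ p : ℤ × ℤ, jacobiTheta₂_term (p.1 + p.2) (z + b) σ *
      jacobiTheta₂_term (p.1 - p.2) (z - b) σ =
      exp (2 * Real.pi * I * σ * p.1 ^ 2 + 4 * Real.pi * I * p.1 * z) *
        exp (2 * Real.pi * I * σ * p.2 ^ 2 + 4 * Real.pi * I * p.2 * b) := by
    intro p
    simp only [jacobiTheta₂_term]
    rw [← exp_add, ← exp_add]
    congr 1
    push_cast
    ring
  have e2 : ∀ p : ℤ × ℤ, jacobiTheta₂_term (p.1 + p.2 + 1) (z + b) σ *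
      jacobiTheta₂_term (p.1 - p.2) (z - b) σ =
      exp (2 * Real.pi * I * σ * (p.1 + 1 / 2) ^ 2 + 4 * Real.pi * I * (p.1 + 1 / 2) * z) *
        exp (2 * Real.pi * I * σ * (p.2 + 1 / 2) ^ 2 + 4 * Real.pi * I * (p.2 + 1 / 2) * b) := by
    intro p
    simp only [jacobiTheta₂_term]
    rw [← exp_add, ← exp_add]
    congr 1
    push_cast
    ring
  have h0 : jacobiTheta₂ (z + b) σ * jacobiTheta₂ (z - b) σ =
      ∑' p : ℤ × ℤ, jacobiTheta₂_term p.1 (z + b) σ * jacobiTheta₂_term p.2 (z - b) σ :=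
    tsum_mul_tsum_of_summable_norm (hs _) (hs _)
  have h1 := tsum_parSplit _ hprod
  rw [h0, h1, tsum_congr e1, tsum_congr e2,
    ← tsum_mul_tsum_of_summable_norm (summable_A hσ z) (summable_A hσ b),
    ← tsum_mul_tsum_of_summable_norm (summable_B hσ z) (summable_B hσ b)]

/-- The Jacobi theta function is not identically zero (its constant Fourier coefficient is `1`). -/
theorem exists_theta_ne_zero {σ : ℂ} (hσ : 0 < σ.im) : ∃ z : ℂ, jacobiTheta₂ z σ ≠ 0 := by
  by_contra! h0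
  have key : HasSum (fun n : ℤ => ∫ x in (0 : ℝ)..1, jacobiTheta₂_term n (x : ℂ) σ)
      (∫ x in (0 : ℝ)..1, (0 : ℂ)) := by
    refine intervalIntegral.hasSum_integral_of_dominated_convergence
      (fun n _ => Real.exp (-Real.pi * (σ.im * n ^ 2 - 2 * 0 * |(n : ℝ)|))) ?_ ?_ ?_ ?_ ?_
    · intro n
      refine Continuous.aestronglyMeasurable ?_
      unfold jacobiTheta₂_term
      fun_prop
    · intro n
      refine Filter.Eventually.of_forall fun x _ => ?_
      have := norm_jacobiTheta₂_term_le hσ (z := (x : ℂ)) (S := 0) (by simp) le_rfl n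
      simpa using this
    · refine Filter.Eventually.of_forall fun x _ => ?_
      have := summable_pow_mul_jacobiTheta₂_term_bound 0 hσ 0
      simpa using this
    · exact intervalIntegrable_const
    · refine Filter.Eventually.of_forall fun x _ => ?_
      have := hasSum_jacobiTheta₂_term (x : ℂ) hσ
      rwa [h0] at this
  have hval : ∀ n : ℤ, (∫ x in (0 : ℝ)..1, jacobiTheta₂_term n (x : ℂ) σ) =
      if n = 0 then 1 else 0 := by
    intro n
    split_ifs with hn
    · subst hn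
      simp [jacobiTheta₂_term]
    · have hc : (2 * Real.pi * I * n : ℂ) ≠ 0 := by
        simp [hn, Real.pi_ne_zero]
      have : ∀ x : ℝ, jacobiTheta₂_term n (x : ℂ) σ =
          exp (Real.pi * I * n ^ 2 * σ) * exp ((2 * Real.pi * I * n) * x) := by
        intro x
        rw [jacobiTheta₂_term, ← exp_add]
        congr 1
        ring
      simp_rw [this]
      rw [intervalIntegral.integral_const_mul, integral_exp_mul_complex hc]
      have h1 : exp (2 * Real.pi * I * n * ((1 : ℝ) : ℂ)) = 1 := by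
        rw [← exp_int_mul_two_pi_mul_I n]
        congr 1
        push_cast
        ring
      rw [h1]
      simp
  simp_rw [hval] at key
  have h1 : HasSum (fun n : ℤ => if n = 0 then (1 : ℂ) else 0) 1 := hasSum_ite_eq 0 1
  have := key.unique h1
  simp at this

end Pool.Agent.Gal2c4b12
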