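import Mathlib

/-!
# Persistence of simple solutions along a path under perturbation of parameters
-/

namespace Pool.Agent.Gal2c4b12

open Topology unitInterval Set Function

/-- Local solvability: a map `(A,y) ↦ (A, F(A,y))` is a local homeomorphism at `(A₀,y₀)` when the
partial derivative in `y` is injective. -/
theorem local_homeo {E Y : Type*} [NormedAddCommGroup E] [NormedSpace ℂ E] [CompleteSpace E]
    [FiniteDimensional ℂ E] [NormedAddCommGroup Y] [NormedSpace ℂ Y] [CompleteSpace Y]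
    [FiniteDimensional ℂ Y] (F : E × Y → Y) (v : E × Y) (F' : E × Y →L[ℂ] Y)
    (hF : HasStrictFDerivAt F F' v) (hinj : ∀ y : Y, F' (0, y) = 0 → y = 0) :
    ∃ e : OpenPartialHomeomorph (E × Y) (E × Y), v ∈ e.source ∧ ∀ z, e z = (z.1, F z) := by
  let P' : E × Y →L[ℂ] E × Y := (ContinuousLinearMap.fst ℂ E Y).prod F'
  have hP : HasStrictFDerivAt (fun z : E × Y => (z.1, F z)) P' v :=
    hasStrictFDerivAt_fst.prodMk hF
  have hinj' : Function.Injective P' := by
    rw [injective_iff_map_eq_zero]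
    rintro ⟨a, y⟩ h
    have h1 : a = 0 := congrArg Prod.fst h
    have h2 : F' (a, y) = 0 := congrArg Prod.snd h
    subst h1
    rw [hinj y h2]
    rfl
  have hsurj : Function.Surjective P' :=
    (LinearMap.injective_iff_surjective (f := (P' : E × Y →ₗ[ℂ] E × Y))).1 hinj'
  let Q : (E × Y) ≃L[ℂ] (E × Y) := ContinuousLinearEquiv.ofBijective P'
    (LinearMap.ker_eq_bot.2 hinj') (LinearMap.range_eq_top.2 hsurj)
  have hQ : HasStrictFDerivAt (fun z : E × Y => (z.1, F z)) (Q : E × Y →L[ℂ] E × Y) v := by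
    have : (Q : E × Y →L[ℂ] E × Y) = P' := by
      ext z <;> rfl
    rw [this]
    exact hP
  exact ⟨hQ.toOpenPartialHomeomorph _, hQ.mem_toOpenPartialHomeomorph_source, fun z => rfl⟩

/-- Persistence of a path of simple solutions. -/
theorem persist {E Y : Type*} [TopologicalSpace E] [TopologicalSpace Y] [T2Space E] [T2Space Y]
    (F : E × Y → Y) (A₀ : E) (y u : C(I, Y)) (h0 : ∀ t, F (A₀, y t) = u t)
    (hloc : ∀ t, ∃ e : OpenPartialHomeomorph (E × Y) (E × Y), (A₀, y t) ∈ e.source ∧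
      ∀ z, e z = (z.1, F z)) :
    ∃ U ∈ 𝓝 A₀, ∃ Z : E × I → Y, ContinuousOn Z (U ×ˢ univ) ∧
      (∀ A ∈ U, ∀ t, F (A, Z (A, t)) = u t) ∧ ∀ t, Z (A₀, t) = y t := by
  choose e he hee using hloc
  let P : I × E × Y → I × E × Y := fun z => (z.1, z.2.1, F z.2)
  let K : Set (I × E × Y) := range fun t : I => (t, A₀, y t)
  have hK : IsCompact K := isCompact_range (by fun_prop)
  have hPe : ∀ t z, z.2 ∈ (e t).source → P z = (z.1, e t z.2) := fun t z _ => by
    simp only [P, hee t]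
  have hPK : InjOn P K := by
    rintro _ ⟨t, rfl⟩ _ ⟨t', rfl⟩ h
    have : t = t' := congrArg Prod.fst h
    rw [this]
  -- local description
  let O : I → Set (I × E × Y) := fun t => univ ×ˢ (e t).source
  have hO : ∀ t, IsOpen (O t) := fun t => isOpen_univ.prod (e t).open_source
  have hOi : ∀ t, InjOn P (O t) := by
    rintro t ⟨a, b⟩ ⟨-, hb⟩ ⟨a', b'⟩ ⟨-, hb'⟩ h
    rw [hPe t _ hb, hPe t _ hb'] at h
    have h1 : a = a' := congrArg Prod.fst h
    have h2 : e t b = e t b' := congrArg Prod.snd h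
    have h3 : b = b' := (e t).injOn hb hb' h2
    rw [h1, h3]
  have hOc : ∀ t, ContinuousOn P (O t) := by
    intro t
    have : ContinuousOn (fun z : I × E × Y => (z.1, e t z.2)) (O t) :=
      continuousOn_fst.prodMk ((e t).continuousOn.comp continuousOn_snd fun z hz => hz.2)
    exact this.congr fun z hz => hPe t z hz.2
  have hKc : ∀ x ∈ K, ContinuousAt P x := by
    rintro _ ⟨t, rfl⟩
    exact (hOc t).continuousAt ((hO t).mem_nhds ⟨mem_univ _, he t⟩)
  have hKl : ∀ x ∈ K, ∃ u ∈ 𝓝 x, InjOn P u := by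
    rintro _ ⟨t, rfl⟩
    exact ⟨O t, (hO t).mem_nhds ⟨mem_univ _, he t⟩, hOi t⟩
  obtain ⟨V, hVo, hKV, hVi⟩ := hPK.exists_isOpen_superset hK hKc hKl
  let W : Set (I × E × Y) := V ∩ ⋃ t, O t
  have hWo : IsOpen W := hVo.inter (isOpen_iUnion hO)
  have hKW : K ⊆ W := by
    rintro _ ⟨t, rfl⟩
    exact ⟨hKV ⟨t, rfl⟩, mem_iUnion.2 ⟨t, mem_univ _, he t⟩⟩
  have hWi : InjOn P W := hVi.mono inter_subset_left
  -- P is open on W
  have hOpen : ∀ B : Set (I × E × Y), IsOpen B → B ⊆ W → IsOpen (P '' B) := by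
    intro B hB hBW
    have : P '' B = ⋃ t, P '' (B ∩ O t) := by
      rw [← image_iUnion, ← inter_iUnion]
      congr 1
      rw [inter_eq_left.2]
      exact fun z hz => (hBW hz).2
    rw [this]
    refine isOpen_iUnion fun t => ?_
    let Q : OpenPartialHomeomorph (I × E × Y) (I × E × Y) :=
      (OpenPartialHomeomorph.refl I).prod (e t)
    have h1 : P '' (B ∩ O t) = Q '' (B ∩ O t) := by
      refine image_congr fun z hz => ?_
      rw [hPe t z hz.2.2]
      rfl
    rw [h1]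
    refine Q.isOpen_image_of_subset_source (hB.inter (hO t)) ?_
    rintro z ⟨-, hz⟩
    simpa [Q] using hz.2
  have hPW : IsOpen (P '' W) := hOpen W hWo Subset.rfl
  -- parameters
  let U : Set E := {A | ∀ t : I, (t, A, u t) ∈ P '' W}
  have hU : U ∈ 𝓝 A₀ := by
    have hc : Continuous fun z : E × I => (z.2, z.1, u z.2) := by fun_prop
    have h1 : ∀ t ∈ (univ : Set I), ∀ᶠ z : E × I in 𝓝 A₀ ×ˢ 𝓝 t, (z.2, z.1, u z.2) ∈ P '' W := by
      intro t _
      rw [← nhds_prod_eq]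
      refine hc.continuousAt.eventually (hPW.mem_nhds ⟨(t, A₀, y t), hKW ⟨t, rfl⟩, ?_⟩)
      simp only [P, h0]
    have h2 := isCompact_univ.eventually_forall_of_forall_eventually (x₀ := A₀)
      (P := fun A t => (t, A, u t) ∈ P '' W) (fun t ht => by
        rw [nhds_prod_eq]
        exact h1 t ht)
    filter_upwards [h2] with A hA t
    exact hA t (mem_univ t)
  have hex : ∀ A ∈ U, ∀ t, ∃ z : Y, (t, A, z) ∈ W ∧ F (A, z) = u t := by
    intro A hA t
    obtain ⟨⟨t', A', z⟩, hz, h⟩ := hA t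
    simp only [P, Prod.mk.injEq] at h
    obtain ⟨rfl, rfl, h⟩ := h
    exact ⟨z, hz, h⟩
  classical
  let Z : E × I → Y := fun a => if h : a.1 ∈ U then (hex a.1 h a.2).choose else y a.2
  have hZ : ∀ A ∈ U, ∀ t, (t, A, Z (A, t)) ∈ W ∧ F (A, Z (A, t)) = u t := by
    intro A hA t
    have : Z (A, t) = (hex A hA t).choose := by
      simp only [Z, dif_pos hA]
    rw [this]
    exact (hex A hA t).choose_spec
  have huniq : ∀ A t z z', (t, A, z) ∈ W → (t, A, z') ∈ W → F (A, z) = F (A, z') → z = z' := by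
    intro A t z z' h h' hh
    have := hWi h h' (by simp only [P, hh])
    simpa using this
  refine ⟨U, hU, Z, ?_, fun A hA t => (hZ A hA t).2, fun t => ?_⟩
  · rintro ⟨A, t⟩ ⟨hA, -⟩
    rw [ContinuousWithinAt, Filter.tendsto_def]
    intro S hS
    obtain ⟨S', hS', hS'o, hmem⟩ := mem_nhds_iff.1 hS
    -- the open set of points of W over S'
    let B : Set (I × E × Y) := W ∩ {z | z.2.2 ∈ S'}
    have hB : IsOpen B := hWo.inter (hS'o.preimage (by fun_prop))
    have hPB : IsOpen (P '' B) := hOpen B hB inter_subset_left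
    have hc : Continuous fun z : E × I => (z.2, z.1, u z.2) := by fun_prop
    have hmem' : (t, A, u t) ∈ P '' B := by
      refine ⟨(t, A, Z (A, t)), ⟨(hZ A hA t).1, hmem⟩, ?_⟩
      simp only [P, (hZ A hA t).2]
    have h1 : ∀ᶠ z : E × I in 𝓝 (A, t), (z.2, z.1, u z.2) ∈ P '' B :=
      hc.continuousAt.eventually (hPB.mem_nhds hmem')
    have h2 : ∀ᶠ z in 𝓝[U ×ˢ univ] (A, t), (z.2, z.1, u z.2) ∈ P '' B := h1.filter_mono inf_le_left
    filter_upwards [h2, self_mem_nhdsWithin] with z hz hzU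
    obtain ⟨⟨t', A', w⟩, ⟨hw, hwS⟩, h⟩ := hz
    simp only [P, Prod.mk.injEq] at h
    obtain ⟨rfl, rfl, h⟩ := h
    have h3 := hZ z.1 hzU.1 z.2
    have : Z z = w := huniq z.1 z.2 _ _ h3.1 hw (h3.2.trans h.symm)
    rw [mem_preimage, this]
    exact hS' hwS
  · have hA : A₀ ∈ U := mem_of_mem_nhds hU
    refine huniq A₀ t _ _ (hZ A₀ hA t).1 (hKW ⟨t, rfl⟩) ?_
    rw [(hZ A₀ hA t).2, h0]

/-- Local uniqueness: two germs of solutions with the same limit agree. -/
theorem germ_unique {E Y : Type*} [TopologicalSpace E] [TopologicalSpace Y]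
    (F : E × Y → Y) (A₀ : E) (y₀ : Y)
    (e : OpenPartialHomeomorph (E × Y) (E × Y)) (he : (A₀, y₀) ∈ e.source)
    (hee : ∀ z, e z = (z.1, F z)) (a b : E → Y) (ha : Filter.Tendsto a (𝓝 A₀) (𝓝 y₀))
    (hb : Filter.Tendsto b (𝓝 A₀) (𝓝 y₀)) (hab : ∀ᶠ A in 𝓝 A₀, F (A, a A) = F (A, b A)) :
    ∀ᶠ A in 𝓝 A₀, a A = b A := by
  have h1 : Filter.Tendsto (fun A => (A, a A)) (𝓝 A₀) (𝓝 (A₀, y₀)) := by
    rw [nhds_prod_eq]
    exact Filter.tendsto_id.prodMk ha
  have h2 : Filter.Tendsto (fun A => (A, b A)) (𝓝 A₀) (𝓝 (A₀, y₀)) := by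
    rw [nhds_prod_eq]
    exact Filter.tendsto_id.prodMk hb
  have hs : e.source ∈ 𝓝 (A₀, y₀) := e.open_source.mem_nhds he
  filter_upwards [hab, h1 hs, h2 hs] with A hA hA1 hA2
  have := e.injOn hA1 hA2 (by rw [hee, hee]; simp only [hA])
  simpa using this

end Pool.Agent.Gal2c4b12
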