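import Pool.Agent.Lib.MP_2c4b12_ag.H66Theta
import Pool.Agent.Lib.MP_2c4b12_ag.H66Persist

/-!
# The special projection attached to a pencil on `T`
-/

namespace Pool.Agent.Gal2c4b12

open Complex unitInterval Filter Topology
open scoped LinearAlgebra.Projectivization

variable {m n : ℕ} {τ : ℂ}

/-- The special projection `(y^m T₀, y^m T₁ + (x^m + C y^m) T₀, (x^m + C y^m) T₁)`. -/
def baseMat (m : ℕ) (u : Fin 2 → Fin n → ℂ) (C : ℂ) : Mat m n := fun r i k =>
  ![(if i = 0 then u 0 k else 0),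
    (if i = 0 then u 1 k + C * u 0 k else 0) + (if i = Fin.last m then u 0 k else 0),
    (if i = 0 then C * u 1 k else 0) + (if i = Fin.last m then u 1 k else 0)] r

lemma sum_first (f : Fin n → ℂ) (X : Fin 2 → ℂ) (w : ℂ) :
    ∑ i : Fin (m + 1), ∑ k, (if i = 0 then f k else 0) * emb m n τ X w i k
      = X 1 ^ m * lin τ f w := by
  rw [Finset.sum_eq_single 0]
  · simp only [if_true, emb, lin, Finset.mul_sum]
    refine Finset.sum_congr rfl fun k _ => ?_
    simp only [Fin.val_zero, pow_zero, Nat.sub_zero, one_mul]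
    ring
  · intro i _ hi
    simp [hi]
  · simp

lemma sum_last (f : Fin n → ℂ) (X : Fin 2 → ℂ) (w : ℂ) :
    ∑ i : Fin (m + 1), ∑ k, (if i = Fin.last m then f k else 0) * emb m n τ X w i k
      = X 0 ^ m * lin τ f w := by
  rw [Finset.sum_eq_single (Fin.last m)]
  · simp only [if_true, emb, lin, Finset.mul_sum]
    refine Finset.sum_congr rfl fun k _ => ?_
    simp only [Fin.val_last, Nat.sub_self, pow_zero, mul_one]
    ring
  · intro i _ hi
    simp [hi]
  · simp

lemma lin_add (f g : Fin n → ℂ) (w : ℂ) : lin τ (fun k => f k + g k) w = lin τ f w + lin τ g w := by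
  simp [lin, add_mul, Finset.sum_add_distrib]

lemma lin_mul (c : ℂ) (f : Fin n → ℂ) (w : ℂ) : lin τ (fun k => c * f k) w = c * lin τ f w := by
  simp [lin, Finset.mul_sum, mul_assoc]

lemma sec_base (u : Fin 2 → Fin n → ℂ) (C : ℂ) (X : Fin 2 → ℂ) (w : ℂ) :
    sec τ (baseMat m u C) X w = ![X 1 ^ m * lin τ (u 0) w,
      X 1 ^ m * lin τ (u 1) w + (X 0 ^ m + C * X 1 ^ m) * lin τ (u 0) w,
      (X 0 ^ m + C * X 1 ^ m) * lin τ (u 1) w] := by
  funext r
  fin_cases r
  · simpa [sec, baseMat] using sum_first (m := m) (τ := τ) (u 0) X w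
  · have h1 := sum_first (m := m) (τ := τ) (fun k => u 1 k + C * u 0 k) X w
    have h2 := sum_last (m := m) (τ := τ) (u 0) X w
    rw [lin_add, lin_mul] at h1
    simp only [sec, baseMat, Fin.mk_one, Matrix.cons_val_one, Matrix.cons_val_zero, add_mul,
      Finset.sum_add_distrib, h2]
    simp only [← add_mul]
    rw [h1]
    ring
  · have h1 := sum_first (m := m) (τ := τ) (fun k => C * u 1 k) X w
    have h2 := sum_last (m := m) (τ := τ) (u 1) X w
    rw [lin_mul] at h1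
    simp only [sec, baseMat, Fin.reduceFinMk, Matrix.cons_val, add_mul,
      Finset.sum_add_distrib, h2]
    rw [h1]
    ring

/-- The special projection has its centre away from the surface. -/
lemma centreFree_base (u : Fin 2 → Fin n → ℂ) (C : ℂ) (hm : 1 ≤ m)
    (hu : ∀ w, lin τ (u 0) w ≠ 0 ∨ lin τ (u 1) w ≠ 0) : CentreFree τ (baseMat m u C) := by
  intro X w hX h
  rw [sec_base] at h
  have h0 := congrFun h 0
  have h1 := congrFun h 1
  have h2 := congrFun h 2
  simp at h0 h1 h2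
  have hm0 : m ≠ 0 := by omega
  by_cases hy : X 1 = 0
  · have hx : X 0 ≠ 0 := by
      intro hx
      exact hX (funext fun i => by fin_cases i <;> simp [hx, hy])
    rw [hy, zero_pow hm0] at h1 h2
    simp [hm0, hx] at h1 h2
    rcases hu w with h | h
    · exact h h1
    · exact h h2
  · have hT0 : lin τ (u 0) w = 0 := by
      rcases h0 with h | h
      · exact absurd h.1 hy
      · exact h
    rw [hT0] at h1
    have hT1 : lin τ (u 1) w = 0 := by
      have : X 1 ^ m * lin τ (u 1) w = 0 := by simpa using h1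
      rcases mul_eq_zero.1 this with h | h
      · exact absurd (pow_eq_zero_iff hm0 |>.1 h) hy
      · exact h
    rcases hu w with h | h
    · exact h hT0
    · exact h hT1

/-- The projection in affine charts. -/
noncomputable def Fm (τ : ℂ) (z : Mat m n × ℂ × ℂ) : ℂ × ℂ :=
  (sec τ z.1 ![z.2.1, 1] z.2.2 1 / sec τ z.1 ![z.2.1, 1] z.2.2 0,
    sec τ z.1 ![z.2.1, 1] z.2.2 2 / sec τ z.1 ![z.2.1, 1] z.2.2 0)

lemma Fm_base (u : Fin 2 → Fin n → ℂ) (C : ℂ) (x w : ℂ) (h : lin τ (u 0) w ≠ 0) :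
    Fm τ (baseMat m u C, x, w) = (lin τ (u 1) w / lin τ (u 0) w + (x ^ m + C),
      (x ^ m + C) * (lin τ (u 1) w / lin τ (u 0) w)) := by
  unfold Fm
  rw [sec_base]
  simp only [Matrix.cons_val_zero, Matrix.cons_val_one, Matrix.cons_val, one_pow, one_mul, mul_one,
    Prod.mk.injEq]
  constructor
  · field_simp
  · field_simp

lemma hasStrictFDerivAt_Fm (hτ : 0 < τ.im) (z : Mat m n × ℂ × ℂ)
    (hz : sec τ z.1 ![z.2.1, 1] z.2.2 0 ≠ 0) :
    ∃ F' : Mat m n × ℂ × ℂ →L[ℂ] ℂ × ℂ, HasStrictFDerivAt (Fm τ) F' z := by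
  have h : ContDiffAt ℂ 1 (Fm (m := m) (n := n) τ) z := by
    have h0 := (contDiff_sec (m := m) (n := n) hτ 0).contDiffAt (x := z)
    have h1 := (contDiff_sec (m := m) (n := n) hτ 1).contDiffAt (x := z)
    have h2 := (contDiff_sec (m := m) (n := n) hτ 2).contDiffAt (x := z)
    exact (h1.div h0 hz).prodMk (h2.div h0 hz)
  exact ⟨_, h.hasStrictFDerivAt one_ne_zero⟩

/-- Simple solutions of the special projection are stable. -/
theorem base_local (hτ : 0 < τ.im) (u : Fin 2 → Fin n → ℂ) (C : ℂ) (hm : 1 ≤ m) (x w h : ℂ)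
    (hx : x ≠ 0) (hT0 : lin τ (u 0) w ≠ 0) (hT1 : lin τ (u 1) w = h * lin τ (u 0) w)
    (hsimple : deriv (lin τ (u 1)) w ≠ h * deriv (lin τ (u 0)) w) (hG : x ^ m + C ≠ h) :
    ∃ e : OpenPartialHomeomorph (Mat m n × ℂ × ℂ) (Mat m n × ℂ × ℂ),
      (baseMat m u C, x, w) ∈ e.source ∧ ∀ z, e z = (z.1, Fm τ z) := by
  have hsec : sec τ (baseMat m u C) ![x, 1] w 0 ≠ 0 := by
    rw [sec_base]
    simpa using hT0
  obtain ⟨F', hF'⟩ := hasStrictFDerivAt_Fm hτ (baseMat m u C, x, w) hsec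
  refine local_homeo (Fm τ) _ F' hF' fun y hy => ?_
  -- the partial derivative
  have hd0 : HasDerivAt (lin τ (u 0)) (deriv (lin τ (u 0)) w) w :=
    (differentiable_lin hτ (u 0) w).hasDerivAt
  have hd1 : HasDerivAt (lin τ (u 1)) (deriv (lin τ (u 1)) w) w :=
    (differentiable_lin hτ (u 1) w).hasDerivAt
  set h' : ℂ := (deriv (lin τ (u 1)) w * lin τ (u 0) w - lin τ (u 1) w * deriv (lin τ (u 0)) w)
    / lin τ (u 0) w ^ 2 with hh'
  have hdh : HasDerivAt (fun w => lin τ (u 1) w / lin τ (u 0) w) h' w := hd1.div hd0 hT0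
  have hh'0 : h' ≠ 0 := by
    rw [hh', hT1]
    refine div_ne_zero ?_ (pow_ne_zero 2 hT0)
    have : deriv (lin τ (u 1)) w * lin τ (u 0) w - h * lin τ (u 0) w * deriv (lin τ (u 0)) w
        = lin τ (u 0) w * (deriv (lin τ (u 1)) w - h * deriv (lin τ (u 0)) w) := by ring
    rw [this]
    exact mul_ne_zero hT0 (sub_ne_zero.2 hsimple)
  have hdG : HasDerivAt (fun x : ℂ => x ^ m + C) ((m : ℂ) * x ^ (m - 1)) x :=
    (hasDerivAt_pow m x).add_const C
  have hG'0 : (m : ℂ) * x ^ (m - 1) ≠ 0 :=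
    mul_ne_zero (by exact_mod_cast (by omega : m ≠ 0)) (pow_ne_zero _ hx)
  have hval : lin τ (u 1) w / lin τ (u 0) w = h := by
    rw [hT1]
    field_simp
  have hD1 : HasFDerivAt (fun y : ℂ × ℂ => lin τ (u 1) y.2 / lin τ (u 0) y.2)
      (h' • ContinuousLinearMap.snd ℂ ℂ ℂ) (x, w) := by
    have h2 : HasFDerivAt (Prod.snd : ℂ × ℂ → ℂ) (ContinuousLinearMap.snd ℂ ℂ ℂ) (x, w) :=
      hasFDerivAt_snd
    exact HasDerivAt.comp_hasFDerivAt (x, w) (h₂ := fun w => lin τ (u 1) w / lin τ (u 0) w) hdh h2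
  have hD2 : HasFDerivAt (fun y : ℂ × ℂ => y.1 ^ m + C)
      (((m : ℂ) * x ^ (m - 1)) • ContinuousLinearMap.fst ℂ ℂ ℂ) (x, w) := by
    have h2 : HasFDerivAt (Prod.fst : ℂ × ℂ → ℂ) (ContinuousLinearMap.fst ℂ ℂ ℂ) (x, w) :=
      hasFDerivAt_fst
    exact HasDerivAt.comp_hasFDerivAt (x, w) (h₂ := fun x : ℂ => x ^ m + C) hdG h2
  have hD := (hD1.add hD2).prodMk (hD2.mul hD1)
  have hev : (fun y : ℂ × ℂ => Fm τ (baseMat m u C, y)) =ᶠ[𝓝 (x, w)]
      fun y => (lin τ (u 1) y.2 / lin τ (u 0) y.2 + (y.1 ^ m + C),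
        (y.1 ^ m + C) * (lin τ (u 1) y.2 / lin τ (u 0) y.2)) := by
    have hc : ContinuousAt (fun y : ℂ × ℂ => lin τ (u 0) y.2) (x, w) :=
      ((differentiable_lin hτ (u 0)).continuous.comp continuous_snd).continuousAt
    filter_upwards [hc.eventually_ne hT0] with y hy
    exact Fm_base u C y.1 y.2 hy
  have hcomp : HasFDerivAt (fun y : ℂ × ℂ => Fm τ (baseMat m u C, y))
      (F'.comp (ContinuousLinearMap.inr ℂ (Mat m n) (ℂ × ℂ))) (x, w) := by
    have h1 : HasFDerivAt (fun y : ℂ × ℂ => (baseMat m u C, y))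
        (ContinuousLinearMap.inr ℂ (Mat m n) (ℂ × ℂ)) (x, w) :=
      hasFDerivAt_prodMk_right (baseMat m u C) (x, w)
    exact HasFDerivAt.comp (x, w) hF'.hasFDerivAt h1
  have heq := hcomp.unique (hD.congr_of_eventuallyEq hev)
  have hy' : (F'.comp (ContinuousLinearMap.inr ℂ (Mat m n) (ℂ × ℂ))) y = 0 := by
    simpa using hy
  rw [heq] at hy'
  obtain ⟨a, b⟩ := y
  simp only [ContinuousLinearMap.prod_apply, _root_.add_apply,
    _root_.smul_apply, ContinuousLinearMap.coe_fst', ContinuousLinearMap.coe_snd',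
    smul_eq_mul, Prod.mk_eq_zero, hval] at hy'
  obtain ⟨e1, e2⟩ := hy'
  set g := (m : ℂ) * x ^ (m - 1)
  have hb : b = 0 := by
    have : (x ^ m + C - h) * h' * b = 0 := by linear_combination e2 - h * e1
    rcases mul_eq_zero.1 this with h3 | h3
    · rcases mul_eq_zero.1 h3 with h4 | h4
      · exact absurd (sub_eq_zero.1 h4) hG
      · exact absurd h4 hh'0
    · exact h3
  have ha : a = 0 := by
    rw [hb, mul_zero, zero_add] at e1
    rcases mul_eq_zero.1 e1 with h3 | h3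
    · exact absurd h3 hG'0
    · exact h3
  rw [ha, hb]
  rfl

end Pool.Agent.Gal2c4b12
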