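import Pool.Agent.Lib.MP_2c4b12_ag.H66Lift

/-!
# Galois covers of generic projections of `ℂP¹ × T`: definitions
-/

namespace Pool.Agent.Gal2c4b12

open Complex unitInterval
open scoped LinearAlgebra.Projectivization

/-- The lattice `ℤ + ℤτ`. -/
def lat (τ : ℂ) : AddSubgroup ℂ := AddSubgroup.closure {1, τ}

/-- The complex torus `T = ℂ/(ℤ + ℤτ)`, with the quotient topology. -/
abbrev Tor (τ : ℂ) : Type := ℂ ⧸ lat τ

/-- The surface `ℂP¹ × T` (quotient topology on `ℂP¹`, see `projTop`). -/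
abbrev Sur (τ : ℂ) : Type := ℙ ℂ (Fin 2 → ℂ) × Tor τ

/-- The `n` classical theta functions of degree `n` on `ℂ/(ℤ + ℤτ)`,
`θ_{n,k}(w) = ∑_j exp (πi n τ (j + k/n)² + 2πi n (j + k/n) w)`. They are the homogeneous
coordinates of the embedding of `T` as an elliptic normal curve of degree `n` (`n ≥ 3`). -/
noncomputable def th (n : ℕ) (τ : ℂ) (k : Fin n) (w : ℂ) : ℂ :=
  ∑' j : ℤ, exp (Real.pi * Complex.I * n * τ * (j + (k : ℕ) / n) ^ 2
    + 2 * Real.pi * Complex.I * n * (j + (k : ℕ) / n) * w)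

/-- Homogeneous coordinates `X₀^i X₁^(m-i) θ_{n,k}(w)` of the embedding
`ℂP¹ × T → ℂP^(mn+n-1)` (rational normal curve times elliptic normal curve, Segre). -/
noncomputable def emb (m n : ℕ) (τ : ℂ) (X : Fin 2 → ℂ) (w : ℂ) (i : Fin (m + 1)) (k : Fin n) : ℂ :=
  X 0 ^ (i : ℕ) * X 1 ^ (m - (i : ℕ)) * th n τ k w

/-- `3 × (m+1)n` matrices: the linear projections `ℂP^(mn+n-1) ⇢ ℂP²`. -/
abbrev Mat (m n : ℕ) : Type := Fin 3 → Fin (m + 1) → Fin n → ℂ

/-- The homogeneous coordinates of the projection of a point of the surface. -/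
noncomputable def sec {m n : ℕ} (τ : ℂ) (A : Mat m n) (X : Fin 2 → ℂ) (w : ℂ) : Fin 3 → ℂ :=
  fun r => ∑ i, ∑ k, A r i k * emb m n τ X w i k

/-- The centre of the projection does not meet the surface. -/
def CentreFree {m n : ℕ} (τ : ℂ) (A : Mat m n) : Prop := ∀ X w, X ≠ 0 → sec τ A X w ≠ 0

/-- The projection as a map `ℂP¹ × T → ℂP²`. -/
noncomputable def projMap {m n : ℕ} (τ : ℂ) (A : Mat m n) (hA : CentreFree τ A) (x : Sur τ) :
    ℙ ℂ (Fin 3 → ℂ) :=
  Projectivization.mk ℂ (sec τ A x.1.rep x.2.out) (hA _ _ x.1.rep_nonzero)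

/-- The Galois cover: the closure, in the `2mn`-fold product of the surface, of the set of
`2mn`-tuples of distinct points with the same projection. -/
def galCover {m n : ℕ} (τ : ℂ) (A : Mat m n) (hA : CentreFree τ A) :
    Set (Fin (2 * m * n) → Sur τ) :=
  closure {x | Function.Injective x ∧ ∀ i j, projMap τ A hA (x i) = projMap τ A hA (x j)}

/-- A section of degree `n`, given by its coefficients in the basis `θ_{n,k}`. -/
noncomputable def lin {n : ℕ} (τ : ℂ) (u : Fin n → ℂ) (w : ℂ) : ℂ := ∑ k, u k * th n τ k w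

/-- The one-dimensional input: two sections `T₀ = lin u₀`, `T₁ = lin u₁` of degree `n` without
common zeros, two loops `p 0`, `p 1` of values of `T₁/T₀` with the same base point, `n` distinct
simple solutions `w c j t` of `T₁ = p T₀` along these loops, and a value `q` off the loops with
`n` distinct simple solutions `v j`. The solution `w 0 j` moves by `ε j`, the solution `w 1 j`
by `ε j * τ`. -/
structure Pencil (n : ℕ) (τ : ℂ) where
  u : Fin 2 → Fin n → ℂ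
  nocommon : ∀ w, lin τ (u 0) w ≠ 0 ∨ lin τ (u 1) w ≠ 0
  p : Fin 2 → C(I, ℂ)
  p_base : p 0 0 = p 1 0
  p_closed : ∀ c, p c 1 = p c 0
  w : Fin 2 → Fin n → C(I, ℂ)
  w_eq : ∀ c j t, lin τ (u 1) (w c j t) = p c t * lin τ (u 0) (w c j t)
  w_ne : ∀ c j t, lin τ (u 0) (w c j t) ≠ 0
  w_simple : ∀ c j t, deriv (lin τ (u 1)) (w c j t) ≠ p c t * deriv (lin τ (u 0)) (w c j t)
  w_dist : ∀ c t j j', j ≠ j' → w c j t - w c j' t ∉ lat τ
  w_start : ∀ j, w 0 j 0 = w 1 j 0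
  ε : Fin n → ℤ
  w_end0 : ∀ j, w 0 j 1 = w 0 j 0 + ε j
  w_end1 : ∀ j, w 1 j 1 = w 1 j 0 + ε j * τ
  j₀ : Fin n
  ε_j₀ : ε j₀ = 1
  q : ℂ
  q_ne : ∀ c t, p c t ≠ q
  v : Fin n → ℂ
  v_eq : ∀ j, lin τ (u 1) (v j) = q * lin τ (u 0) (v j)
  v_ne : ∀ j, lin τ (u 0) (v j) ≠ 0
  v_simple : ∀ j, deriv (lin τ (u 1)) (v j) ≠ q * deriv (lin τ (u 0)) (v j)
  v_dist : ∀ j j', j ≠ j' → v j - v j' ∉ lat τ

end Pool.Agent.Gal2c4b12
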