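import Mathlib

/-!
# Lifting maps into projective space, logarithms along paths

* `projTop`: the quotient topology on `ℙ ℂ (Fin n → ℂ)`.
* `exists_lift_proj`: a continuous map from a square (more generally from `Y × I` with a lift at
  `0`) to projective space lifts to a continuous nowhere zero vector function.
* `logVar`: the variation of the logarithm of a nonvanishing continuous function on `[0,1]`.
-/

namespace Pool.Agent.Gal2c4b12

open Topology unitInterval Complex
open scoped LinearAlgebra.Projectivization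

/-- Nonzero vectors. -/
abbrev NZ (n : ℕ) := {v : Fin n → ℂ // v ≠ 0}

/-- The quotient topology on projective space. -/
noncomputable instance projTop (n : ℕ) : TopologicalSpace (ℙ ℂ (Fin n → ℂ)) :=
  TopologicalSpace.coinduced (Projectivization.mk' ℂ (V := Fin n → ℂ)) inferInstance

variable {n : ℕ}

/-- squared hermitian norm -/
noncomputable def hn (v : Fin n → ℂ) : ℂ := ∑ i, (starRingEnd ℂ) (v i) * v i

lemma hn_eq (v : Fin n → ℂ) : hn v = ((∑ i, Complex.normSq (v i) : ℝ) : ℂ) := by
  simp [hn, Complex.normSq_eq_conj_mul_self]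

lemma hn_ne {v : Fin n → ℂ} (hv : v ≠ 0) : hn v ≠ 0 := by
  rw [hn_eq]
  obtain ⟨i, hi⟩ : ∃ i, v i ≠ 0 := by
    by_contra h
    push Not at h
    exact hv (funext h)
  have : 0 < ∑ i, Complex.normSq (v i) :=
    Finset.sum_pos' (fun i _ => Complex.normSq_nonneg _) ⟨i, Finset.mem_univ _,
      Complex.normSq_pos.2 hi⟩
  exact_mod_cast this.ne'

/-- The matrix entry of the orthogonal projection onto the line of `v`. -/
noncomputable def pm (v : Fin n → ℂ) (i j : Fin n) : ℂ := v i * (starRingEnd ℂ) (v j) / hn v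

lemma pm_smul (c : ℂ) (hc : c ≠ 0) (v : Fin n → ℂ) : pm (c • v) = pm v := by
  funext i j
  unfold pm hn
  simp only [Pi.smul_apply, smul_eq_mul, map_mul]
  have h1 : ∑ x, (starRingEnd ℂ) c * (starRingEnd ℂ) (v x) * (c * v x)
      = ((starRingEnd ℂ) c * c) * ∑ x, (starRingEnd ℂ) (v x) * v x := by
    rw [Finset.mul_sum]
    exact Finset.sum_congr rfl (fun x _ => by ring)
  rw [h1]
  have hc' : (starRingEnd ℂ) c ≠ 0 := (map_ne_zero _).2 hc
  by_cases h : ∑ x, (starRingEnd ℂ) (v x) * v x = 0
  · simp [h]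
  · field_simp

/-- apply the projection -/
noncomputable def pa (v u : Fin n → ℂ) : Fin n → ℂ := fun i => ∑ j, pm v i j * u j

lemma pa_eq (v u : Fin n → ℂ) : pa v u = ((∑ j, (starRingEnd ℂ) (v j) * u j) / hn v) • v := by
  funext i
  simp only [pa, pm, Pi.smul_apply, smul_eq_mul]
  rw [div_mul_eq_mul_div, Finset.sum_mul, Finset.sum_div]
  exact Finset.sum_congr rfl (fun j _ => by ring)

lemma pa_self {v : Fin n → ℂ} (hv : v ≠ 0) (c : ℂ) : pa v (c • v) = c • v := by
  rw [pa_eq]
  congr 1
  have : ∑ j, (starRingEnd ℂ) (v j) * (c • v) j = c * hn v := by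
    rw [hn, Finset.mul_sum]
    exact Finset.sum_congr rfl (fun j _ => by simp; ring)
  rw [this, mul_div_assoc, div_self (hn_ne hv), mul_one]

/-- The projection matrix as a function on projective space. -/
noncomputable def pmP (p : ℙ ℂ (Fin n → ℂ)) : Fin n → Fin n → ℂ := pm p.rep

lemma pmP_mk (v : Fin n → ℂ) (hv : v ≠ 0) : pmP (Projectivization.mk ℂ v hv) = pm v := by
  unfold pmP
  obtain ⟨a, ha⟩ := Projectivization.exists_smul_eq_mk_rep ℂ v hv
  rw [← ha]
  exact pm_smul (a : ℂ) a.ne_zero v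

lemma continuous_mk' : Continuous (Projectivization.mk' ℂ (V := Fin n → ℂ)) :=
  continuous_coinduced_rng

lemma continuous_pm : Continuous (fun v : NZ n => pm v.1) := by
  refine continuous_pi fun i => continuous_pi fun j => ?_
  unfold pm hn
  have hc : ∀ i : Fin n, Continuous fun v : NZ n => v.1 i := fun i =>
    (continuous_apply i).comp continuous_subtype_val
  have hs : ∀ i : Fin n, Continuous fun v : NZ n => (starRingEnd ℂ) (v.1 i) := fun i =>
    Complex.continuous_conj.comp (hc i)
  refine Continuous.div ((hc i).mul (hs j)) ?_ (fun v => hn_ne v.2)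
  exact continuous_finsetSum _ fun i _ => (hs i).mul (hc i)

lemma continuous_pmP : Continuous (pmP (n := n)) := by
  refine continuous_coinduced_dom.2 ?_
  have : (pmP (n := n)) ∘ (Projectivization.mk' ℂ) = fun v : NZ n => pm v.1 := by
    funext v
    simp only [Function.comp]
    rw [Projectivization.mk'_eq_mk]
    exact pmP_mk _ _
  rw [this]
  exact continuous_pm

/-- `u` lies on the line `p`. -/
def OnLine (p : ℙ ℂ (Fin n → ℂ)) (u : Fin n → ℂ) : Prop := ∃ h : u ≠ 0, Projectivization.mk ℂ u h = p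

/-- Apply the projection of a point of projective space. -/
noncomputable def paP (p : ℙ ℂ (Fin n → ℂ)) (u : Fin n → ℂ) : Fin n → ℂ :=
  fun i => ∑ j, pmP p i j * u j

lemma paP_mk (v : Fin n → ℂ) (hv : v ≠ 0) (u : Fin n → ℂ) :
    paP (Projectivization.mk ℂ v hv) u = pa v u := by
  unfold paP pa
  rw [pmP_mk]

lemma paP_onLine {p : ℙ ℂ (Fin n → ℂ)} {u : Fin n → ℂ} (h : OnLine p u) : paP p u = u := by
  obtain ⟨hu, rfl⟩ := h
  rw [paP_mk]
  simpa using pa_self hu 1

lemma onLine_paP {p : ℙ ℂ (Fin n → ℂ)} {u : Fin n → ℂ} (h : paP p u ≠ 0) : OnLine p (paP p u) := by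
  induction p using Projectivization.ind with
  | h v hv =>
    rw [paP_mk, pa_eq] at h ⊢
    refine ⟨h, ?_⟩
    have hc : (∑ j, (starRingEnd ℂ) (v j) * u j) / hn v ≠ 0 := by
      intro h0
      rw [h0, zero_smul] at h
      exact h rfl
    rw [Projectivization.mk_eq_mk_iff]
    exact ⟨Units.mk0 _ hc, rfl⟩

lemma paP_sub_norm (p q : ℙ ℂ (Fin n → ℂ)) (u : Fin n → ℂ) :
    ‖paP p u - paP q u‖ ≤ n * (‖pmP p - pmP q‖ * ‖u‖) := by
  refine (pi_norm_le_iff_of_nonneg (by positivity)).2 fun i => ?_
  simp only [paP, Pi.sub_apply]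
  rw [← Finset.sum_sub_distrib]
  refine (norm_sum_le _ _).trans ?_
  have : ∀ j ∈ (Finset.univ : Finset (Fin n)),
      ‖pmP p i j * u j - pmP q i j * u j‖ ≤ ‖pmP p - pmP q‖ * ‖u‖ := by
    intro j _
    rw [← sub_mul, norm_mul]
    refine mul_le_mul ?_ (norm_le_pi_norm u j) (norm_nonneg _) (norm_nonneg _)
    refine le_trans ?_ (norm_le_pi_norm (pmP p - pmP q) i)
    exact norm_le_pi_norm ((pmP p - pmP q) i) j
  refine (Finset.sum_le_sum this).trans ?_
  simp

/-- One step of discrete parallel transport does not vanish. -/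
lemma step_ne {p q : ℙ ℂ (Fin n → ℂ)} {u : Fin n → ℂ} (h : OnLine p u)
    (hpq : n * ‖pmP q - pmP p‖ < 1) : paP q u ≠ 0 := by
  intro h0
  have h1 := paP_sub_norm q p u
  rw [h0, paP_onLine h, zero_sub, norm_neg, ← mul_assoc] at h1
  have hu : 0 < ‖u‖ := norm_pos_iff.2 h.1
  nlinarith

variable {Y : Type*} [TopologicalSpace Y] [CompactSpace Y]

/-- Lifting a homotopy in projective space with a given lift at time `0`. -/
theorem exists_lift_homotopy (H : C(Y × I, ℙ ℂ (Fin n → ℂ))) (g : C(Y, Fin n → ℂ))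
    (hg : ∀ y, OnLine (H (y, 0)) (g y)) :
    ∃ G : C(Y × I, Fin n → ℂ), (∀ z, OnLine (H z) (G z)) := by
  -- uniform step size
  obtain ⟨N, hN⟩ : ∃ N : ℕ, 0 < N ∧ ∀ y : Y, ∀ t t' : I, |(t : ℝ) - t'| ≤ 1 / N →
      n * ‖pmP (H (y, t)) - pmP (H (y, t'))‖ < 1 := by
    have hcont : Continuous (fun z : Y × I × I =>
        (n : ℝ) * ‖pmP (H (z.1, z.2.1)) - pmP (H (z.1, z.2.2))‖) := by
      have := continuous_pmP (n := n)
      fun_prop
    by_contra hcon
    push Not at hcon
    -- closed sets K N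
    let K : ℕ → Set (Y × I × I) := fun N => {z | |(z.2.1 : ℝ) - z.2.2| ≤ 1 / (N + 1 : ℝ) ∧
      1 ≤ n * ‖pmP (H (z.1, z.2.1)) - pmP (H (z.1, z.2.2))‖}
    have hKc : ∀ N, IsClosed (K N) := fun N =>
      have h1 : IsClosed {z : Y × I × I | |(z.2.1 : ℝ) - z.2.2| ≤ 1 / (N + 1 : ℝ)} :=
        isClosed_le (by fun_prop) continuous_const
      h1.inter (isClosed_le continuous_const hcont)
    have hKn : ∀ N, (K N).Nonempty := by
      intro N
      obtain ⟨y, t, t', h1, h2⟩ := hcon (N + 1) (Nat.succ_pos _)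
      exact ⟨(y, t, t'), by simpa using h1, h2⟩
    have hKm : ∀ N, K (N + 1) ⊆ K N := by
      rintro N z ⟨h1, h2⟩
      refine ⟨h1.trans ?_, h2⟩
      apply one_div_le_one_div_of_le
      · positivity
      · push_cast; linarith
    have := IsCompact.nonempty_iInter_of_sequence_nonempty_isCompact_isClosed K hKm hKn
      (hKc 0).isCompact hKc
    obtain ⟨⟨y, t, t'⟩, hz⟩ := this
    rw [Set.mem_iInter] at hz
    have htt : (t : ℝ) = t' := by
      have h1 : ∀ N : ℕ, |(t : ℝ) - t'| ≤ 1 / (N + 1 : ℝ) := fun N => (hz N).1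
      have h2 : |(t : ℝ) - t'| ≤ 0 :=
        ge_of_tendsto' tendsto_one_div_add_atTop_nhds_zero_nat h1
      have := abs_eq_zero.1 (le_antisymm h2 (abs_nonneg _))
      linarith
    have htt' : t = t' := Subtype.ext htt
    have h3 := (hz 0).2
    simp only at h3
    rw [htt', sub_self, norm_zero, mul_zero] at h3
    linarith
  obtain ⟨hN0, hN⟩ := hN
  have hNr : (0 : ℝ) < N := by exact_mod_cast hN0
  -- truncation
  let tr : ℕ → I → I := fun k t => min t (Set.projIcc 0 1 zero_le_one ((k : ℝ) / N))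
  have htrc : ∀ k, Continuous (tr k) := fun k => by
    change Continuous fun t : I => min t _
    fun_prop
  have htr : ∀ k t, |((tr (k + 1) t : I) : ℝ) - (tr k t : I)| ≤ 1 / N := by
    intro k t
    have h1 : ∀ k : ℕ, ((tr k t : I) : ℝ) = min (t : ℝ) (max 0 (min 1 ((k : ℝ) / N))) := by
      intro k
      simp only [tr]
      rcases le_total t (Set.projIcc 0 1 zero_le_one ((k : ℝ) / N)) with h | h
      · rw [min_eq_left h, min_eq_left]
        exact_mod_cast h
      · rw [min_eq_right h, min_eq_right]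
        · rfl
        · exact_mod_cast h
    rw [h1, h1]
    have h2 : ((k + 1 : ℕ) : ℝ) / N = (k : ℝ) / N + 1 / N := by push_cast; ring
    rw [h2]
    have h3 : |max 0 (min 1 ((k : ℝ) / N + 1 / N)) - max 0 (min 1 ((k : ℝ) / N))| ≤ 1 / N := by
      refine (abs_max_sub_max_le_max _ _ _ _).trans ?_
      rw [sub_self, abs_zero]
      refine max_le (by positivity) ?_
      refine (abs_min_sub_min_le_max _ _ _ _).trans ?_
      rw [sub_self, abs_zero]
      refine max_le (by positivity) ?_
      rw [add_sub_cancel_left, abs_of_pos (by positivity)]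
    refine (abs_min_sub_min_le_max _ _ _ _).trans ?_
    rw [sub_self, abs_zero]
    exact max_le (by positivity) h3
  have htr0 : ∀ t, tr 0 t = 0 := by
    intro t
    simp only [tr]
    rw [show ((0 : ℕ) : ℝ) / N = 0 by simp]
    rw [Set.projIcc_left]
    exact min_eq_right t.2.1
  have htrN : ∀ t, tr N t = t := by
    intro t
    simp only [tr]
    rw [div_self hNr.ne', Set.projIcc_right]
    exact min_eq_left t.2.2
  -- induction
  have key : ∀ k : ℕ, ∃ G : C(Y × I, Fin n → ℂ), ∀ z, OnLine (H (z.1, tr k z.2)) (G z) := by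
    intro k
    induction k with
    | zero =>
      refine ⟨g.comp ⟨Prod.fst, continuous_fst⟩, fun z => ?_⟩
      rw [htr0]
      exact hg z.1
    | succ k ih =>
      obtain ⟨G, hG⟩ := ih
      have hc : Continuous (fun z : Y × I => paP (H (z.1, tr (k + 1) z.2)) (G z)) := by
        refine continuous_pi fun i => ?_
        unfold paP
        refine continuous_finsetSum _ fun j _ => ?_
        have h1 := continuous_pmP (n := n)
        have h2 := htrc (k + 1)
        have h3 : Continuous fun z : Y × I => pmP (H (z.1, tr (k + 1) z.2)) :=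
          h1.comp (H.continuous.comp (continuous_fst.prodMk (h2.comp continuous_snd)))
        exact ((continuous_apply j).comp ((continuous_apply i).comp h3)).mul
          ((continuous_apply j).comp G.continuous)
      refine ⟨⟨_, hc⟩, fun z => ?_⟩
      simp only [ContinuousMap.coe_mk]
      exact onLine_paP (step_ne (hG z) (hN z.1 _ _ (htr k z.2)))
  obtain ⟨G, hG⟩ := key N
  refine ⟨G, fun z => ?_⟩
  have := hG z
  rwa [htrN] at this

/-- Every continuous map from the square to projective space lifts to nonzero vectors. -/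
theorem exists_lift_square (F : C(I × I, ℙ ℂ (Fin n → ℂ))) :
    ∃ G : C(I × I, Fin n → ℂ), ∀ z, OnLine (F z) (G z) := by
  let H : C((I × I) × I, ℙ ℂ (Fin n → ℂ)) :=
    ⟨fun z => F (z.2 * z.1.1, z.2 * z.1.2), by fun_prop⟩
  obtain ⟨G, hG⟩ := exists_lift_homotopy H (ContinuousMap.const _ (F (0, 0)).rep) (fun y => by
    refine ⟨(F (0, 0)).rep_nonzero, ?_⟩
    simp only [H, ContinuousMap.coe_mk, zero_mul]
    exact Projectivization.mk_rep _)
  refine ⟨⟨fun z => G (z, 1), by fun_prop⟩, fun z => ?_⟩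
  have := hG (z, 1)
  simpa [H] using this

end Pool.Agent.Gal2c4b12
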