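import Pool.Agent.Lib.MP_2c4b12_ag.H66NonComm

/-!
# Non-abelian fundamental groups for all projections near the special one
-/

namespace Pool.Agent.Gal2c4b12

open Complex unitInterval Filter Topology Set
open scoped LinearAlgebra.Projectivization

variable {m n : ℕ} {τ : ℂ}

/-- Every point of `ℂ` is congruent modulo the lattice to a point of a fixed compact set. -/
lemma exists_fund (hτ : 0 < τ.im) (w : ℂ) :
    ∃ z : ℝ × ℝ, z ∈ Icc (0 : ℝ) 1 ×ˢ Icc (0 : ℝ) 1 ∧ ∃ a b : ℤ,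
      w = ((z.1 : ℂ) + z.2 * τ) + (a + b * τ) := by
  set y : ℝ := w.im / τ.im
  set x : ℝ := w.re - y * τ.re
  refine ⟨(Int.fract x, Int.fract y), ⟨⟨Int.fract_nonneg _, (Int.fract_lt_one _).le⟩,
    ⟨Int.fract_nonneg _, (Int.fract_lt_one _).le⟩⟩, ⌊x⌋, ⌊y⌋, ?_⟩
  have hx : (Int.fract x : ℝ) + ⌊x⌋ = x := Int.fract_add_floor x
  have hy : (Int.fract y : ℝ) + ⌊y⌋ = y := Int.fract_add_floor y
  have him : y * τ.im = w.im := by
    simp only [y]
    field_simp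
  have e1 : ((Int.fract x : ℝ) : ℂ) + ((Int.fract y : ℝ) : ℂ) * τ + (⌊x⌋ + ⌊y⌋ * τ)
      = (x : ℂ) + y * τ := by
    have hx' : ((Int.fract x : ℝ) : ℂ) + ((⌊x⌋ : ℤ) : ℂ) = x := by exact_mod_cast hx
    have hy' : ((Int.fract y : ℝ) : ℂ) + ((⌊y⌋ : ℤ) : ℂ) = y := by exact_mod_cast hy
    rw [← hx', ← hy']
    ring
  rw [e1]
  apply Complex.ext
  · simp [x]
  · simp [him]

/-- Being away from the centre is an open condition. -/
theorem centreFree_near (hτ : 0 < τ.im) (A₀ : Mat m n) (h₀ : CentreFree τ A₀) :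
    ∀ᶠ A in 𝓝 A₀, CentreFree τ A := by
  let Kc : Set ((Fin 2 → ℂ) × ℝ × ℝ) := Metric.sphere 0 1 ×ˢ (Icc (0 : ℝ) 1 ×ˢ Icc (0 : ℝ) 1)
  have hKc : IsCompact Kc := (isCompact_sphere 0 1).prod (isCompact_Icc.prod isCompact_Icc)
  have hcont : Continuous fun z : Mat m n × ((Fin 2 → ℂ) × ℝ × ℝ) =>
      sec τ z.1 z.2.1 ((z.2.2.1 : ℂ) + z.2.2.2 * τ) := by
    have h := continuous_sec (m := m) (n := n) hτ
    exact h.comp (by fun_prop : Continuous fun z : Mat m n × ((Fin 2 → ℂ) × ℝ × ℝ) =>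
      ((z.1, z.2.1, (z.2.2.1 : ℂ) + z.2.2.2 * τ) : Mat m n × (Fin 2 → ℂ) × ℂ))
  have h1 := hKc.eventually_forall_of_forall_eventually (x₀ := A₀)
    (P := fun A z => sec τ A z.1 ((z.2.1 : ℂ) + z.2.2 * τ) ≠ 0) (fun z hz => by
      have hz0 : z.1 ≠ 0 := by
        intro h
        have := hz.1
        rw [h] at this
        simp at this
      exact hcont.continuousAt.eventually_ne (h₀ _ _ hz0))
  filter_upwards [h1] with A hA X w hX
  obtain ⟨z, hz, a, b, hw⟩ := exists_fund hτ w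
  have hn : (‖X‖ : ℂ) ≠ 0 := by
    exact_mod_cast (norm_pos_iff.2 hX).ne'
  have hX' : X = (‖X‖ : ℂ) • ((‖X‖ : ℂ)⁻¹ • X) := by
    rw [smul_smul, mul_inv_cancel₀ hn, one_smul]
  have hs : ((‖X‖ : ℂ)⁻¹ • X) ∈ Metric.sphere (0 : Fin 2 → ℂ) 1 := by
    rw [mem_sphere_zero_iff_norm, norm_smul, norm_inv, Complex.norm_real, norm_norm,
      inv_mul_cancel₀ (norm_pos_iff.2 hX).ne']
  rw [hw, sec_add_lat, hX', sec_smul]
  refine smul_ne_zero (aut_ne _ _ _ _) (smul_ne_zero (pow_ne_zero _ hn) ?_)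
  exact hA ((‖X‖ : ℂ)⁻¹ • X, z) ⟨hs, hz⟩

/-- A nonempty open set of matrices is not contained in the zero set of a nonzero polynomial. -/
theorem open_meets (U : Set (Mat m n)) (hU : IsOpen U) (hne : U.Nonempty)
    (P : MvPolynomial (Fin 3 × Fin (m + 1) × Fin n) ℂ) (hP : P ≠ 0) :
    ∃ A ∈ U, MvPolynomial.eval (fun z => A z.1 z.2.1 z.2.2) P ≠ 0 := by
  by_contra hcon
  push Not at hcon
  obtain ⟨A₀, hA₀⟩ := hne
  obtain ⟨r, hr, hball⟩ := Metric.isOpen_iff.1 hU A₀ hA₀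
  apply hP
  have := MvPolynomial.funext_set (p := P) (q := 0)
    (fun z : Fin 3 × Fin (m + 1) × Fin n => Metric.ball (A₀ z.1 z.2.1 z.2.2) r)
    (fun z => by
      refine Set.Infinite.mono (s := (fun x : ℝ => A₀ z.1 z.2.1 z.2.2 + x) '' Ioo 0 r) ?_ ?_
      · rintro _ ⟨x, hx, rfl⟩
        rw [Metric.mem_ball, dist_eq_norm, add_sub_cancel_left, Complex.norm_real, Real.norm_eq_abs,
          abs_of_pos hx.1]
        exact hx.2
      · refine Set.Infinite.image ?_ (Ioo_infinite hr)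
        intro x _ y _ h
        simpa using h)
    (fun x hx => by
      rw [map_zero]
      refine hcon (fun i j k => x (i, j, k)) (hball ?_)
      rw [Metric.mem_ball, dist_pi_lt_iff hr]
      intro i
      rw [dist_pi_lt_iff hr]
      intro j
      rw [dist_pi_lt_iff hr]
      intro k
      exact hx (i, j, k) (mem_univ _))
  exact this

/-- Main theorem, given a pencil. -/
theorem main_of_pencil (hτ : 0 < τ.im) (D : Pencil n τ) (hm : 1 ≤ m) (hmn : ¬ m ∣ n) :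
    ∃ U : Set (Mat m n), IsOpen U ∧ U.Nonempty ∧ ∀ A ∈ U, ∃ hA : CentreFree τ A,
      ∃ x : galCover τ A hA, ∃ a b : FundamentalGroup (galCover τ A hA) x, a * b ≠ b * a := by
  obtain ⟨C, ⟨B⟩⟩ := exists_baseData (m := m) hτ D hm
  have h1 := sheets_of_baseData hτ B
  have h2 := centreFree_near hτ (baseMat m D.u C) (centreFree_base D.u C hm D.nocommon)
  obtain ⟨U, hU, hUo, hmem⟩ := mem_nhds_iff.1 (h1.and h2)
  refine ⟨U, hUo, ⟨_, hmem⟩, fun A hA => ?_⟩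
  obtain ⟨⟨S⟩, hcf⟩ := hU hA
  refine ⟨hcf, ?_⟩
  have hm' : 0 < m := hm
  refine noncomm_of_sheets hτ A hcf S (0, ⟨0, hm'⟩, D.j₀) (1, ⟨0, hm'⟩, D.j₀) ?_ ?_ hmn
  · simp [epsJ, D.ε_j₀]
  · simp [epsJ]

end Pool.Agent.Gal2c4b12
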