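import Pool.Agent.Lib.MP_2c4b12_ag.H66Top

/-!
# Two loops of sheets which do not commute in the fundamental group of the Galois cover
-/

namespace Pool.Agent.Gal2c4b12

open Complex unitInterval Filter Topology Set
open scoped LinearAlgebra.Projectivization

variable {m n : ℕ} {τ : ℂ}

/-- Translate of the path `q` starting at the end point of `p`. -/
noncomputable def shiftP {y₀ y₁ y₂ : ℂ × ℂ} (_p : Path y₀ y₁) (q : Path y₀ y₂) : Path y₁ (y₂ + (y₁ - y₀)) where
  toFun t := q t + (y₁ - y₀)
  source' := by simp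
  target' := by simp

lemma shiftP_apply {y₀ y₁ y₂ : ℂ × ℂ} (p : Path y₀ y₁) (q : Path y₀ y₂) (t : I) :
    shiftP p q t = q t + (y₁ - y₀) := rfl

lemma lv_trans {a b c : ℂ} (p : Path a b) (q : Path b c) (hp : ∀ t, p t ≠ 0) (hq : ∀ t, q t ≠ 0) :
    lv (p.trans q).toContinuousMap = lv p.toContinuousMap + lv q.toContinuousMap := by
  obtain ⟨L, hL⟩ := exists_log_path p.toContinuousMap hp
  obtain ⟨M, hM⟩ := exists_log_path q.toContinuousMap hq
  have hL' : ∀ t, exp (L t) = p t := hL
  have hM' : ∀ t, exp (M t) = q t := hM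
  let P : Path (L 0) (L 1) := ⟨L, rfl, rfl⟩
  let Q : Path (L 1) (M 1 + (L 1 - M 0)) := ⟨⟨fun t => M t + (L 1 - M 0), by fun_prop⟩,
    by simp, rfl⟩
  have hQ : ∀ t, exp (Q t) = q t := by
    intro t
    change exp (M t + (L 1 - M 0)) = q t
    rw [exp_add, exp_sub, hM', hL', hM']
    simp only [Path.target, Path.source]
    have hb : b ≠ 0 := by
      have := hq 0
      simpa using this
    rw [div_self hb, mul_one]
  have h : ∀ t, exp ((P.trans Q) t) = (p.trans q) t := by
    intro t
    rw [Path.trans_apply, Path.trans_apply]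
    split_ifs with h
    · exact hL' _
    · exact hQ _
  rw [lv_eq (P.trans Q).toContinuousMap h, lv_eq L hL, lv_eq M hM]
  change (P.trans Q) 1 - (P.trans Q) 0 = _
  rw [Path.target, Path.source]
  ring

/-- A coordinate of the section in the affine chart. -/
noncomputable def sg (τ : ℂ) (A : Mat m n) (y : ℂ × ℂ) : ℂ := sec τ A ![y.1, 1] y.2 0

lemma continuous_sg (hτ : 0 < τ.im) (A : Mat m n) : Continuous (sg τ A) := by
  have h := (contDiff_sec (m := m) (n := n) hτ 0).continuous
  exact h.comp (by fun_prop : Continuous fun y : ℂ × ℂ => (A, y))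

lemma sg_add (A : Mat m n) (y : ℂ × ℂ) (a b : ℤ) :
    sg τ A (y + (0, a + b * τ)) = aut n τ b y.2 * sg τ A y := by
  unfold sg
  simp only [Prod.fst_add, add_zero, Prod.snd_add, sec_add_lat, Pi.smul_apply, smul_eq_mul]

/-- The variation of the section along a translated path. -/
lemma lv_shift (hτ : 0 < τ.im) (A : Mat m n) {y₀ y₁ y₂ : ℂ × ℂ} (p : Path y₀ y₁) (q : Path y₀ y₂)
    (a b : ℤ) (hδ : y₁ - y₀ = (0, a + b * τ)) (hq : ∀ t, sg τ A (q t) ≠ 0) :
    lv ((shiftP p q).map (continuous_sg hτ A)).toContinuousMap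
      = lv (q.map (continuous_sg hτ A)).toContinuousMap
        - 2 * Real.pi * Complex.I * n * b * (y₂.2 - y₀.2) := by
  let E : C(I, ℂ) := ⟨fun t => aut n τ b (q t).2, by
    unfold aut
    fun_prop⟩
  let LE : C(I, ℂ) := ⟨fun t => -(Real.pi * Complex.I * n * (2 * b * (q t).2 + b ^ 2 * τ)),
    by fun_prop⟩
  have hE : ∀ t, exp (LE t) = E t := fun t => rfl
  have h1 : ((shiftP p q).map (continuous_sg hτ A)).toContinuousMap
      = E * (q.map (continuous_sg hτ A)).toContinuousMap := by
    ext t
    change sg τ A (q t + (y₁ - y₀)) = aut n τ b (q t).2 * sg τ A (q t)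
    rw [hδ, sg_add]
  rw [h1, lv_mul (fun t => aut_ne _ _ _ _) (fun t => hq t), lv_eq LE hE]
  change -(Real.pi * Complex.I * n * (2 * b * (q 1).2 + b ^ 2 * τ))
    - -(Real.pi * Complex.I * n * (2 * b * (q 0).2 + b ^ 2 * τ)) + _ = _
  rw [q.source, q.target]
  ring

lemma covOn (hτ : 0 < τ.im) : IsCoveringMapOn (QuotientAddGroup.mk : ℂ → Tor τ) univ :=
  isCoveringMap_iff_isCoveringMapOn_univ.1 (isCoveringMap_tor hτ)

theorem noncomm_of_sheets (hτ : 0 < τ.im) (A : Mat m n) (hA : CentreFree τ A)
    {ε : Idx m n → ℤ} (S : Sheets τ A ε) (J₀ J₁ : Idx m n) (h₀ : ε J₀ = 1) (h₁ : ε J₁ = 0)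
    (hmn : ¬ m ∣ n) :
    ∃ x : galCover τ A hA, ∃ a b : FundamentalGroup (galCover τ A hA) x, a * b ≠ b * a := by
  classical
  -- the index bijection
  have hcard : Fintype.card (Idx m n) = 2 * m * n := by
    simp [Idx, mul_assoc]
  let e : Fin (2 * m * n) ≃ Idx m n := (Fintype.equivFinOfCardEq hcard).symm
  have hmem : ∀ c t, (fun i => pt τ (S.y c (e i) t)) ∈ galCover τ A hA := by
    intro c t
    refine subset_closure ⟨?_, fun i j => ?_⟩
    · intro i j hij
      by_contra hne
      have hJ : e i ≠ e j := fun h => hne (e.injective h)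
      have h := pt_eq_iff.1 hij
      rcases S.dist c t _ _ hJ with h1 | h1
      · exact h1 h.1
      · exact h1 h.2
    · exact projMap_pt A hA (S.ne c _ t) (S.ne c _ t) (S.same c _ _ t)
  have hlat : ∀ c (J : Idx m n), ∃ a b : ℤ, (ε J * ![1, τ] c : ℂ) = a + b * τ := by
    intro c J
    fin_cases c
    · exact ⟨ε J, 0, by simp⟩
    · exact ⟨0, ε J, by simp⟩
  have hst : ∀ c J, S.y c J 0 = S.y 0 J 0 := by
    intro c J
    fin_cases c
    · rfl
    · exact (S.start J).symm
  let x₀ : galCover τ A hA := ⟨fun i => pt τ (S.y 0 (e i) 0), hmem 0 0⟩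
  let P : Fin 2 → Path x₀ x₀ := fun c =>
    { toFun := fun t => ⟨fun i => pt τ (S.y c (e i) t), hmem c t⟩
      continuous_toFun := by
        refine Continuous.subtype_mk ?_ _
        exact continuous_pi fun i => continuous_pt.comp (S.y c (e i)).continuous
      source' := by
        refine Subtype.ext (funext fun i => ?_)
        change pt τ (S.y c (e i) 0) = pt τ (S.y 0 (e i) 0)
        rw [hst]
      target' := by
        refine Subtype.ext (funext fun i => ?_)
        change pt τ (S.y c (e i) 1) = pt τ (S.y 0 (e i) 0)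
        rw [S.close, hst, pt_eq_iff]
        refine ⟨by simp, ?_⟩
        obtain ⟨a, b, hab⟩ := hlat c (e i)
        refine mem_lat.2 ⟨a, b, ?_⟩
        rw [← hab]
        simp }
  refine ⟨x₀, ?_⟩
  by_contra hcomm
  push Not at hcomm
  have hc := hcomm (FundamentalGroup.fromPath (Path.Homotopic.Quotient.mk (P 0)))
    (FundamentalGroup.fromPath (Path.Homotopic.Quotient.mk (P 1)))
  rw [FundamentalGroup.mul_def, FundamentalGroup.mul_def] at hc
  have hc' : Path.Homotopic.Quotient.mk ((P 1).trans (P 0))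
      = Path.Homotopic.Quotient.mk ((P 0).trans (P 1)) := hc
  obtain ⟨H⟩ := (Path.Homotopic.Quotient.exact hc').symm
  -- the two sheets
  let J : Fin 2 → Idx m n := ![J₀, J₁]
  have hproj : ∀ a, Continuous fun x : galCover τ A hA => x.1 (e.symm (J a)) := fun a =>
    (continuous_apply _).comp continuous_subtype_val
  let F : Fin 2 → C(I × I, Sur τ) := fun a =>
    ⟨fun z => (H z).1 (e.symm (J a)), (hproj a).comp H.continuous⟩
  have hP : ∀ c a t, (P c t).1 (e.symm (J a)) = pt τ (S.y c (J a) t) := by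
    intro c a t
    change pt τ (S.y c (e (e.symm (J a))) t) = _
    rw [Equiv.apply_symm_apply]
  have hx₀ : ∀ a, x₀.1 (e.symm (J a)) = pt τ (S.y 0 (J a) 0) := by
    intro a
    change pt τ (S.y 0 (e (e.symm (J a))) 0) = _
    rw [Equiv.apply_symm_apply]
  -- explicit lifts
  let q : ∀ (c a : Fin 2), Path (S.y 0 (J a) 0) (S.y 0 (J a) 0 + (0, ε (J a) * ![1, τ] c)) :=
    fun c a =>
    { toFun := S.y c (J a)
      source' := hst c (J a)
      target' := by rw [S.close, hst] }
  have hq : ∀ c a t, q c a t = S.y c (J a) t := fun c a t => rfl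
  let G : ∀ a, Path _ _ := fun a => (q 0 a).trans (shiftP (q 0 a) (q 1 a))
  let G' : ∀ a, Path _ _ := fun a => (q 1 a).trans (shiftP (q 1 a) (q 0 a))
  have hptG : ∀ a t, pt τ (G a t) = F a (0, t) := by
    intro a t
    have h1 : F a (0, t) = (((P 0).trans (P 1)) t).1 (e.symm (J a)) := by
      change (H (0, t)).1 _ = _
      rw [H.apply_zero]
      rfl
    rw [h1]
    simp only [G]
    rw [Path.trans_apply, Path.trans_apply]
    split_ifs with h
    · rw [hP, hq]
    · rw [hP, shiftP_apply, hq, pt_eq_iff]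
      refine ⟨by simp, ?_⟩
      obtain ⟨i, j, hij⟩ := hlat 0 (J a)
      refine mem_lat.2 ⟨i, j, ?_⟩
      rw [← hij]
      simp
  have hptG' : ∀ a t, pt τ (G' a t) = F a (1, t) := by
    intro a t
    have h1 : F a (1, t) = (((P 1).trans (P 0)) t).1 (e.symm (J a)) := by
      change (H (1, t)).1 _ = _
      rw [H.apply_one]
      rfl
    rw [h1]
    simp only [G']
    rw [Path.trans_apply, Path.trans_apply]
    split_ifs with h
    · rw [hP, hq]
    · rw [hP, shiftP_apply, hq, pt_eq_iff]
      refine ⟨by simp, ?_⟩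
      obtain ⟨i, j, hij⟩ := hlat 1 (J a)
      refine mem_lat.2 ⟨i, j, ?_⟩
      rw [← hij]
      simp
  have hF0 : ∀ a r, F a (r, 0) = pt τ (S.y 0 (J a) 0) := by
    intro a r
    change (H (r, 0)).1 _ = _
    rw [Path.Homotopy.source]
    exact hx₀ a
  have hF1 : ∀ a r, F a (r, 1) = pt τ (S.y 0 (J a) 0) := by
    intro a r
    change (H (r, 1)).1 _ = _
    rw [Path.Homotopy.target]
    exact hx₀ a
  -- lifts of the homotopy
  have hK : ∀ a, ∃ K : C(I × I, Fin 2 → ℂ), ∀ z, OnLine (F a z).1 (K z) := fun a =>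
    exists_lift_square ⟨fun z => (F a z).1, by fun_prop⟩
  choose K hK using hK
  have hW : ∀ a, ∃ W : C(I × I, ℂ), (∀ z, (W z : Tor τ) = (F a z).2) ∧
      W (0, 0) = (S.y 0 (J a) 0).2 := fun a =>
    lift_square (covOn hτ) ⟨fun z => (F a z).2, by fun_prop⟩ (fun z => mem_univ _) (0, 0)
      (S.y 0 (J a) 0).2 (by
        change _ = (F a (0, 0)).2
        rw [hF0]
        rfl)
  choose W hW hW0 using hW
  -- uniqueness of lifts along a side
  have huniq : ∀ (f g : I → ℂ), Continuous f → Continuous g →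
      (∀ t, (f t : Tor τ) = (g t : Tor τ)) → f 0 = g 0 → f = g := by
    intro f g hf hg h h0
    exact (isCoveringMap_tor hτ).eq_of_comp_eq hf hg (funext h) 0 h0
  have hWl : ∀ a r, W a (r, 0) = W a (0, 0) := by
    intro a r
    have := huniq (fun r => W a (r, 0)) (fun _ => W a (0, 0)) (by fun_prop) continuous_const
      (fun t => by rw [hW, hW, hF0, hF0]) rfl
    exact congrFun this r
  have hWr : ∀ a r, W a (r, 1) = W a (0, 1) := by
    intro a r
    have := huniq (fun r => W a (r, 1)) (fun _ => W a (0, 1)) (by fun_prop) continuous_const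
      (fun t => by rw [hW, hW, hF1, hF1]) rfl
    exact congrFun this r
  have hWb : ∀ a t, W a (0, t) = (G a t).2 := by
    intro a t
    have := huniq (fun t => W a (0, t)) (fun t => (G a t).2) (by fun_prop)
      (continuous_snd.comp (G a).continuous)
      (fun t => by
        rw [hW, ← hptG]
        rfl) (by
        change W a (0, 0) = (G a 0).2
        rw [hW0, (G a).source])
    exact congrFun this t
  have hWt : ∀ a t, W a (1, t) = (G' a t).2 := by
    intro a t
    have := huniq (fun t => W a (1, t)) (fun t => (G' a t).2) (by fun_prop)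
      (continuous_snd.comp (G' a).continuous)
      (fun t => by
        rw [hW, ← hptG']
        rfl) (by
        change W a (1, 0) = (G' a 0).2
        rw [hWl, hW0, (G' a).source])
    exact congrFun this t
  -- nonvanishing of the coordinate
  have hsg : ∀ c a t, sg τ A (q c a t) ≠ 0 := fun c a t => S.ne c (J a) t
  have hδ : ∀ c a, (S.y 0 (J a) 0 + (0, (ε (J a) * ![1, τ] c : ℂ))) - S.y 0 (J a) 0
      = (0, (ε (J a) * ![1, τ] c : ℂ)) := fun c a => by simp
  have hsgs : ∀ c c' a t, sg τ A (shiftP (q c a) (q c' a) t) ≠ 0 := by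
    intro c c' a t
    rw [shiftP_apply, hδ]
    obtain ⟨i, j, hij⟩ := hlat c (J a)
    rw [hij, sg_add]
    exact mul_ne_zero (aut_ne _ _ _ _) (hsg c' a t)
  have hsgG : ∀ a t, sg τ A (G a t) ≠ 0 := by
    intro a t
    simp only [G]
    rw [Path.trans_apply]
    split_ifs with h
    · exact hsg _ _ _
    · exact hsgs _ _ _ _
  have hsgG' : ∀ a t, sg τ A (G' a t) ≠ 0 := by
    intro a t
    simp only [G']
    rw [Path.trans_apply]
    split_ifs with h
    · exact hsg _ _ _
    · exact hsgs _ _ _ _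
  -- variations
  have hv : ∀ a, lv ((G a).map (continuous_sg hτ A)).toContinuousMap
      - lv ((G' a).map (continuous_sg hτ A)).toContinuousMap
      = 2 * Real.pi * Complex.I * n * ε (J a) ^ 2 := by
    intro a
    have e1 : lv ((G a).map (continuous_sg hτ A)).toContinuousMap
        = lv ((q 0 a).map (continuous_sg hτ A)).toContinuousMap
          + lv ((shiftP (q 0 a) (q 1 a)).map (continuous_sg hτ A)).toContinuousMap := by
      simp only [G]
      rw [Path.map_trans]
      exact lv_trans _ _ (fun t => hsg _ _ _) (fun t => hsgs _ _ _ _)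
    have e2 : lv ((G' a).map (continuous_sg hτ A)).toContinuousMap
        = lv ((q 1 a).map (continuous_sg hτ A)).toContinuousMap
          + lv ((shiftP (q 1 a) (q 0 a)).map (continuous_sg hτ A)).toContinuousMap := by
      simp only [G']
      rw [Path.map_trans]
      exact lv_trans _ _ (fun t => hsg _ _ _) (fun t => hsgs _ _ _ _)
    have e3 := lv_shift hτ A (q 0 a) (q 1 a) (ε (J a)) 0
      (by rw [hδ]; simp) (fun t => hsg 1 a t)
    have e4 := lv_shift hτ A (q 1 a) (q 0 a) 0 (ε (J a))
      (by rw [hδ]; simp) (fun t => hsg 0 a t)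
    rw [e1, e2, e3, e4]
    simp
    ring
  -- the obstruction
  have hmk : ∀ {X Y : Fin 2 → ℂ} {hX : X ≠ 0} {hY : Y ≠ 0},
      Projectivization.mk ℂ X hX = Projectivization.mk ℂ Y hY → ∃ c : ℂ, X = c • Y := by
    intro X Y hX hY h
    rw [Projectivization.mk_eq_mk_iff'] at h
    obtain ⟨c, hc⟩ := h
    exact ⟨c, hc.symm⟩
  let X : Fin 2 → C(I, Fin 2 → ℂ) := fun a => ⟨fun t => ![(G a t).1, 1], by
    refine continuous_pi fun i => ?_
    fin_cases i
    · exact continuous_fst.comp (G a).continuous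
    · exact continuous_const⟩
  let X' : Fin 2 → C(I, Fin 2 → ℂ) := fun a => ⟨fun t => ![(G' a t).1, 1], by
    refine continuous_pi fun i => ?_
    fin_cases i
    · exact continuous_fst.comp (G' a).continuous
    · exact continuous_const⟩
  have hX : ∀ a t, X a t = ![(G a t).1, 1] := fun a t => rfl
  have hX' : ∀ a t, X' a t = ![(G' a t).1, 1] := fun a t => rfl
  have key := two_sheet (sec τ A) m
    (by
      have h := continuous_sec (m := m) (n := n) hτ
      exact h.comp (by fun_prop : Continuous fun z : (Fin 2 → ℂ) × ℂ => (A, z)))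
    (fun c X w => sec_smul τ A c X w) hA 0 K W (fun a z => (hK a z).1)
    (fun z => by
      have h := same_of_mem_galCover hτ A hA (H z).2 (e.symm (J 0)) (e.symm (J 1))
      have h2 : ∀ a, (H z).1 (e.symm (J a))
          = (Projectivization.mk ℂ (K a z) (hK a z).1, (W a z : Tor τ)) := by
        intro a
        refine Prod.ext ?_ ?_
        · exact (hK a z).2.symm
        · exact (hW a z).symm
      rw [h2, h2, projMap_mk, projMap_mk, Projectivization.mk_eq_mk_iff'] at h
      obtain ⟨c, hc⟩ := h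
      exact ⟨c, hc.symm⟩)
    X X' (fun a t h => by simpa [hX] using congrFun h 1)
    (fun a t h => by simpa [hX'] using congrFun h 1)
    (fun a => by rw [hX, hX', (G a).source, (G' a).source])
    (fun a => by
      rw [hX, hX', (G a).target, (G' a).target]
      simp)
    (fun a t => by
      refine hmk (hX := (hK a (0, t)).1) (hY := by rw [hX]; simp) ?_
      rw [(hK a (0, t)).2, ← hptG]
      rfl)
    (fun a t => by
      refine hmk (hX := (hK a (1, t)).1) (hY := by rw [hX']; simp) ?_
      rw [(hK a (1, t)).2, ← hptG']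
      rfl)
    (fun a r => by
      refine hmk (hX := (hK a (r, 0)).1) (hY := by rw [hX]; simp) ?_
      rw [(hK a (r, 0)).2, hF0]
      have : G a 0 = S.y 0 (J a) 0 := (G a).source
      simp only [hX, this]
      rfl)
    (fun a r => by
      refine hmk (hX := (hK a (r, 1)).1) (hY := by rw [hX]; simp) ?_
      rw [(hK a (r, 1)).2, hF1]
      have : G a 1 = _ := (G a).target
      simp only [hX, this]
      unfold pt
      simp)
    hWl hWr
    (fun a => ((G a).map (continuous_sg hτ A)).toContinuousMap)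
    (fun a => ((G' a).map (continuous_sg hτ A)).toContinuousMap)
    (fun a t => by
      rw [hWb]
      rfl)
    (fun a t => by
      rw [hWt]
      rfl)
    hsgG hsgG'
  obtain ⟨k, hk⟩ := key
  obtain ⟨v, hvd⟩ : ∃ v : Fin 2 → ℂ, v = fun a =>
      lv ((G a).map (continuous_sg hτ A)).toContinuousMap := ⟨_, rfl⟩
  obtain ⟨v', hvd'⟩ : ∃ v' : Fin 2 → ℂ, v' = fun a =>
      lv ((G' a).map (continuous_sg hτ A)).toContinuousMap := ⟨_, rfl⟩
  have hk' : (v 0 - v 1) - (v' 0 - v' 1) = m * k * (2 * Real.pi * Complex.I) := by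
    rw [hvd, hvd']
    exact hk
  have hv' : ∀ a, v a - v' a = 2 * Real.pi * Complex.I * n * ε (J a) ^ 2 := by
    intro a
    rw [hvd, hvd']
    exact hv a
  have hv0 := hv' 0
  have hv1 := hv' 1
  have hJ0 : ε (J 0) = 1 := h₀
  have hJ1 : ε (J 1) = 0 := h₁
  rw [hJ0] at hv0
  rw [hJ1] at hv1
  have hpi : (2 * Real.pi * Complex.I) ≠ 0 := by simp [Real.pi_ne_zero]
  have h3 : (2 * Real.pi * Complex.I) * (n : ℂ) = (2 * Real.pi * Complex.I) * (m * k) := by
    push_cast at hv0 hv1
    linear_combination hk' - hv0 + hv1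
  have h4 : (n : ℂ) = m * k := mul_left_cancel₀ hpi h3
  have h5 : (n : ℤ) = m * k := by exact_mod_cast h4
  exact hmn (Int.natCast_dvd_natCast.1 ⟨k, h5⟩)

end Pool.Agent.Gal2c4b12
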