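import Pool.Agent.Lib.MP_2c4b12_ag.H66Base

/-!
# The sheets over the two loops, for the special projection and for all nearby projections
-/

namespace Pool.Agent.Gal2c4b12

open Complex unitInterval Filter Topology Set
open scoped LinearAlgebra.Projectivization

variable {m n : ℕ} {τ : ℂ}

/-- The `m` solutions of `x^m + C = z`. -/
noncomputable def rt (m : ℕ) (C : ℝ) (l : Fin m) (z : ℂ) : ℂ :=
  exp (Real.pi * Complex.I / m) * exp (2 * Real.pi * Complex.I / m) ^ (l : ℕ)
    * ((C : ℂ) - z) ^ ((m : ℂ)⁻¹)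

lemma rt_pow (C : ℝ) (l : Fin m) (z : ℂ) : rt m C l z ^ m + C = z := by
  have hm : m ≠ 0 := by have := l.pos; omega
  have hmc : (m : ℂ) ≠ 0 := by exact_mod_cast hm
  unfold rt
  rw [mul_pow, mul_pow, Complex.cpow_nat_inv_pow _ hm, ← pow_mul, mul_comm (l : ℕ) m, pow_mul,
    ← exp_nat_mul, ← exp_nat_mul]
  have h1 : (m : ℂ) * (Real.pi * Complex.I / m) = Real.pi * Complex.I := by field_simp
  have h2 : (m : ℂ) * (2 * Real.pi * Complex.I / m) = 2 * Real.pi * Complex.I := by field_simp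
  rw [h1, h2, exp_pi_mul_I, exp_two_pi_mul_I, one_pow]
  ring

lemma rt_ne_zero (C : ℝ) (l : Fin m) {z : ℂ} (hz : z.re < C) : rt m C l z ≠ 0 := by
  intro h
  have hm : m ≠ 0 := by have := l.pos; omega
  have h1 := rt_pow C l z
  rw [h, zero_pow hm, zero_add] at h1
  rw [← h1] at hz
  simp at hz

lemma rt_inj (C : ℝ) (l l' : Fin m) {z : ℂ} (hz : z.re < C) (h : rt m C l z = rt m C l' z) :
    l = l' := by
  have hm : m ≠ 0 := by have := l.pos; omega
  unfold rt at h
  have hne : ((C : ℂ) - z) ^ ((m : ℂ)⁻¹) ≠ 0 := by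
    have := rt_ne_zero C l hz
    unfold rt at this
    exact right_ne_zero_of_mul this
  have h1 := mul_right_cancel₀ hne h
  have h2 := mul_left_cancel₀ (exp_ne_zero _) h1
  have h3 := (Complex.isPrimitiveRoot_exp m hm).pow_inj l.2 l'.2 h2
  exact Fin.ext h3

lemma rt_eq_imp (C : ℝ) (l l' : Fin m) {z z' : ℂ} (h : rt m C l z = rt m C l' z') : z = z' := by
  rw [← rt_pow C l z, ← rt_pow C l' z', h]

lemma continuousAt_rt (C : ℝ) (l : Fin m) {z : ℂ} (hz : z.re < C) :
    ContinuousAt (rt m C l) z := by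
  unfold rt
  have h : (C : ℂ) - z ∈ slitPlane := by
    refine Or.inl ?_
    simp [hz]
  refine ContinuousAt.mul continuousAt_const ?_
  exact ContinuousAt.comp (f := fun z => (C : ℂ) - z) (g := fun y : ℂ => y ^ ((m : ℂ)⁻¹))
    (continuousAt_cpow_const h) (by fun_prop)

/-- Index set of the sheets. -/
abbrev Idx (m n : ℕ) : Type := Fin 2 × Fin m × Fin n

/-- Continuous simple sheets over two loops with a common base point. -/
structure Sheets (τ : ℂ) (A : Mat m n) (ε : Idx m n → ℤ) where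
  y : Fin 2 → Idx m n → C(I, ℂ × ℂ)
  ne : ∀ c J t, sec τ A ![(y c J t).1, 1] (y c J t).2 0 ≠ 0
  same : ∀ c J J' t, Fm τ (A, y c J t) = Fm τ (A, y c J' t)
  start : ∀ J, y 0 J 0 = y 1 J 0
  close : ∀ c J, y c J 1 = y c J 0 + (0, ε J * ![1, τ] c)
  dist : ∀ c t J J', J ≠ J' → (y c J t).1 ≠ (y c J' t).1 ∨ (y c J t).2 - (y c J' t).2 ∉ lat τ

lemma isClosed_lat (hτ : 0 < τ.im) : IsClosed (lat τ : Set ℂ) := by
  have h : (lat τ : Set ℂ) = (fun w : ℂ => w.im / τ.im) ⁻¹' (range ((↑) : ℤ → ℝ)) ∩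
      (fun w : ℂ => w.re - w.im / τ.im * τ.re) ⁻¹' (range ((↑) : ℤ → ℝ)) := by
    ext w
    simp only [SetLike.mem_coe, mem_lat, mem_inter_iff, mem_preimage, mem_range]
    constructor
    · rintro ⟨a, b, rfl⟩
      refine ⟨⟨b, ?_⟩, ⟨a, ?_⟩⟩
      · simp
        field_simp
      · simp
        field_simp
        ring
    · rintro ⟨⟨b, hb⟩, ⟨a, ha⟩⟩
      refine ⟨a, b, ?_⟩
      apply Complex.ext
      · simp
        rw [ha, hb]
        ring
      · simp
        rw [hb]
        field_simp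
  rw [h]
  have hc : IsClosed (range ((↑) : ℤ → ℝ)) := Int.isClosedEmbedding_coe_real.isClosed_range
  refine (hc.preimage (by fun_prop)).inter (hc.preimage (by fun_prop))

lemma Fm_sub_lat (A : Mat m n) (x w : ℂ) (a b : ℤ) :
    Fm τ (A, (x, w) - (0, a + b * τ)) = Fm τ (A, x, w) := by
  have h : sec τ A ![x, 1] w = aut n τ b (w - (a + b * τ)) • sec τ A ![x, 1] (w - (a + b * τ)) := by
    rw [← sec_add_lat]
    congr 1
    ring
  have hne := aut_ne n τ b (w - (a + b * τ))
  unfold Fm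
  simp only [Prod.mk_sub_mk, sub_zero]
  rw [h]
  simp only [Pi.smul_apply, smul_eq_mul]
  rw [mul_div_mul_left _ _ hne, mul_div_mul_left _ _ hne]

/-- Uniformity over the interval of eventual properties. -/
lemma ev_all {E : Type*} [TopologicalSpace E] {A₀ : E} {P : E → I → Prop}
    (h : ∀ t, ∀ᶠ z : E × I in 𝓝 (A₀, t), P z.1 z.2) : ∀ᶠ A in 𝓝 A₀, ∀ t, P A t := by
  have := isCompact_univ.eventually_forall_of_forall_eventually (x₀ := A₀) (P := P)
    (fun t _ => h t)
  filter_upwards [this] with A hA t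
  exact hA t (mem_univ t)

/-- All data of the special projection. -/
structure BaseData (τ : ℂ) (A₀ : Mat m n) (ε : Idx m n → ℤ) where
  y : Fin 2 → Idx m n → C(I, ℂ × ℂ)
  U : Fin 2 → C(I, ℂ × ℂ)
  ne : ∀ c J t, sec τ A₀ ![(y c J t).1, 1] (y c J t).2 0 ≠ 0
  same : ∀ c J t, Fm τ (A₀, y c J t) = U c t
  U_base : U 0 0 = U 1 0
  U_closed : ∀ c, U c 1 = U c 0
  start : ∀ J, y 0 J 0 = y 1 J 0
  close : ∀ c J, y c J 1 = y c J 0 + (0, ε J * ![1, τ] c)
  dist : ∀ c t J J', J ≠ J' → (y c J t).1 ≠ (y c J' t).1 ∨ (y c J t).2 - (y c J' t).2 ∉ lat τ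
  loc : ∀ c J t, ∃ e : OpenPartialHomeomorph (Mat m n × ℂ × ℂ) (Mat m n × ℂ × ℂ),
      (A₀, y c J t) ∈ e.source ∧ ∀ z, e z = (z.1, Fm τ z)

theorem sheets_of_baseData (hτ : 0 < τ.im) {A₀ : Mat m n} {ε : Idx m n → ℤ}
    (B : BaseData τ A₀ ε) : ∀ᶠ A in 𝓝 A₀, Nonempty (Sheets τ A ε) := by
  have hpers := fun (c : Fin 2) (J : Idx m n) =>
    persist (Fm τ) A₀ (B.y c J) (B.U c) (B.same c J) (B.loc c J)
  choose V hV Z hZc hZe hZ0 using hpers
  -- continuity at the base parameter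
  have hcont : ∀ c J t, ContinuousAt (Z c J) (A₀, t) := fun c J t =>
    (hZc c J).continuousAt (prod_mem_nhds (hV c J) univ_mem)
  have htend : ∀ c J t, Tendsto (fun A => Z c J (A, t)) (𝓝 A₀) (𝓝 (B.y c J t)) := by
    intro c J t
    have h1 := (hcont c J t).tendsto
    rw [hZ0] at h1
    exact h1.comp ((Continuous.prodMk_left t).tendsto' A₀ (A₀, t) rfl)
  -- nonvanishing
  have e1 : ∀ c J, ∀ᶠ A in 𝓝 A₀, ∀ t, sec τ A ![(Z c J (A, t)).1, 1] (Z c J (A, t)).2 0 ≠ 0 := by
    intro c J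
    refine ev_all (P := fun A t => sec τ A ![(Z c J (A, t)).1, 1] (Z c J (A, t)).2 0 ≠ 0) ?_
    intro t
    have hc : Continuous fun z : Mat m n × ℂ × ℂ => sec τ z.1 ![z.2.1, 1] z.2.2 0 :=
      (contDiff_sec hτ 0).continuous
    have hc2 : ContinuousAt (fun z : Mat m n × I => (z.1, Z c J z)) (A₀, t) :=
      continuousAt_fst.prodMk (hcont c J t)
    have hc3 : ContinuousAt (fun z : Mat m n × I =>
        sec τ z.1 ![(Z c J z).1, 1] (Z c J z).2 0) (A₀, t) :=
      ContinuousAt.comp (g := fun z : Mat m n × ℂ × ℂ => sec τ z.1 ![z.2.1, 1] z.2.2 0)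
        (f := fun z : Mat m n × I => (z.1, Z c J z)) hc.continuousAt hc2
    refine hc3.eventually_ne ?_
    rw [hZ0]
    exact B.ne c J t
  -- starting points
  have e2 : ∀ J, ∀ᶠ A in 𝓝 A₀, Z 0 J (A, 0) = Z 1 J (A, 0) := by
    intro J
    obtain ⟨e, he, hee⟩ := B.loc 0 J 0
    refine germ_unique (Fm τ) A₀ (B.y 0 J 0) e he hee _ _ (htend 0 J 0) ?_ ?_
    · rw [B.start]
      exact htend 1 J 0
    · filter_upwards [hV 0 J, hV 1 J] with A h0 h1
      rw [hZe 0 J A h0, hZe 1 J A h1, B.U_base]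
  -- end points
  have e3 : ∀ c J, ∀ᶠ A in 𝓝 A₀, Z c J (A, 1) = Z c J (A, 0) + (0, ε J * ![1, τ] c) := by
    intro c J
    obtain ⟨e, he, hee⟩ := B.loc c J 0
    have h1 : ∃ a b : ℤ, (ε J * ![1, τ] c : ℂ) = a + b * τ := by
      fin_cases c
      · exact ⟨ε J, 0, by simp⟩
      · exact ⟨0, ε J, by simp⟩
    obtain ⟨a, b, hab⟩ := h1
    have := germ_unique (Fm τ) A₀ (B.y c J 0) e he hee (fun A => Z c J (A, 0))
      (fun A => Z c J (A, 1) - (0, ε J * ![1, τ] c)) (htend c J 0) ?_ ?_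
    · filter_upwards [this] with A hA
      rw [hA]
      simp
    · have h2 := (htend c J 1).sub_const (0, ε J * ![1, τ] c)
      rw [B.close] at h2
      simpa using h2
    · filter_upwards [hV c J] with A h0
      rw [hZe c J A h0, hab]
      have h3 := Fm_sub_lat (τ := τ) A (Z c J (A, 1)).1 (Z c J (A, 1)).2 a b
      rw [h3]
      exact (B.U_closed c).symm.trans (hZe c J A h0 1).symm
  -- distinctness
  have e4 : ∀ c J J', J ≠ J' → ∀ᶠ A in 𝓝 A₀, ∀ t, (Z c J (A, t)).1 ≠ (Z c J' (A, t)).1 ∨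
      (Z c J (A, t)).2 - (Z c J' (A, t)).2 ∉ lat τ := by
    intro c J J' hJ
    refine ev_all (P := fun A t => (Z c J (A, t)).1 ≠ (Z c J' (A, t)).1 ∨
      (Z c J (A, t)).2 - (Z c J' (A, t)).2 ∉ lat τ) ?_
    intro t
    have ho : IsOpen {z : (ℂ × ℂ) × (ℂ × ℂ) | z.1.1 ≠ z.2.1 ∨ z.1.2 - z.2.2 ∉ lat τ} := by
      refine IsOpen.union ?_ ?_
      · exact isOpen_ne_fun (by fun_prop) (by fun_prop)
      · exact (isClosed_lat hτ).isOpen_compl.preimage
          (by fun_prop : Continuous fun z : (ℂ × ℂ) × (ℂ × ℂ) => z.1.2 - z.2.2)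
    have hc : ContinuousAt (fun z : Mat m n × I => (Z c J z, Z c J' z)) (A₀, t) :=
      (hcont c J t).prodMk (hcont c J' t)
    refine hc.eventually (ho.mem_nhds ?_)
    simp only [hZ0]
    exact B.dist c t J J' hJ
  -- conclusion
  have f0 : ∀ᶠ A in 𝓝 A₀, ∀ c J, A ∈ V c J :=
    eventually_all.2 fun c => eventually_all.2 fun J => hV c J
  have f1 := eventually_all.2 fun c => eventually_all.2 fun J => e1 c J
  have f2 := eventually_all.2 e2
  have f3 := eventually_all.2 fun c => eventually_all.2 fun J => e3 c J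
  have f4 : ∀ᶠ A in 𝓝 A₀, ∀ c J J', J ≠ J' → ∀ t, (Z c J (A, t)).1 ≠ (Z c J' (A, t)).1 ∨
      (Z c J (A, t)).2 - (Z c J' (A, t)).2 ∉ lat τ :=
    eventually_all.2 fun c => eventually_all.2 fun J => eventually_all.2 fun J' => by
      by_cases hJ : J = J'
      · exact Eventually.of_forall fun A h => absurd hJ h
      · filter_upwards [e4 c J J' hJ] with A hA _
        exact hA
  filter_upwards [f0, f1, f2, f3, f4] with A h0 h1 h2 h3 h4
  exact ⟨{
    y := fun c J => ⟨fun t => Z c J (A, t), by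
      refine continuousOn_univ.1 ?_
      exact (hZc c J).comp (Continuous.prodMk_right A).continuousOn
        fun t _ => ⟨h0 c J, mem_univ _⟩⟩
    ne := fun c J t => h1 c J t
    same := fun c J J' t => by
      change Fm τ (A, Z c J (A, t)) = Fm τ (A, Z c J' (A, t))
      rw [hZe c J A (h0 c J), hZe c J' A (h0 c J')]
    start := h2
    close := h3
    dist := fun c t J J' hJ => h4 c J J' hJ t }⟩

/-- The displacement of the sheets. -/
def epsJ (D : Pencil n τ) (J : Idx m n) : ℤ := if J.1 = 0 then D.ε J.2.2 else 0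

theorem exists_baseData (hτ : 0 < τ.im) (D : Pencil n τ) (hm : 1 ≤ m) :
    ∃ C : ℝ, Nonempty (BaseData τ (baseMat m D.u C) (epsJ (m := m) D)) := by
  -- a large constant
  obtain ⟨C, hC, hq⟩ : ∃ C : ℝ, (∀ c t, (D.p c t).re < C) ∧ D.q.re < C := by
    have h1 : ∀ c, ∃ M, ∀ t, (D.p c t).re ≤ M := by
      intro c
      obtain ⟨M, hM⟩ := (isCompact_range (Complex.continuous_re.comp (D.p c).continuous)).bddAbove
      exact ⟨M, fun t => hM ⟨t, rfl⟩⟩
    choose M hM using h1
    refine ⟨max (max (M 0) (M 1)) D.q.re + 1, fun c t => ?_, ?_⟩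
    · have h2 := hM c t
      have h3 : M c ≤ max (M 0) (M 1) := by
        fin_cases c
        · exact le_max_left _ _
        · exact le_max_right _ _
      have h4 := le_max_left (max (M 0) (M 1)) D.q.re
      linarith
    · have h4 := le_max_right (max (M 0) (M 1)) D.q.re
      linarith
  refine ⟨C, ?_⟩
  have hTq : ∀ j, lin τ (D.u 1) (D.v j) / lin τ (D.u 0) (D.v j) = D.q := fun j => by
    rw [D.v_eq, mul_div_assoc, div_self (D.v_ne j), mul_one]
  have hTp : ∀ c j t, lin τ (D.u 1) (D.w c j t) / lin τ (D.u 0) (D.w c j t) = D.p c t :=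
    fun c j t => by rw [D.w_eq, mul_div_assoc, div_self (D.w_ne c j t), mul_one]
  have hrc : ∀ c (l : Fin m), Continuous fun t => rt m C l (D.p c t) := by
    intro c l
    rw [continuous_iff_continuousAt]
    intro t
    exact ContinuousAt.comp (f := fun t => D.p c t) (g := rt m C l)
      (continuousAt_rt C l (hC c t)) (D.p c).continuous.continuousAt
  let y : Fin 2 → Idx m n → C(I, ℂ × ℂ) := fun c J =>
    if J.1 = 0 then ⟨fun t => (rt m C J.2.1 D.q, D.w c J.2.2 t), by fun_prop⟩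
    else ⟨fun t => (rt m C J.2.1 (D.p c t), D.v J.2.2), (hrc c J.2.1).prodMk continuous_const⟩
  have hy0 : ∀ c l j t, y c (0, l, j) t = (rt m C l D.q, D.w c j t) := by
    intro c l j t
    simp [y]
  have hy1 : ∀ c l j t, y c (1, l, j) t = (rt m C l (D.p c t), D.v j) := by
    intro c l j t
    simp [y]
  have hrtq : ∀ l : Fin m, rt m C l D.q ^ m + (C : ℂ) = D.q := fun l => rt_pow C l _
  have hcases : ∀ J : Idx m n, (∃ l j, J = (0, l, j)) ∨ (∃ l j, J = (1, l, j)) := by
    rintro ⟨a, l, j⟩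
    fin_cases a
    · exact Or.inl ⟨l, j, rfl⟩
    · exact Or.inr ⟨l, j, rfl⟩
  refine ⟨{
    y := y
    U := fun c => ⟨fun t => (D.p c t + D.q, D.q * D.p c t), by fun_prop⟩
    ne := ?_
    same := ?_
    U_base := ?_
    U_closed := ?_
    start := ?_
    close := ?_
    dist := ?_
    loc := ?_ }⟩
  · intro c J t
    rw [sec_base]
    rcases hcases J with ⟨l, j, rfl⟩ | ⟨l, j, rfl⟩
    · rw [hy0]
      simpa using D.w_ne c j t
    · rw [hy1]
      simpa using D.v_ne j
  · intro c J t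
    rcases hcases J with ⟨l, j, rfl⟩ | ⟨l, j, rfl⟩
    · rw [hy0, Fm_base _ _ _ _ (D.w_ne c j t), hTp, rt_pow]
      rfl
    · rw [hy1, Fm_base _ _ _ _ (D.v_ne j), hTq, rt_pow]
      simp only [ContinuousMap.coe_mk, Prod.mk.injEq]
      constructor <;> ring
  · simp [D.p_base]
  · intro c
    simp [D.p_closed]
  · intro J
    rcases hcases J with ⟨l, j, rfl⟩ | ⟨l, j, rfl⟩
    · rw [hy0, hy0, D.w_start]
    · rw [hy1, hy1, D.p_base]
  · intro c J
    rcases hcases J with ⟨l, j, rfl⟩ | ⟨l, j, rfl⟩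
    · rw [hy0, hy0]
      have : D.w c j 1 = D.w c j 0 + D.ε j * ![1, τ] c := by
        fin_cases c
        · simpa using D.w_end0 j
        · simpa using D.w_end1 j
      simp [epsJ, this]
    · rw [hy1, hy1, D.p_closed]
      simp [epsJ]
  · intro c t J J' hJ
    rcases hcases J with ⟨l, j, rfl⟩ | ⟨l, j, rfl⟩ <;>
      rcases hcases J' with ⟨l', j', rfl⟩ | ⟨l', j', rfl⟩
    · rw [hy0, hy0]
      by_cases hl : l = l'
      · right
        refine D.w_dist c t j j' ?_
        rintro rfl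
        exact hJ (by rw [hl])
      · left
        exact fun h => hl (rt_inj C l l' hq h)
    · rw [hy0, hy1]
      left
      intro h
      exact D.q_ne c t (rt_eq_imp C l l' h).symm
    · rw [hy0, hy1]
      left
      intro h
      exact D.q_ne c t (rt_eq_imp C l l' h)
    · rw [hy1, hy1]
      by_cases hl : l = l'
      · right
        refine D.v_dist j j' ?_
        rintro rfl
        exact hJ (by rw [hl])
      · left
        exact fun h => hl (rt_inj C l l' (hC c t) h)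
  · intro c J t
    rcases hcases J with ⟨l, j, rfl⟩ | ⟨l, j, rfl⟩
    · rw [hy0]
      refine base_local hτ D.u C hm _ _ (D.p c t) (rt_ne_zero C l hq) (D.w_ne c j t)
        (D.w_eq c j t) (D.w_simple c j t) ?_
      rw [rt_pow]
      exact (D.q_ne c t).symm
    · rw [hy1]
      refine base_local hτ D.u C hm _ _ D.q (rt_ne_zero C l (hC c t)) (D.v_ne j)
        (D.v_eq j) (D.v_simple j) ?_
      rw [rt_pow]
      exact D.q_ne c t

end Pool.Agent.Gal2c4b12
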