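import Pool.Agent.Lib.MP_2c4b12_ag.H66Defs

/-!
# The theta functions `th n τ k`: entire, quasi-periodic; smoothness and quasi-periodicity of
the sections
-/

namespace Pool.Agent.Gal2c4b12

open Complex unitInterval
open scoped LinearAlgebra.Projectivization

/-- Expression through Mathlib's `jacobiTheta₂`. -/
lemma th_eq {n : ℕ} (hn : n ≠ 0) (τ : ℂ) (k : Fin n) (w : ℂ) :
    th n τ k w = exp (Real.pi * Complex.I * τ * (k : ℕ) ^ 2 / n + 2 * Real.pi * Complex.I * (k : ℕ) * w)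
      * jacobiTheta₂ (n * w + (k : ℕ) * τ) (n * τ) := by
  unfold th jacobiTheta₂ jacobiTheta₂_term
  rw [← tsum_mul_left]
  congr 1
  funext j
  rw [← exp_add]
  congr 1
  have : (n : ℂ) ≠ 0 := by exact_mod_cast hn
  field_simp
  ring

lemma im_nat_mul_pos {n : ℕ} (hn : n ≠ 0) {τ : ℂ} (hτ : 0 < τ.im) : 0 < ((n : ℂ) * τ).im := by
  rw [Complex.mul_im]
  simp only [natCast_re, natCast_im, zero_mul, add_zero]
  have : (0 : ℝ) < n := by exact_mod_cast Nat.pos_of_ne_zero hn
  positivity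

lemma differentiable_th {n : ℕ} (hn : n ≠ 0) {τ : ℂ} (hτ : 0 < τ.im) (k : Fin n) :
    Differentiable ℂ (th n τ k) := by
  have h1 : th n τ k = fun w => exp (Real.pi * Complex.I * τ * (k : ℕ) ^ 2 / n
      + 2 * Real.pi * Complex.I * (k : ℕ) * w) * jacobiTheta₂ (n * w + (k : ℕ) * τ) (n * τ) :=
    funext (th_eq hn τ k)
  rw [h1]
  have h2 : Differentiable ℂ fun z => jacobiTheta₂ z (n * τ) := fun z =>
    differentiableAt_jacobiTheta₂_fst z (im_nat_mul_pos hn hτ)
  have h3 : Differentiable ℂ fun w : ℂ => jacobiTheta₂ (n * w + (k : ℕ) * τ) (n * τ) :=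
    h2.comp (by fun_prop : Differentiable ℂ fun w : ℂ => (n : ℂ) * w + (k : ℕ) * τ)
  exact Differentiable.mul (by fun_prop) h3

lemma th_add_one (n : ℕ) (τ : ℂ) (k : Fin n) (w : ℂ) : th n τ k (w + 1) = th n τ k w := by
  unfold th
  congr 1
  funext j
  have hn : (n : ℂ) ≠ 0 := by
    have := k.pos
    exact_mod_cast this.ne'
  rw [exp_eq_exp_iff_exists_int]
  refine ⟨n * j + (k : ℕ), ?_⟩
  push_cast
  field_simp
  ring

lemma th_add_tau (n : ℕ) (τ : ℂ) (k : Fin n) (w : ℂ) :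
    th n τ k (w + τ) = exp (-(Real.pi * Complex.I * n * (2 * w + τ))) * th n τ k w := by
  unfold th
  rw [← tsum_mul_left]
  rw [← (Equiv.addRight (1 : ℤ)).tsum_eq (fun j : ℤ => exp (-(Real.pi * Complex.I * n * (2 * w + τ))) *
    exp (Real.pi * Complex.I * n * τ * (j + (k : ℕ) / n) ^ 2
      + 2 * Real.pi * Complex.I * n * (j + (k : ℕ) / n) * w))]
  congr 1
  funext j
  simp only [Equiv.coe_addRight, Int.cast_add, Int.cast_one]
  rw [← exp_add]
  congr 1
  ring

/-- The automorphy factor of `sec` for the translation by `a + b τ`. -/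
noncomputable def aut (n : ℕ) (τ : ℂ) (b : ℤ) (w : ℂ) : ℂ :=
  exp (-(Real.pi * Complex.I * n * (2 * b * w + b ^ 2 * τ)))

lemma th_add_int (n : ℕ) (τ : ℂ) (k : Fin n) (a : ℤ) (w : ℂ) : th n τ k (w + a) = th n τ k w := by
  have h : Function.Periodic (th n τ k) 1 := th_add_one n τ k
  simpa using h.int_mul a w

lemma th_add_int_tau (n : ℕ) (τ : ℂ) (k : Fin n) (b : ℤ) (w : ℂ) :
    th n τ k (w + b * τ) = aut n τ b w * th n τ k w := by
  have key : ∀ b : ℕ, ∀ w, th n τ k (w + b * τ) = aut n τ b w * th n τ k w := by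
    intro b
    induction b with
    | zero =>
      intro w
      simp [aut]
    | succ b ih =>
      intro w
      have : w + ((b + 1 : ℕ) : ℂ) * τ = (w + b * τ) + τ := by push_cast; ring
      rw [this, th_add_tau, ih, ← mul_assoc]
      congr 1
      unfold aut
      rw [← exp_add]
      congr 1
      push_cast
      ring
  rcases Int.eq_nat_or_neg b with ⟨c, rfl | rfl⟩
  · exact_mod_cast key c w
  · have h := key c (w + ((-(c : ℤ) : ℤ) : ℂ) * τ)
    have h1 : w + ((-(c : ℤ) : ℤ) : ℂ) * τ + c * τ = w := by push_cast; ring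
    rw [h1] at h
    rw [h, ← mul_assoc]
    have : aut n τ (-(c : ℤ)) w * aut n τ c (w + ((-(c : ℤ) : ℤ) : ℂ) * τ) = 1 := by
      unfold aut
      rw [← exp_add, ← exp_zero]
      congr 1
      push_cast
      ring
    rw [this, one_mul]

lemma th_add_lat (n : ℕ) (τ : ℂ) (k : Fin n) (a b : ℤ) (w : ℂ) :
    th n τ k (w + (a + b * τ)) = aut n τ b w * th n τ k w := by
  have : w + (a + b * τ) = (w + b * τ) + a := by ring
  rw [this, th_add_int, th_add_int_tau]

lemma mem_lat {τ w : ℂ} : w ∈ lat τ ↔ ∃ a b : ℤ, w = a + b * τ := by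
  unfold lat
  rw [AddSubgroup.mem_closure_pair]
  constructor
  · rintro ⟨a, b, h⟩
    exact ⟨a, b, by rw [← h]; simp⟩
  · rintro ⟨a, b, h⟩
    exact ⟨a, b, by rw [h]; simp⟩

lemma aut_ne (n : ℕ) (τ : ℂ) (b : ℤ) (w : ℂ) : aut n τ b w ≠ 0 := exp_ne_zero _

lemma sec_add_lat {m n : ℕ} (τ : ℂ) (A : Mat m n) (X : Fin 2 → ℂ) (a b : ℤ) (w : ℂ) :
    sec τ A X (w + (a + b * τ)) = aut n τ b w • sec τ A X w := by
  funext r
  simp only [sec, emb, Pi.smul_apply, smul_eq_mul, th_add_lat, Finset.mul_sum]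
  exact Finset.sum_congr rfl fun i _ => Finset.sum_congr rfl fun k _ => by ring

lemma sec_smul {m n : ℕ} (τ : ℂ) (A : Mat m n) (c : ℂ) (X : Fin 2 → ℂ) (w : ℂ) :
    sec τ A (c • X) w = c ^ m • sec τ A X w := by
  funext r
  simp only [sec, emb, Pi.smul_apply, smul_eq_mul, Finset.mul_sum]
  refine Finset.sum_congr rfl fun i _ => Finset.sum_congr rfl fun k _ => ?_
  have : c ^ m = c ^ (i : ℕ) * c ^ (m - (i : ℕ)) := by
    rw [← pow_add]
    congr 1
    omega
  rw [this, mul_pow, mul_pow]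
  ring

lemma continuous_th {n : ℕ} {τ : ℂ} (hτ : 0 < τ.im) (k : Fin n) : Continuous (th n τ k) :=
  (differentiable_th (by have := k.pos; omega) hτ k).continuous

/-- Joint continuity of the section. -/
lemma continuous_sec {m n : ℕ} {τ : ℂ} (hτ : 0 < τ.im) :
    Continuous fun z : Mat m n × (Fin 2 → ℂ) × ℂ => sec τ z.1 z.2.1 z.2.2 := by
  refine continuous_pi fun r => ?_
  refine continuous_finsetSum _ fun i _ => continuous_finsetSum _ fun k _ => ?_
  unfold emb
  have h1 : Continuous fun z : Mat m n × (Fin 2 → ℂ) × ℂ => z.1 r i k := by fun_prop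
  have h2 : Continuous fun z : Mat m n × (Fin 2 → ℂ) × ℂ => z.2.1 0 := by fun_prop
  have h3 : Continuous fun z : Mat m n × (Fin 2 → ℂ) × ℂ => z.2.1 1 := by fun_prop
  have h4 : Continuous fun z : Mat m n × (Fin 2 → ℂ) × ℂ => th n τ k z.2.2 :=
    (continuous_th hτ k).comp (by fun_prop)
  exact h1.mul (((h2.pow _).mul (h3.pow _)).mul h4)

/-- Joint smoothness of the section in an affine chart. -/
lemma contDiff_sec {m n : ℕ} {τ : ℂ} (hτ : 0 < τ.im) (r : Fin 3) :
    ContDiff ℂ 1 fun z : Mat m n × ℂ × ℂ => sec τ z.1 ![z.2.1, 1] z.2.2 r := by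
  unfold sec emb
  refine ContDiff.sum fun i _ => ContDiff.sum fun k _ => ?_
  have h1 : ContDiff ℂ 1 fun z : Mat m n × ℂ × ℂ => z.1 r i k := by
    have : ContDiff ℂ 1 fun z : Mat m n => z r i k := by
      have e1 : ContDiff ℂ 1 fun z : Mat m n => z r := contDiff_apply ℂ _ r
      have e2 : ContDiff ℂ 1 fun z : Fin (m + 1) → Fin n → ℂ => z i := contDiff_apply ℂ _ i
      have e3 : ContDiff ℂ 1 fun z : Fin n → ℂ => z k := contDiff_apply ℂ _ k
      exact e3.comp (e2.comp e1)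
    exact this.comp contDiff_fst
  have h2 : ContDiff ℂ 1 fun z : Mat m n × ℂ × ℂ => z.2.1 := contDiff_fst.comp contDiff_snd
  have h4 : ContDiff ℂ 1 fun z : Mat m n × ℂ × ℂ => th n τ k z.2.2 :=
    (differentiable_th (by have := k.pos; omega) hτ k).contDiff.comp (contDiff_snd.comp contDiff_snd)
  simp only [Matrix.cons_val_zero, Matrix.cons_val_one, one_pow, mul_one]
  exact h1.mul ((h2.pow _).mul h4)

lemma differentiable_lin {n : ℕ} {τ : ℂ} (hτ : 0 < τ.im) (u : Fin n → ℂ) :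
    Differentiable ℂ (lin τ u) := by
  have h : ∀ k ∈ (Finset.univ : Finset (Fin n)), Differentiable ℂ fun w => u k * th n τ k w :=
    fun k _ => (differentiable_th (by have := k.pos; omega) hτ k).const_mul _
  exact Differentiable.fun_sum h

end Pool.Agent.Gal2c4b12
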