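import Pool.Agent.Lib.MP_2c4b12_ag.H66Sheets
import Pool.Agent.Lib.MP_2c4b12_ag.H66Log

/-!
# Topology of the surface `ℂP¹ × T`, continuity of the projection, covering `ℂ → T`
-/

namespace Pool.Agent.Gal2c4b12

open Complex unitInterval Filter Topology Set
open scoped LinearAlgebra.Projectivization

variable {m n : ℕ} {τ : ℂ}

lemma isQuotientMap_mk' (k : ℕ) :
    IsQuotientMap (Projectivization.mk' ℂ (V := Fin k → ℂ)) := by
  refine ⟨⟨rfl⟩, ?_⟩
  intro p
  exact ⟨⟨p.rep, p.rep_nonzero⟩, by rw [Projectivization.mk'_eq_mk]; exact p.mk_rep⟩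

lemma isOpenMap_mk' (k : ℕ) : IsOpenMap (Projectivization.mk' ℂ (V := Fin k → ℂ)) := by
  intro U hU
  rw [← (isQuotientMap_mk' k).isOpen_preimage]
  have : (Projectivization.mk' ℂ (V := Fin k → ℂ)) ⁻¹' ((Projectivization.mk' ℂ) '' U)
      = ⋃ c : ℂˣ, (fun v : NZ k => (⟨(c : ℂ) • v.1, smul_ne_zero c.ne_zero v.2⟩ : NZ k)) ⁻¹' U := by
    ext v
    simp only [mem_preimage, mem_image, mem_iUnion]
    constructor
    · rintro ⟨v', hv', h⟩
      rw [Projectivization.mk'_eq_mk, Projectivization.mk'_eq_mk,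
        Projectivization.mk_eq_mk_iff] at h
      obtain ⟨c, hc⟩ := h
      refine ⟨c, ?_⟩
      convert! hv'
    · rintro ⟨c, hc⟩
      refine ⟨_, hc, ?_⟩
      rw [Projectivization.mk'_eq_mk, Projectivization.mk'_eq_mk, Projectivization.mk_eq_mk_iff]
      exact ⟨c, rfl⟩
  rw [this]
  refine isOpen_iUnion fun c => hU.preimage ?_
  exact (continuous_subtype_val.const_smul (c : ℂ)).subtype_mk _

lemma isOpenQuotientMap_mk' (k : ℕ) :
    IsOpenQuotientMap (Projectivization.mk' ℂ (V := Fin k → ℂ)) :=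
  ⟨(isQuotientMap_mk' k).surjective, (isQuotientMap_mk' k).continuous, isOpenMap_mk' k⟩

lemma pmP_injective (k : ℕ) : Function.Injective (pmP (n := k)) := by
  intro p q h
  induction p using Projectivization.ind with
  | h v hv =>
    induction q using Projectivization.ind with
    | h v' hv' =>
      rw [pmP_mk, pmP_mk] at h
      have h1 : pa v v = v := by simpa using pa_self hv 1
      have h2 : pa v' v = v := by
        unfold pa at h1 ⊢
        rw [← h]
        exact h1
      rw [pa_eq] at h2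
      rw [Projectivization.mk_eq_mk_iff']
      exact ⟨_, h2⟩

instance (k : ℕ) : T2Space (ℙ ℂ (Fin k → ℂ)) :=
  T2Space.of_injective_continuous (pmP_injective k) continuous_pmP

/-- The projection in homogeneous coordinates does not depend on representatives. -/
lemma projMap_mk (A : Mat m n) (hA : CentreFree τ A) (X : Fin 2 → ℂ) (hX : X ≠ 0) (w : ℂ) :
    projMap τ A hA (Projectivization.mk ℂ X hX, (w : Tor τ))
      = Projectivization.mk ℂ (sec τ A X w) (hA X w hX) := by
  unfold projMap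
  simp only
  rw [Projectivization.mk_eq_mk_iff']
  obtain ⟨a, ha⟩ := Projectivization.exists_smul_eq_mk_rep ℂ X hX
  have h1 : ((w : Tor τ).out : Tor τ) = (w : Tor τ) := QuotientAddGroup.out_eq' _
  rw [QuotientAddGroup.eq] at h1
  obtain ⟨i, j, hij⟩ := mem_lat.1 h1
  have h2 : w = (w : Tor τ).out + (i + j * τ) := by rw [← hij]; ring
  have h3 : sec τ A X w = aut n τ j (w : Tor τ).out • sec τ A X (w : Tor τ).out := by
    conv_lhs => rw [h2]
    exact sec_add_lat τ A X i j _
  have hne := aut_ne n τ j (w : Tor τ).out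
  rw [← ha]
  refine ⟨(a : ℂ) ^ m * (aut n τ j (w : Tor τ).out)⁻¹, ?_⟩
  change _ = sec τ A ((a : ℂ) • X) _
  rw [sec_smul, h3, smul_smul, mul_assoc, inv_mul_cancel₀ hne, mul_one]

/-- `ℂ² ∖ 0 × ℂ → ℂP¹ × T` is an open quotient map. -/
lemma isOpenQuotientMap_surf (τ : ℂ) : IsOpenQuotientMap
    (Prod.map (Projectivization.mk' ℂ (V := Fin 2 → ℂ)) (QuotientAddGroup.mk : ℂ → Tor τ)) :=
  (isOpenQuotientMap_mk' 2).prodMap
    ⟨Quotient.mk_surjective, QuotientAddGroup.continuous_mk, QuotientAddGroup.isOpenMap_coe⟩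

lemma continuous_projMap (hτ : 0 < τ.im) (A : Mat m n) (hA : CentreFree τ A) :
    Continuous (projMap τ A hA) := by
  rw [(isOpenQuotientMap_surf τ).isQuotientMap.continuous_iff]
  have : projMap τ A hA ∘ (Prod.map (Projectivization.mk' ℂ) (QuotientAddGroup.mk : ℂ → Tor τ))
      = fun z : NZ 2 × ℂ => Projectivization.mk' ℂ
        (⟨sec τ A z.1.1 z.2, hA _ _ z.1.2⟩ : NZ 3) := by
    funext z
    obtain ⟨⟨X, hX⟩, w⟩ := z
    simp only [Function.comp, Prod.map, Projectivization.mk'_eq_mk]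
    exact projMap_mk A hA X hX w
  rw [this]
  refine continuous_mk'.comp ?_
  refine Continuous.subtype_mk ?_ _
  have h := continuous_sec (m := m) (n := n) hτ
  have h2 : Continuous fun z : NZ 2 × ℂ => ((A, z.1.1, z.2) : Mat m n × (Fin 2 → ℂ) × ℂ) :=
    continuous_const.prodMk ((continuous_subtype_val.comp continuous_fst).prodMk continuous_snd)
  exact h.comp h2

/-- Points of the Galois cover have equal images. -/
lemma same_of_mem_galCover (hτ : 0 < τ.im) (A : Mat m n) (hA : CentreFree τ A)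
    {x : Fin (2 * m * n) → Sur τ} (hx : x ∈ galCover τ A hA) (i j : Fin (2 * m * n)) :
    projMap τ A hA (x i) = projMap τ A hA (x j) := by
  have hcl : IsClosed {x : Fin (2 * m * n) → Sur τ |
      projMap τ A hA (x i) = projMap τ A hA (x j)} :=
    isClosed_eq ((continuous_projMap hτ A hA).comp (continuous_apply i))
      ((continuous_projMap hτ A hA).comp (continuous_apply j))
  exact closure_minimal (fun x hx => hx.2 i j) hcl hx

lemma isDiscrete_lat (hτ : 0 < τ.im) : IsDiscrete (lat τ : Set ℂ) := by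
  refine IsDiscrete.of_nhdsWithin fun x hx => ?_
  rw [le_pure_iff]
  have c1 : Continuous fun w : ℂ => w.im / τ.im := by fun_prop
  have c2 : Continuous fun w : ℂ => w.re - w.im / τ.im * τ.re := by fun_prop
  have h1 : {w : ℂ | |w.im / τ.im - x.im / τ.im| < 1} ∈ 𝓝 x :=
    (isOpen_lt (by fun_prop) continuous_const).mem_nhds (by simp)
  have h2 : {w : ℂ | |(w.re - w.im / τ.im * τ.re) - (x.re - x.im / τ.im * τ.re)| < 1} ∈ 𝓝 x :=
    (isOpen_lt (by fun_prop) continuous_const).mem_nhds (by simp)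
  obtain ⟨a, b, hab⟩ := mem_lat.1 hx
  filter_upwards [mem_nhdsWithin_of_mem_nhds h1, mem_nhdsWithin_of_mem_nhds h2,
    self_mem_nhdsWithin] with w hw1 hw2 hw
  obtain ⟨a', b', hab'⟩ := mem_lat.1 hw
  have him : τ.im ≠ 0 := hτ.ne'
  have e1 : w.im / τ.im = b' := by
    rw [hab']
    simp
    field_simp
  have e2 : x.im / τ.im = b := by
    rw [hab]
    simp
    field_simp
  have e3 : w.re = a' + b' * τ.re := by rw [hab']; simp
  have e4 : x.re = a + b * τ.re := by rw [hab]; simp
  change |w.im / τ.im - x.im / τ.im| < 1 at hw1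
  change |(w.re - w.im / τ.im * τ.re) - (x.re - x.im / τ.im * τ.re)| < 1 at hw2
  rw [e1, e2] at hw1
  rw [e1, e2, e3, e4] at hw2
  have hb : b' = b := by
    have : |b' - b| < 1 := by exact_mod_cast hw1
    have := Int.abs_lt_one_iff.1 this
    omega
  have ha : a' = a := by
    have h3 : |(a' : ℝ) - a| < 1 := by
      have : (a' : ℝ) + b' * τ.re - b' * τ.re - (a + b * τ.re - b * τ.re) = a' - a := by ring
      rwa [this] at hw2
    have : |a' - a| < 1 := by exact_mod_cast h3
    have := Int.abs_lt_one_iff.1 this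
    omega
  rw [mem_singleton_iff, hab, hab', ha, hb]

lemma isCoveringMap_tor (hτ : 0 < τ.im) :
    IsCoveringMap (QuotientAddGroup.mk : ℂ → Tor τ) :=
  ((lat τ).isAddQuotientCoveringMap_of_comm (isDiscrete_lat hτ)).isCoveringMap

/-- The point of the surface with affine coordinate `x` and `w` mod `Λ`. -/
noncomputable def pt (τ : ℂ) (y : ℂ × ℂ) : Sur τ :=
  (Projectivization.mk ℂ ![y.1, 1] (by simp), (y.2 : Tor τ))

lemma continuous_pt : Continuous (pt τ) := by
  unfold pt
  refine Continuous.prodMk ?_ ?_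
  · have : (fun y : ℂ × ℂ => Projectivization.mk ℂ ![y.1, 1] (by simp))
        = fun y : ℂ × ℂ => Projectivization.mk' ℂ (⟨![y.1, 1], by simp⟩ : NZ 2) := by
      funext y
      rw [Projectivization.mk'_eq_mk]
    rw [this]
    refine continuous_mk'.comp (Continuous.subtype_mk ?_ _)
    refine continuous_pi fun i => ?_
    fin_cases i
    · simpa using continuous_fst
    · simpa using continuous_const
  · exact QuotientAddGroup.continuous_mk.comp continuous_snd

lemma pt_eq_iff {y y' : ℂ × ℂ} : pt τ y = pt τ y' ↔ y.1 = y'.1 ∧ y.2 - y'.2 ∈ lat τ := by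
  unfold pt
  rw [Prod.mk.injEq]
  refine and_congr ?_ ?_
  · rw [Projectivization.mk_eq_mk_iff']
    constructor
    · rintro ⟨a, ha⟩
      have h0 := congrFun ha 0
      have h1 := congrFun ha 1
      simp at h0 h1
      rw [h1, one_mul] at h0
      exact h0.symm
    · intro h
      exact ⟨1, by rw [one_smul, h]⟩
  · rw [QuotientAddGroup.eq, ← neg_mem_iff]
    have : -(-y.2 + y'.2) = y.2 - y'.2 := by ring
    rw [this]

lemma projMap_pt (A : Mat m n) (hA : CentreFree τ A) {y y' : ℂ × ℂ}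
    (h : sec τ A ![y.1, 1] y.2 0 ≠ 0) (h' : sec τ A ![y'.1, 1] y'.2 0 ≠ 0)
    (hF : Fm τ (A, y) = Fm τ (A, y')) : projMap τ A hA (pt τ y) = projMap τ A hA (pt τ y') := by
  unfold pt
  rw [projMap_mk, projMap_mk, Projectivization.mk_eq_mk_iff']
  unfold Fm at hF
  simp only [Prod.mk.injEq] at hF
  obtain ⟨h1, h2⟩ := hF
  refine ⟨sec τ A ![y.1, 1] y.2 0 / sec τ A ![y'.1, 1] y'.2 0, ?_⟩
  funext r
  simp only [Pi.smul_apply, smul_eq_mul]
  fin_cases r
  · simp only [Fin.zero_eta]
    field_simp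
  · simp only [Fin.mk_one]
    rw [div_eq_div_iff h h'] at h1
    rw [div_mul_eq_mul_div, div_eq_iff h']
    linear_combination -h1
  · simp only [Fin.reduceFinMk]
    rw [div_eq_div_iff h h'] at h2
    rw [div_mul_eq_mul_div, div_eq_iff h']
    linear_combination -h2

end Pool.Agent.Gal2c4b12
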