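import Pool.Agent.Lib.MP_2c4b12_ag.H89Theta

open Complex

namespace MP2c4b12

/-- the second real coordinate -/
noncomputable def cB (τ : ℂ) (w : ℂ) : ℝ := w.im / τ.im
/-- the first real coordinate -/
noncomputable def cA (τ : ℂ) (w : ℂ) : ℝ := w.re - w.im / τ.im * τ.re

lemma cB_add (τ a b : ℂ) : cB τ (a + b) = cB τ a + cB τ b := by simp [cB, add_div]
lemma cA_add (τ a b : ℂ) : cA τ (a + b) = cA τ a + cA τ b := by simp [cA, add_div]; ring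
lemma cB_sub (τ a b : ℂ) : cB τ (a - b) = cB τ a - cB τ b := by simp [cB, sub_div]
lemma cA_sub (τ a b : ℂ) : cA τ (a - b) = cA τ a - cA τ b := by simp [cA, sub_div]; ring
lemma cB_real (τ : ℂ) (x : ℝ) : cB τ (x : ℂ) = 0 := by simp [cB]
lemma cA_real (τ : ℂ) (x : ℝ) : cA τ (x : ℂ) = x := by simp [cA]
lemma cB_tau {τ : ℂ} (hτ : 0 < τ.im) (x : ℝ) : cB τ ((x : ℂ) * τ) = x := by
  simp [cB, hτ.ne']
lemma cA_tau {τ : ℂ} (hτ : 0 < τ.im) (x : ℝ) : cA τ ((x : ℂ) * τ) = 0 := by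
  simp [cA, hτ.ne']

lemma exists_avoid (S : Set ℝ) (hS : S.Countable) : ∃ x : ℝ, x ∉ S := by
  by_contra hcon
  push Not at hcon
  exact Cardinal.not_countable_real ((Set.eq_univ_of_forall hcon) ▸ hS)

/-- conditions on a point -/
structure Good (k : ℕ) (τ z : ℂ) : Prop where
  h0ne : h0 k τ z ≠ 0
  wrne : Wr k τ z ≠ 0
  half : ∀ s a b : ℤ, 2 * z ≠ s / k + a + b * τ

def badSet (k : ℕ) (τ : ℂ) : Set ℂ :=
  {z | h0 k τ z = 0} ∪ ({z | Wr k τ z = 0} ∪ {z | ∃ s a b : ℤ, 2 * z = s / k + a + b * τ})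

lemma badSet_countable {k : ℕ} (hk : k ≠ 0) {τ : ℂ} (hτ : 0 < τ.im) : (badSet k τ).Countable := by
  obtain ⟨x, hx⟩ := exists_h0_ne_zero hk hτ
  obtain ⟨x', hx'⟩ := exists_Wr_ne_zero hk hτ
  refine (countable_zeros (h0_differentiable hk hτ) hx).union
    ((countable_zeros (Wr_differentiable hk hτ) hx').union ?_)
  have : {z : ℂ | ∃ s a b : ℤ, 2 * z = s / k + a + b * τ} ⊆
      Set.range (fun p : ℤ × ℤ × ℤ => ((p.1 : ℂ) / k + p.2.1 + p.2.2 * τ) / 2) := by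
    rintro z ⟨s, a, b, h⟩
    refine ⟨(s, a, b), ?_⟩
    simp only
    rw [← h]
    ring
  exact (Set.countable_range _).mono this

lemma good_of_not_mem {k : ℕ} {τ z : ℂ} (h : z ∉ badSet k τ) : Good k τ z := by
  simp only [badSet, Set.mem_union, Set.mem_ofPred_eq, not_or, not_exists] at h
  exact ⟨h.1, h.2.1, h.2.2⟩

lemma exists_choice {k : ℕ} (hk : k ≠ 0) {τ : ℂ} (hτ : 0 < τ.im) :
    ∃ z0 y0 : ℂ, Good k τ y0 ∧
      (∀ t : ℝ, Good k τ (z0 + t * 1) ∧ Rf k τ y0 (z0 + t * 1) ≠ 0) ∧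
      (∀ t : ℝ, Good k τ (z0 + t * τ) ∧ Rf k τ y0 (z0 + t * τ) ≠ 0) := by
  have hB := badSet_countable hk hτ
  obtain ⟨x, hx⟩ := exists_Th_ne_zero hk hτ
  have hZ := countable_zeros (Th_differentiable hk hτ) hx
  obtain ⟨α0, hα0⟩ := exists_avoid _ (hB.image (cA τ))
  obtain ⟨β0, hβ0⟩ := exists_avoid _ (hB.image (cB τ))
  obtain ⟨β1, hβ1⟩ := exists_avoid _ ((hB.image (cB τ)).union
    ((hZ.image (fun z => cB τ z - β0)).union (hZ.image (fun z => cB τ z + β0))))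
  obtain ⟨α1, hα1⟩ := exists_avoid _
    ((hZ.image (fun z => cA τ z - α0 - cA τ (1 / (2 * k)))).union
      (hZ.image (fun z => cA τ z + α0 - cA τ (1 / (2 * k)))))
  simp only [Set.mem_union, Set.mem_image, Set.mem_ofPred_eq, not_or, not_exists, not_and] at hα0 hβ0 hα1 hβ1
  have hδ : cB τ (1 / (2 * (k : ℂ))) = 0 := by
    have : (1 / (2 * (k : ℂ))) = ((1 / (2 * (k : ℝ)) : ℝ) : ℂ) := by push_cast; rfl
    rw [this, cB_real]
  have z0A : cA τ ((α0 : ℂ) + (β0 : ℂ) * τ) = α0 := by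
    rw [cA_add, cA_real, cA_tau hτ]; ring
  have z0B : cB τ ((α0 : ℂ) + (β0 : ℂ) * τ) = β0 := by
    rw [cB_add, cB_real, cB_tau hτ]; ring
  have y0A : cA τ ((α1 : ℂ) + (β1 : ℂ) * τ) = α1 := by
    rw [cA_add, cA_real, cA_tau hτ]; ring
  have y0B : cB τ ((α1 : ℂ) + (β1 : ℂ) * τ) = β1 := by
    rw [cB_add, cB_real, cB_tau hτ]; ring
  set z0 : ℂ := (α0 : ℂ) + (β0 : ℂ) * τ with hz0
  set y0 : ℂ := (α1 : ℂ) + (β1 : ℂ) * τ with hy0
  refine ⟨z0, y0, good_of_not_mem fun h => hβ1.1 _ h y0B, fun t => ⟨?_, ?_⟩, fun t => ⟨?_, ?_⟩⟩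
  · refine good_of_not_mem fun h => hβ0 _ h ?_
    rw [mul_one, cB_add, cB_real, z0B, add_zero]
  · rw [Rf_eq hk hτ]
    refine mul_ne_zero (fun h => ?_) (fun h => ?_)
    · refine hβ1.2.1 _ h ?_
      rw [mul_one, cB_add, cB_add, cB_add τ z0, cB_real, z0B, y0B, hδ]
      ring
    · refine hβ1.2.2 _ h ?_
      rw [mul_one, cB_add, cB_sub, cB_add τ z0, cB_real, z0B, y0B, hδ]
      ring
  · refine good_of_not_mem fun h => hα0 _ h ?_
    rw [cA_add, cA_tau hτ, z0A, add_zero]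
  · rw [Rf_eq hk hτ]
    refine mul_ne_zero (fun h => ?_) (fun h => ?_)
    · refine hα1.1 _ h ?_
      rw [cA_add, cA_add, cA_add τ z0, cA_tau hτ, z0A, y0A]
      ring
    · refine hα1.2 _ h ?_
      rw [cA_add, cA_sub, cA_add τ z0, cA_tau hτ, z0A, y0A]
      ring

end MP2c4b12
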