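import Pool.Agent.Lib.MP_2c4b12_ag.H89Choice
import Pool.Agent.Lib.MP_2c4b12_ag.H66Theta

/-!
# The pencil of even theta functions of degree `2 k`
-/

open Complex unitInterval
open Pool.Agent.Gal2c4b12

namespace MP2c4b12

variable {k : ℕ} {τ : ℂ}

lemma th_eq_theta (n : ℕ) (τ : ℂ) (j : Fin n) (w : ℂ) : th n τ j w = theta n τ j w := rfl

/-- the sign of a sheet -/
def sg (s : Fin 2) : ℤ := if s = 0 then 1 else -1

lemma sg_cases (s : Fin 2) : sg s = 1 ∨ sg s = -1 := by
  unfold sg; split_ifs <;> simp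

/-- sheets over `z` -/
noncomputable def sh (k : ℕ) (j : Fin 2 × Fin k) (z : ℂ) : ℂ := (sg j.1 : ℂ) * z + (j.2 : ℕ) / k

lemma h0_nat (hk : k ≠ 0) (l : ℕ) (w : ℂ) : h0 k τ (w + l / k) = h0 k τ w := by
  induction l with
  | zero => simp
  | succ l ih =>
    have : w + ((l + 1 : ℕ) : ℂ) / k = (w + l / k) + 1 / k := by push_cast; ring
    rw [this, h0_inv hk, ih]

lemma h1_nat (hk : k ≠ 0) (l : ℕ) (w : ℂ) : h1 k τ (w + l / k) = h1 k τ w := by
  induction l with
  | zero => simp
  | succ l ih =>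
    have : w + ((l + 1 : ℕ) : ℂ) / k = (w + l / k) + 1 / k := by push_cast; ring
    rw [this, h1_inv hk, ih]

lemma h0_sh (hk : k ≠ 0) (j : Fin 2 × Fin k) (z : ℂ) : h0 k τ (sh k j z) = h0 k τ z := by
  rw [sh, h0_nat hk]
  rcases sg_cases j.1 with h | h
  · rw [h]; simp
  · rw [h]
    have : ((-1 : ℤ) : ℂ) * z = -z := by push_cast; ring
    rw [this, h0_neg hk]

lemma h1_sh (hk : k ≠ 0) (j : Fin 2 × Fin k) (z : ℂ) : h1 k τ (sh k j z) = h1 k τ z := by
  rw [sh, h1_nat hk]
  rcases sg_cases j.1 with h | h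
  · rw [h]; simp
  · rw [h]
    have : ((-1 : ℤ) : ℂ) * z = -z := by push_cast; ring
    rw [this, h1_neg hk]

lemma hasDerivAt_sh (j : Fin 2 × Fin k) (z : ℂ) : HasDerivAt (sh k j) (sg j.1 : ℂ) z := by
  have := ((hasDerivAt_id z).const_mul (sg j.1 : ℂ)).add_const ((j.2 : ℕ) / (k : ℂ))
  rw [mul_one] at this
  exact this

lemma deriv_sh {f : ℂ → ℂ} (hf : Differentiable ℂ f) (j : Fin 2 × Fin k)
    (h : ∀ z, f (sh k j z) = f z) (z : ℂ) : deriv f (sh k j z) = sg j.1 * deriv f z := by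
  have h1 : HasDerivAt (fun z => f (sh k j z)) (deriv f (sh k j z) * sg j.1) z :=
    (hf (sh k j z)).hasDerivAt.comp z (hasDerivAt_sh j z)
  have h2 : (fun z => f (sh k j z)) = f := funext h
  rw [h2] at h1
  have h3 := h1.unique (hf z).hasDerivAt
  rcases sg_cases j.1 with h4 | h4
  · rw [h4] at h3 ⊢
    rw [← h3]; simp
  · rw [h4] at h3 ⊢
    rw [← h3]; simp

lemma simple_sh (hk : k ≠ 0) (hτ : 0 < τ.im) (j : Fin 2 × Fin k) {z : ℂ} (hz : Good k τ z) :
    deriv (h1 k τ) (sh k j z) ≠ h1 k τ z / h0 k τ z * deriv (h0 k τ) (sh k j z) := by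
  rw [deriv_sh (h1_differentiable hk hτ) j (h1_sh hk j), deriv_sh (h0_differentiable hk hτ) j
    (h0_sh hk j)]
  intro h
  apply hz.wrne
  have h0ne := hz.h0ne
  have hs : (sg j.1 : ℂ) ≠ 0 := by rcases sg_cases j.1 with h4 | h4 <;> rw [h4] <;> norm_num
  rw [Wr]
  have h5 : (sg j.1 : ℂ) * (h0 k τ z * deriv (h1 k τ) z - h1 k τ z * deriv (h0 k τ) z) = 0 := by
    field_simp at h
    linear_combination (sg j.1 : ℂ) * h
  rcases mul_eq_zero.mp h5 with h6 | h6
  · exact absurd h6 hs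
  · exact h6

lemma dist_sh (hk : k ≠ 0) (hτ : 0 < τ.im) {z : ℂ} (hz : Good k τ z) {j j' : Fin 2 × Fin k}
    (hj : j ≠ j') : sh k j z - sh k j' z ∉ lat τ := by
  intro hmem
  obtain ⟨a, b, hab⟩ := mem_lat.mp hmem
  have hk' : (k : ℂ) ≠ 0 := Nat.cast_ne_zero.mpr hk
  simp only [sh] at hab
  by_cases hs : j.1 = j'.1
  · rw [hs] at hab
    have h1 : ((j.2 : ℕ) : ℂ) / k - ((j'.2 : ℕ) : ℂ) / k = a + b * τ := by
      rw [← hab]; ring
    have hre : ((((j.2 : ℕ) : ℝ) / k - ((j'.2 : ℕ) : ℝ) / k : ℝ) : ℂ) = a + b * τ := by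
      rw [← h1]; push_cast; rfl
    have him := congrArg Complex.im hre
    simp only [Complex.ofReal_im, Complex.add_im, Complex.intCast_im, Complex.mul_im,
      Complex.intCast_re, zero_mul, add_zero, zero_add] at him
    have hb : b = 0 := by
      rcases mul_eq_zero.mp him.symm with h | h
      · exact_mod_cast h
      · exact absurd h hτ.ne'
    rw [hb] at h1
    simp only [Int.cast_zero, zero_mul, add_zero] at h1
    field_simp at h1
    have h2 : ((j.2 : ℕ) : ℤ) - ((j'.2 : ℕ) : ℤ) = k * a := by exact_mod_cast h1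
    have hlt := j.2.2
    have hlt' := j'.2.2
    have h3 : a = 0 := by
      by_contra ha
      rcases lt_or_gt_of_ne ha with h | h
      · have : (k : ℤ) * a ≤ -k := by nlinarith
        omega
      · have : (k : ℤ) ≤ k * a := by nlinarith
        omega
    rw [h3] at h2
    apply hj
    refine Prod.ext hs (Fin.ext ?_)
    omega
  · -- opposite signs
    have hopp : sg j'.1 = - sg j.1 := by
      unfold sg
      have h0 := Fin.exists_fin_two.mp ⟨j.1, rfl⟩
      have h0' := Fin.exists_fin_two.mp ⟨j'.1, rfl⟩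
      rcases h0 with h0 | h0 <;> rcases h0' with h0' | h0' <;> simp_all
    rw [hopp] at hab
    rcases sg_cases j.1 with h4 | h4
    · rw [h4] at hab
      apply hz.half (((j'.2 : ℕ) : ℤ) - ((j.2 : ℕ) : ℤ)) a b
      push_cast at hab ⊢
      linear_combination hab
    · rw [h4] at hab
      apply hz.half (((j.2 : ℕ) : ℤ) - ((j'.2 : ℕ) : ℤ)) (-a) (-b)
      push_cast at hab ⊢
      linear_combination -hab

/-- the direction of the loop -/
def dir (τ : ℂ) (c : Fin 2) : ℂ := if c = 0 then 1 else τ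

theorem exists_pencil_even (hk : k ≠ 0) (hτ : 0 < τ.im) : Nonempty (Pencil (2 * k) τ) := by
  obtain ⟨z0, y0, hy0, hA, hB⟩ := exists_choice hk hτ
  have hG : ∀ (c : Fin 2) (t : ℝ), Good k τ (z0 + t * dir τ c) ∧
      Rf k τ y0 (z0 + t * dir τ c) ≠ 0 := by
    intro c t
    unfold dir
    split_ifs
    · exact hA t
    · exact hB t
  have hper : ∀ c : Fin 2, ∀ w, h1 k τ (w + dir τ c) / h0 k τ (w + dir τ c) =
      h1 k τ w / h0 k τ w := by
    intro c w
    have h2 : 2 * k ≠ 0 := mul_ne_zero two_ne_zero hk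
    unfold dir h0 h1
    split_ifs
    · rw [theta_add_one _ h2, theta_add_one _ h2]
    · rw [theta_add_tau _ h2, theta_add_tau _ h2]
      exact mul_div_mul_left _ _ (Complex.exp_ne_zero _)
  have c0 := (h0_differentiable hk hτ).continuous
  have c1 := (h1_differentiable hk hτ).continuous
  have cz : ∀ c : Fin 2, Continuous fun t : I => z0 + ((t : ℝ) : ℂ) * dir τ c := fun c => by
    fun_prop
  let i0 : Fin (2 * k) := ⟨0, by omega⟩
  let ik : Fin (2 * k) := ⟨k, by omega⟩
  have l0 : lin τ (Pi.single i0 (1 : ℂ)) = h0 k τ := by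
    funext w
    simp only [lin, Pi.single_apply, ite_mul, one_mul, zero_mul]
    rw [Finset.sum_ite_eq' Finset.univ i0]
    simp only [Finset.mem_univ, if_true]
    rfl
  have l1 : lin τ (Pi.single ik (1 : ℂ)) = h1 k τ := by
    funext w
    simp only [lin, Pi.single_apply, ite_mul, one_mul, zero_mul]
    rw [Finset.sum_ite_eq' Finset.univ ik]
    simp only [Finset.mem_univ, if_true]
    rfl
  let e : Fin (2 * k) ≃ Fin 2 × Fin k := finProdFinEquiv.symm
  have hkpos : 0 < k := Nat.pos_of_ne_zero hk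
  refine ⟨{
    u := ![Pi.single i0 1, Pi.single ik 1]
    nocommon := fun w => ?_
    p := fun c => ⟨fun t => h1 k τ (z0 + ((t : ℝ) : ℂ) * dir τ c) /
      h0 k τ (z0 + ((t : ℝ) : ℂ) * dir τ c), ?_⟩
    p_base := ?_
    p_closed := fun c => ?_
    w := fun c j => ⟨fun t => sh k (e j) (z0 + ((t : ℝ) : ℂ) * dir τ c), ?_⟩
    w_eq := fun c j t => ?_
    w_ne := fun c j t => ?_
    w_simple := fun c j t => ?_
    w_dist := fun c t j j' hj => ?_
    w_start := fun j => ?_
    ε := fun j => sg (e j).1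
    w_end0 := fun j => ?_
    w_end1 := fun j => ?_
    j₀ := e.symm (0, ⟨0, hkpos⟩)
    ε_j₀ := ?_
    q := h1 k τ y0 / h0 k τ y0
    q_ne := fun c t => ?_
    v := fun j => sh k (e j) y0
    v_eq := fun j => ?_
    v_ne := fun j => ?_
    v_simple := fun j => ?_
    v_dist := fun j j' hj => ?_ }⟩
  · simp only [Matrix.cons_val_zero, Matrix.cons_val_one]
    rw [l0, l1]
    by_contra hcon
    push Not at hcon
    exact h_no_common_zero hk hτ w hcon.1 hcon.2
  · exact (c1.comp (cz c)).div (c0.comp (cz c)) fun t => (hG c t).1.h0ne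
  · simp
  · simp only [ContinuousMap.coe_mk, Set.Icc.coe_one, Set.Icc.coe_zero, ofReal_one, one_mul,
      ofReal_zero, zero_mul, add_zero]
    exact hper c z0
  · unfold sh
    fun_prop
  · simp only [Matrix.cons_val_zero, Matrix.cons_val_one, ContinuousMap.coe_mk]
    rw [l0, l1, h0_sh hk, h1_sh hk]
    have := (hG c t).1.h0ne
    field_simp
  · simp only [Matrix.cons_val_zero, ContinuousMap.coe_mk]
    rw [l0, h0_sh hk]
    exact (hG c t).1.h0ne
  · simp only [Matrix.cons_val_zero, Matrix.cons_val_one, ContinuousMap.coe_mk]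
    rw [l0, l1]
    exact simple_sh hk hτ _ (hG c t).1
  · simp only [ContinuousMap.coe_mk]
    exact dist_sh hk hτ (hG c t).1 fun h => hj (e.injective h)
  · simp
  · simp only [ContinuousMap.coe_mk, Set.Icc.coe_one, Set.Icc.coe_zero, ofReal_one, one_mul,
      ofReal_zero, zero_mul, add_zero, sh, dir, if_true]
    ring
  · simp only [ContinuousMap.coe_mk, Set.Icc.coe_one, Set.Icc.coe_zero, ofReal_one, one_mul,
      ofReal_zero, zero_mul, add_zero, sh, dir]
    simp only [Fin.isValue, one_ne_zero, if_false]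
    ring
  · simp [sg]
  · simp only [ContinuousMap.coe_mk]
    intro h
    apply (hG c t).2
    have a1 := (hG c t).1.h0ne
    have a2 := hy0.h0ne
    rw [div_eq_div_iff a1 a2] at h
    rw [Rf]
    linear_combination h
  · simp only [Matrix.cons_val_zero, Matrix.cons_val_one]
    rw [l0, l1, h0_sh hk, h1_sh hk]
    have := hy0.h0ne
    field_simp
  · simp only [Matrix.cons_val_zero]
    rw [l0, h0_sh hk]
    exact hy0.h0ne
  · simp only [Matrix.cons_val_zero, Matrix.cons_val_one]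
    rw [l0, l1]
    exact simple_sh hk hτ _ hy0
  · exact dist_sh hk hτ hy0 fun h => hj (e.injective h)

theorem exists_pencil (τ : ℂ) (hτ : 0 < τ.im) (n : ℕ) (hn : Even n) (h2 : 2 ≤ n) :
    Nonempty (Pencil n τ) := by
  obtain ⟨k, rfl⟩ := even_iff_two_dvd.mp hn
  exact exists_pencil_even (by omega) hτ

end MP2c4b12
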