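import Mathlib

/-!
# Theta functions of even degree: no common zeros, resultant, Wronskian
-/

open Complex

namespace MP2c4b12

/-- The classical theta function of degree `n` and characteristic `j / n`. -/
noncomputable def theta (n : ℕ) (τ : ℂ) (j : ℕ) (w : ℂ) : ℂ :=
  ∑' l : ℤ, cexp (Real.pi * I * n * τ * (l + j / n) ^ 2 + 2 * Real.pi * I * n * (l + j / n) * w)

lemma theta_eq (n : ℕ) (hn : n ≠ 0) (τ : ℂ) (j : ℕ) (w : ℂ) :
    theta n τ j w = cexp (Real.pi * I * τ * j ^ 2 / n + 2 * Real.pi * I * j * w) *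
      jacobiTheta₂ (n * w + j * τ) (n * τ) := by
  have hn' : (n : ℂ) ≠ 0 := Nat.cast_ne_zero.mpr hn
  rw [theta, jacobiTheta₂, ← tsum_mul_left]
  refine tsum_congr fun l => ?_
  rw [jacobiTheta₂_term, ← Complex.exp_add]
  congr 1
  field_simp
  ring

lemma im_nat_mul {n : ℕ} (hn : n ≠ 0) {τ : ℂ} (hτ : 0 < τ.im) : 0 < ((n : ℂ) * τ).im := by
  have : (0 : ℝ) < n := by positivity
  simp only [mul_im, natCast_re, natCast_im, zero_mul, add_zero]
  positivity

lemma theta_differentiable {n : ℕ} (hn : n ≠ 0) {τ : ℂ} (hτ : 0 < τ.im) (j : ℕ) :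
    Differentiable ℂ (theta n τ j) := by
  have h : theta n τ j = fun w => cexp (Real.pi * I * τ * j ^ 2 / n + 2 * Real.pi * I * j * w) *
      jacobiTheta₂ (n * w + j * τ) (n * τ) := funext fun w => theta_eq n hn τ j w
  rw [h]
  intro w
  have h1 : DifferentiableAt ℂ (fun w : ℂ => jacobiTheta₂ (n * w + j * τ) (n * τ)) w :=
    DifferentiableAt.comp w (g := fun z => jacobiTheta₂ z (n * τ))
      (differentiableAt_jacobiTheta₂_fst (n * w + j * τ) (im_nat_mul hn hτ))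
      (by fun_prop)
  have h2 : DifferentiableAt ℂ
      (fun w : ℂ => cexp (Real.pi * I * τ * j ^ 2 / n + 2 * Real.pi * I * j * w)) w := by fun_prop
  exact h2.mul h1

lemma theta_add_one (n : ℕ) (hn : n ≠ 0) (τ : ℂ) (j : ℕ) (w : ℂ) :
    theta n τ j (w + 1) = theta n τ j w := by
  have hn' : (n : ℂ) ≠ 0 := Nat.cast_ne_zero.mpr hn
  rw [theta, theta]
  refine tsum_congr fun l => ?_
  have : (Real.pi * I * n * τ * (l + j / n) ^ 2 + 2 * Real.pi * I * n * (l + j / n) * (w + 1) : ℂ)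
      = (Real.pi * I * n * τ * (l + j / n) ^ 2 + 2 * Real.pi * I * n * (l + j / n) * w) +
        ((n * l + j : ℤ) : ℂ) * (2 * Real.pi * I) := by
    push_cast
    field_simp
    ring
  rw [this, Complex.exp_add, Complex.exp_int_mul_two_pi_mul_I, mul_one]

/-- the factor of automorphy for the period `τ` -/
noncomputable def eT (n : ℕ) (τ w : ℂ) : ℂ := cexp (-(Real.pi * I * n * τ) - 2 * Real.pi * I * n * w)

lemma theta_add_tau (n : ℕ) (hn : n ≠ 0) (τ : ℂ) (j : ℕ) (w : ℂ) :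
    theta n τ j (w + τ) = eT n τ w * theta n τ j w := by
  have hn' : (n : ℂ) ≠ 0 := Nat.cast_ne_zero.mpr hn
  rw [theta_eq n hn, theta_eq n hn]
  have : (n : ℂ) * (w + τ) + j * τ = (n * w + j * τ) + n * τ := by ring
  rw [this, jacobiTheta₂_add_left', eT, ← mul_assoc, ← mul_assoc, ← Complex.exp_add,
    ← Complex.exp_add]
  congr 2
  ring

/-! ### The two even functions of degree `2 k` -/

/-- general term -/
noncomputable def tT (k : ℕ) (τ : ℂ) (r : ℤ) (y : ℂ) : ℂ :=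
  cexp (Real.pi * I * (k * τ) * r ^ 2 / 2 + 2 * Real.pi * I * k * r * y)

noncomputable def sT (k : ℕ) (τ : ℂ) (a : ℤ) (x : ℂ) : ℂ :=
  cexp (Real.pi * I * (k * τ) * (a + 1 / 2) ^ 2 + 2 * Real.pi * I * k * (a + 1 / 2) * x)

noncomputable def h0 (k : ℕ) (τ : ℂ) (w : ℂ) : ℂ := theta (2 * k) τ 0 w
noncomputable def h1 (k : ℕ) (τ : ℂ) (w : ℂ) : ℂ := theta (2 * k) τ k w
noncomputable def Th (k : ℕ) (τ : ℂ) (x : ℂ) : ℂ := ∑' a : ℤ, sT k τ a x

lemma h0_eq (k : ℕ) (hk : k ≠ 0) (τ w : ℂ) : h0 k τ w = ∑' l : ℤ, tT k τ (2 * l) w := by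
  have hk' : (k : ℂ) ≠ 0 := Nat.cast_ne_zero.mpr hk
  rw [h0, theta]
  refine tsum_congr fun l => ?_
  rw [tT]
  congr 1
  push_cast
  field_simp
  ring

lemma h1_eq (k : ℕ) (hk : k ≠ 0) (τ w : ℂ) : h1 k τ w = ∑' l : ℤ, tT k τ (2 * l + 1) w := by
  have hk' : (k : ℂ) ≠ 0 := Nat.cast_ne_zero.mpr hk
  rw [h1, theta]
  refine tsum_congr fun l => ?_
  rw [tT]
  congr 1
  push_cast
  field_simp

lemma summable_norm_sT {k : ℕ} (hk : k ≠ 0) {τ : ℂ} (hτ : 0 < τ.im) (x : ℂ) :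
    Summable fun a => ‖sT k τ a x‖ := by
  have h := ((summable_jacobiTheta₂_term_iff (k * x + k * τ / 2) (k * τ)).mpr
    (im_nat_mul hk hτ)).norm
  have h2 := h.mul_left ‖cexp (Real.pi * I * (k * τ) / 4 + Real.pi * I * k * x)‖
  refine h2.congr fun a => ?_
  rw [← norm_mul, jacobiTheta₂_term, ← Complex.exp_add, sT]
  congr 2
  ring

lemma summable_norm_tT_even {k : ℕ} (hk : k ≠ 0) {τ : ℂ} (hτ : 0 < τ.im) (y : ℂ) :
    Summable fun l : ℤ => ‖tT k τ (2 * l) y‖ := by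
  have h := ((summable_jacobiTheta₂_term_iff (2 * k * y) (2 * k * τ)).mpr
    (by simpa [mul_assoc] using im_nat_mul hk hτ)).norm
  refine h.congr fun a => ?_
  rw [jacobiTheta₂_term, tT]
  congr 2
  push_cast
  ring

lemma summable_norm_tT_odd {k : ℕ} (hk : k ≠ 0) {τ : ℂ} (hτ : 0 < τ.im) (y : ℂ) :
    Summable fun l : ℤ => ‖tT k τ (2 * l + 1) y‖ := by
  have h := ((summable_jacobiTheta₂_term_iff (2 * k * y + k * τ) (2 * k * τ)).mpr
    (by simpa [mul_assoc] using im_nat_mul hk hτ)).norm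
  have h2 := h.mul_left ‖cexp (Real.pi * I * (k * τ) / 2 + 2 * Real.pi * I * k * y)‖
  refine h2.congr fun a => ?_
  rw [← norm_mul, jacobiTheta₂_term, ← Complex.exp_add, tT]
  congr 2
  push_cast
  ring

/-- the change of indices -/
def idxEquiv : (ℤ × ℤ) ⊕ (ℤ × ℤ) ≃ ℤ × ℤ where
  toFun p := match p with
    | Sum.inl (r, s) => (r + s, r - s)
    | Sum.inr (r, s) => (r + s, r - s - 1)
  invFun p := if (p.1 - p.2) % 2 = 0 then Sum.inl ((p.1 + p.2) / 2, (p.1 - p.2) / 2)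
    else Sum.inr ((p.1 + p.2 + 1) / 2, (p.1 - p.2 - 1) / 2)
  left_inv p := by
    rcases p with ⟨r, s⟩ | ⟨r, s⟩
    · have h1 : (r + s - (r - s)) % 2 = 0 := by omega
      simp only [h1, if_true]
      congr 2 <;> omega
    · have h1 : ¬ (r + s - (r - s - 1)) % 2 = 0 := by omega
      simp only [h1, if_false]
      congr 2 <;> omega
  right_inv p := by
    rcases p with ⟨a, b⟩
    by_cases h : (a - b) % 2 = 0
    · simp only [h, if_true]
      ext <;> simp only <;> omega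
    · simp only [h, if_false]
      ext <;> simp only <;> omega

lemma sT_mul_sT (k : ℕ) (τ : ℂ) (a b : ℤ) (y z : ℂ) :
    sT k τ a (y + z) * sT k τ b (y - z) = tT k τ (a + b + 1) y * tT k τ (a - b) z := by
  rw [sT, sT, tT, tT, ← Complex.exp_add, ← Complex.exp_add]
  congr 1
  push_cast
  ring

lemma tsum_split (G : (ℤ × ℤ) ⊕ (ℤ × ℤ) → ℂ) (hG : Summable G) :
    ∑' q, G q = ∑' q, G (Sum.inl q) + ∑' q, G (Sum.inr q) :=
  Summable.tsum_sum (hG.comp_injective Sum.inl_injective) (hG.comp_injective Sum.inr_injective)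

lemma theta_identity {k : ℕ} (hk : k ≠ 0) {τ : ℂ} (hτ : 0 < τ.im) (y z : ℂ) :
    h1 k τ y * h0 k τ z + h0 k τ y * h1 k τ z = Th k τ (y + z) * Th k τ (y - z) := by
  have hs : Summable fun p : ℤ × ℤ => sT k τ p.1 (y + z) * sT k τ p.2 (y - z) :=
    summable_mul_of_summable_norm (f := fun a => sT k τ a (y + z))
      (g := fun b => sT k τ b (y - z)) (summable_norm_sT hk hτ _) (summable_norm_sT hk hτ _)
  have e1 : Th k τ (y + z) * Th k τ (y - z) =
      ∑' p : ℤ × ℤ, sT k τ p.1 (y + z) * sT k τ p.2 (y - z) := by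
    rw [Th, Th, tsum_mul_tsum_of_summable_norm (summable_norm_sT hk hτ _)
      (summable_norm_sT hk hτ _)]
  set F : ℤ × ℤ → ℂ := fun p => sT k τ p.1 (y + z) * sT k τ p.2 (y - z) with hF
  have hs' : Summable (F ∘ idxEquiv) := idxEquiv.summable_iff.mpr hs
  have e2 : ∑' p, F p = ∑' q, (F ∘ idxEquiv) q := (idxEquiv.tsum_eq F).symm
  have e3 : ∑' q, (F ∘ idxEquiv) q = ∑' q, (F ∘ idxEquiv) (Sum.inl q) +
      ∑' q, (F ∘ idxEquiv) (Sum.inr q) := tsum_split _ hs'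
  have e4 : h1 k τ y * h0 k τ z = ∑' q, (F ∘ idxEquiv) (Sum.inl q) := by
    rw [h1_eq k hk, h0_eq k hk, tsum_mul_tsum_of_summable_norm (summable_norm_tT_odd hk hτ _)
      (summable_norm_tT_even hk hτ _)]
    refine tsum_congr fun q => ?_
    have : (F ∘ idxEquiv) (Sum.inl q) = sT k τ (q.1 + q.2) (y + z) * sT k τ (q.1 - q.2) (y - z) :=
      rfl
    rw [this, sT_mul_sT]
    congr 2 <;> ring
  have e5 : h0 k τ y * h1 k τ z = ∑' q, (F ∘ idxEquiv) (Sum.inr q) := by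
    rw [h1_eq k hk, h0_eq k hk, tsum_mul_tsum_of_summable_norm (summable_norm_tT_even hk hτ _)
      (summable_norm_tT_odd hk hτ _)]
    refine tsum_congr fun q => ?_
    have : (F ∘ idxEquiv) (Sum.inr q) =
        sT k τ (q.1 + q.2) (y + z) * sT k τ (q.1 - q.2 - 1) (y - z) := rfl
    rw [this, sT_mul_sT]
    congr 2 <;> ring
  rw [e1, e2, e3, e4, e5]

/-! ### symmetries -/

lemma h0_neg {k : ℕ} (hk : k ≠ 0) (τ w : ℂ) : h0 k τ (-w) = h0 k τ w := by
  rw [h0_eq k hk, h0_eq k hk, ← (Equiv.neg ℤ).tsum_eq]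
  refine tsum_congr fun l => ?_
  rw [tT, tT]
  congr 1
  simp only [Equiv.neg_apply]
  push_cast
  ring

lemma h1_neg {k : ℕ} (hk : k ≠ 0) (τ w : ℂ) : h1 k τ (-w) = h1 k τ w := by
  rw [h1_eq k hk, h1_eq k hk, ← (Equiv.subLeft (-1 : ℤ)).tsum_eq]
  refine tsum_congr fun l => ?_
  rw [tT, tT]
  congr 1
  simp only [Equiv.subLeft_apply]
  push_cast
  ring

lemma h0_half {k : ℕ} (hk : k ≠ 0) (τ w : ℂ) : h0 k τ (w + 1 / (2 * k)) = h0 k τ w := by
  have hk' : (k : ℂ) ≠ 0 := Nat.cast_ne_zero.mpr hk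
  rw [h0_eq k hk, h0_eq k hk]
  refine tsum_congr fun l => ?_
  rw [tT, tT]
  have : (Real.pi * I * (k * τ) * ((2 * l : ℤ) : ℂ) ^ 2 / 2 +
      2 * Real.pi * I * k * ((2 * l : ℤ) : ℂ) * (w + 1 / (2 * k)) : ℂ)
      = (Real.pi * I * (k * τ) * ((2 * l : ℤ) : ℂ) ^ 2 / 2 +
      2 * Real.pi * I * k * ((2 * l : ℤ) : ℂ) * w) + (l : ℂ) * (2 * Real.pi * I) := by
    push_cast
    field_simp
    ring
  rw [this, Complex.exp_add, Complex.exp_int_mul_two_pi_mul_I, mul_one]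

lemma h1_half {k : ℕ} (hk : k ≠ 0) (τ w : ℂ) : h1 k τ (w + 1 / (2 * k)) = - h1 k τ w := by
  have hk' : (k : ℂ) ≠ 0 := Nat.cast_ne_zero.mpr hk
  rw [h1_eq k hk, h1_eq k hk, ← tsum_neg]
  refine tsum_congr fun l => ?_
  rw [tT, tT]
  have : (Real.pi * I * (k * τ) * ((2 * l + 1 : ℤ) : ℂ) ^ 2 / 2 +
      2 * Real.pi * I * k * ((2 * l + 1 : ℤ) : ℂ) * (w + 1 / (2 * k)) : ℂ)
      = (Real.pi * I * (k * τ) * ((2 * l + 1 : ℤ) : ℂ) ^ 2 / 2 +
      2 * Real.pi * I * k * ((2 * l + 1 : ℤ) : ℂ) * w) + (l : ℂ) * (2 * Real.pi * I) +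
      Real.pi * I := by
    push_cast
    field_simp
    ring
  rw [this, Complex.exp_add, Complex.exp_add, Complex.exp_int_mul_two_pi_mul_I,
    Complex.exp_pi_mul_I]
  ring

lemma h0_inv {k : ℕ} (hk : k ≠ 0) (τ w : ℂ) : h0 k τ (w + 1 / k) = h0 k τ w := by
  have hk' : (k : ℂ) ≠ 0 := Nat.cast_ne_zero.mpr hk
  have : w + 1 / (k : ℂ) = (w + 1 / (2 * k)) + 1 / (2 * k) := by field_simp; ring
  rw [this, h0_half hk, h0_half hk]

lemma h1_inv {k : ℕ} (hk : k ≠ 0) (τ w : ℂ) : h1 k τ (w + 1 / k) = h1 k τ w := by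
  have hk' : (k : ℂ) ≠ 0 := Nat.cast_ne_zero.mpr hk
  have : w + 1 / (k : ℂ) = (w + 1 / (2 * k)) + 1 / (2 * k) := by field_simp; ring
  rw [this, h1_half hk, h1_half hk, neg_neg]

/-- the resultant -/
noncomputable def Rf (k : ℕ) (τ y z : ℂ) : ℂ := h0 k τ y * h1 k τ z - h1 k τ y * h0 k τ z

lemma Rf_eq {k : ℕ} (hk : k ≠ 0) {τ : ℂ} (hτ : 0 < τ.im) (y z : ℂ) :
    Rf k τ y z = Th k τ (y + z + 1 / (2 * k)) * Th k τ (y - z + 1 / (2 * k)) := by
  have h := theta_identity hk hτ (y + 1 / (2 * k)) z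
  rw [h0_half hk, h1_half hk] at h
  rw [Rf]
  have e1 : y + 1 / (2 * (k : ℂ)) + z = y + z + 1 / (2 * k) := by ring
  have e2 : y + 1 / (2 * (k : ℂ)) - z = y - z + 1 / (2 * k) := by ring
  rw [e1, e2] at h
  rw [← h]
  ring

lemma Th_eq {k : ℕ} (τ x : ℂ) : Th k τ x =
    cexp (Real.pi * I * (k * τ) / 4 + Real.pi * I * k * x) *
      jacobiTheta₂ (k * x + k * τ / 2) (k * τ) := by
  rw [Th, jacobiTheta₂, ← tsum_mul_left]
  refine tsum_congr fun a => ?_
  rw [jacobiTheta₂_term, ← Complex.exp_add, sT]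
  congr 1
  ring

lemma Th_differentiable {k : ℕ} (hk : k ≠ 0) {τ : ℂ} (hτ : 0 < τ.im) :
    Differentiable ℂ (Th k τ) := by
  have h : Th k τ = fun x => cexp (Real.pi * I * (k * τ) / 4 + Real.pi * I * k * x) *
      jacobiTheta₂ (k * x + k * τ / 2) (k * τ) := funext fun x => Th_eq τ x
  rw [h]
  intro w
  have h1 : DifferentiableAt ℂ (fun w : ℂ => jacobiTheta₂ (k * w + k * τ / 2) (k * τ)) w :=
    DifferentiableAt.comp w (g := fun z => jacobiTheta₂ z (k * τ))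
      (differentiableAt_jacobiTheta₂_fst (k * w + k * τ / 2) (im_nat_mul hk hτ))
      (by fun_prop)
  have h2 : DifferentiableAt ℂ
      (fun w : ℂ => cexp (Real.pi * I * (k * τ) / 4 + Real.pi * I * k * w)) w := by fun_prop
  exact h2.mul h1

lemma norm_term_real (T : ℂ) (n : ℤ) (x : ℝ) :
    ‖jacobiTheta₂_term n (x : ℂ) T‖ = ‖jacobiTheta₂_term n 0 T‖ := by
  rw [norm_jacobiTheta₂_term, norm_jacobiTheta₂_term]
  simp

lemma integral_jacobi {T : ℂ} (hT : 0 < T.im) :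
    ∫ x in (0 : ℝ)..1, jacobiTheta₂ (x : ℂ) T = 1 := by
  let f : ℤ → C(ℝ, ℂ) := fun n => ⟨fun x => jacobiTheta₂_term n (x : ℂ) T, by
    unfold jacobiTheta₂_term; fun_prop⟩
  have hsum : Summable fun i : ℤ =>
      ‖(f i).restrict (⟨Set.uIcc (0 : ℝ) 1, isCompact_uIcc⟩ : TopologicalSpace.Compacts ℝ)‖ := by
    refine Summable.of_nonneg_of_le (fun i => norm_nonneg _) (fun i => ?_)
      ((summable_jacobiTheta₂_term_iff 0 T).mpr hT).norm
    refine (ContinuousMap.norm_le _ (norm_nonneg _)).mpr fun x => ?_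
    exact (norm_term_real T i x.1).le
  have h := intervalIntegral.hasSum_intervalIntegral_of_summable_norm (a := 0) (b := 1) hsum
  have h2 : ∀ n : ℤ, n ≠ 0 → ∫ x in (0 : ℝ)..1, f n x = 0 := by
    intro n hn
    have hn' : (n : ℂ) ≠ 0 := Int.cast_ne_zero.mpr hn
    have hc : (2 * Real.pi * I * n : ℂ) ≠ 0 := by
      simp [hn', Real.pi_ne_zero, I_ne_zero]
    have e : ∀ x : ℝ, f n x = cexp (Real.pi * I * n ^ 2 * T) *
        cexp ((2 * Real.pi * I * n) * x) := by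
      intro x
      show jacobiTheta₂_term n (x : ℂ) T = _
      rw [jacobiTheta₂_term, ← Complex.exp_add]
      congr 1
      ring
    simp_rw [e]
    rw [intervalIntegral.integral_const_mul, integral_exp_mul_complex hc]
    have e1 : cexp (2 * Real.pi * I * n * ((1 : ℝ) : ℂ)) = 1 := by
      have : (2 * Real.pi * I * n * ((1 : ℝ) : ℂ) : ℂ) = (n : ℂ) * (2 * Real.pi * I) := by
        push_cast; ring
      rw [this, Complex.exp_int_mul_two_pi_mul_I]
    rw [e1]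
    simp
  have h3 : ∫ x in (0 : ℝ)..1, f 0 x = 1 := by
    have e : ∀ x : ℝ, f 0 x = 1 := by
      intro x
      show jacobiTheta₂_term 0 (x : ℂ) T = _
      simp [jacobiTheta₂_term]
    simp_rw [e]
    simp
  have h4 := (hasSum_single (f := fun i : ℤ => ∫ x in (0 : ℝ)..1, f i x) 0 h2).unique h
  rw [h3] at h4
  exact h4.symm

lemma exists_jacobi_ne_zero {T : ℂ} (hT : 0 < T.im) : ∃ z, jacobiTheta₂ z T ≠ 0 := by
  by_contra hcon
  push Not at hcon
  have h := integral_jacobi hT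
  simp [hcon] at h

lemma exists_Th_ne_zero {k : ℕ} (hk : k ≠ 0) {τ : ℂ} (hτ : 0 < τ.im) : ∃ z, Th k τ z ≠ 0 := by
  have hk' : (k : ℂ) ≠ 0 := Nat.cast_ne_zero.mpr hk
  obtain ⟨z, hz⟩ := exists_jacobi_ne_zero (im_nat_mul hk hτ)
  refine ⟨(z - k * τ / 2) / k, ?_⟩
  rw [Th_eq]
  have : (k : ℂ) * ((z - k * τ / 2) / k) + k * τ / 2 = z := by field_simp; ring
  rw [this]
  exact mul_ne_zero (Complex.exp_ne_zero _) hz

/-- no common zero -/
lemma h_no_common_zero {k : ℕ} (hk : k ≠ 0) {τ : ℂ} (hτ : 0 < τ.im) (y : ℂ)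
    (h0y : h0 k τ y = 0) (h1y : h1 k τ y = 0) : False := by
  have hz : ∀ z, Th k τ (y + z) * Th k τ (y - z) = 0 := by
    intro z
    rw [← theta_identity hk hτ, h0y, h1y]
    ring
  have hT := Th_differentiable hk hτ
  obtain ⟨a, ha⟩ := exists_Th_ne_zero hk hτ
  have a1 : AnalyticOnNhd ℂ (fun z => Th k τ (y + z)) Set.univ :=
    (Differentiable.comp hT (by fun_prop : Differentiable ℂ fun z : ℂ => y + z)).differentiableOn.analyticOnNhd
      isOpen_univ
  have a2 : AnalyticOnNhd ℂ (fun z => Th k τ (y - z)) Set.univ :=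
    (Differentiable.comp hT (by fun_prop : Differentiable ℂ fun z : ℂ => y - z)).differentiableOn.analyticOnNhd
      isOpen_univ
  rcases a1.eq_zero_or_eq_zero_of_mul_eq_zero a2 (fun z _ => hz z) isPreconnected_univ with h | h
  · apply ha
    have := h (a - y) (Set.mem_univ _)
    simpa using this
  · apply ha
    have := h (y - a) (Set.mem_univ _)
    simpa using this

/-! ### countable zero sets -/

lemma countable_zeros {f : ℂ → ℂ} (hf : Differentiable ℂ f) {x : ℂ} (hx : f x ≠ 0) :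
    {z | f z = 0}.Countable := by
  have h1 : AnalyticOnNhd ℂ f Set.univ := hf.differentiableOn.analyticOnNhd isOpen_univ
  have h2 : f ⁻¹' {0}ᶜ ∈ Filter.codiscrete ℂ := h1.preimage_zero_mem_codiscrete (x := x) hx
  have h3 : IsDiscrete ({z | f z = 0} ∩ Set.univ) := isDiscrete_of_codiscreteWithin h2
  rw [Set.inter_univ] at h3
  exact (HereditarilyLindelofSpace.isLindelof _).countable_of_isDiscrete h3

lemma h0_differentiable {k : ℕ} (hk : k ≠ 0) {τ : ℂ} (hτ : 0 < τ.im) :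
    Differentiable ℂ (h0 k τ) :=
  theta_differentiable (mul_ne_zero two_ne_zero hk) hτ 0

lemma h1_differentiable {k : ℕ} (hk : k ≠ 0) {τ : ℂ} (hτ : 0 < τ.im) :
    Differentiable ℂ (h1 k τ) :=
  theta_differentiable (mul_ne_zero two_ne_zero hk) hτ k

lemma exists_Rf_ne_zero {k : ℕ} (hk : k ≠ 0) {τ : ℂ} (hτ : 0 < τ.im) :
    ∃ y z, Rf k τ y z ≠ 0 := by
  obtain ⟨a, ha⟩ := exists_Th_ne_zero hk hτ
  refine ⟨a - 1 / (2 * k), 0, ?_⟩
  rw [Rf_eq hk hτ]
  have e1 : a - 1 / (2 * (k : ℂ)) + 0 + 1 / (2 * k) = a := by ring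
  have e2 : a - 1 / (2 * (k : ℂ)) - 0 + 1 / (2 * k) = a := by ring
  rw [e1, e2]
  exact mul_ne_zero ha ha

lemma exists_h0_ne_zero {k : ℕ} (hk : k ≠ 0) {τ : ℂ} (hτ : 0 < τ.im) : ∃ y, h0 k τ y ≠ 0 := by
  obtain ⟨y, z, h⟩ := exists_Rf_ne_zero hk hτ
  by_contra hcon
  push Not at hcon
  apply h
  rw [Rf, hcon, hcon]
  ring

/-- the Wronskian -/
noncomputable def Wr (k : ℕ) (τ w : ℂ) : ℂ :=
  h0 k τ w * deriv (h1 k τ) w - h1 k τ w * deriv (h0 k τ) w

lemma Wr_differentiable {k : ℕ} (hk : k ≠ 0) {τ : ℂ} (hτ : 0 < τ.im) :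
    Differentiable ℂ (Wr k τ) := by
  have a0 := h0_differentiable hk hτ
  have a1 := h1_differentiable hk hτ
  have b0 : Differentiable ℂ (deriv (h0 k τ)) := (a0.contDiff (n := 2)).differentiable_deriv_two
  have b1 : Differentiable ℂ (deriv (h1 k τ)) := (a1.contDiff (n := 2)).differentiable_deriv_two
  exact (a0.mul b1).sub (a1.mul b0)

lemma exists_Wr_ne_zero {k : ℕ} (hk : k ≠ 0) {τ : ℂ} (hτ : 0 < τ.im) : ∃ w, Wr k τ w ≠ 0 := by
  by_contra hcon
  push Not at hcon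
  have a0 := h0_differentiable hk hτ
  have a1 := h1_differentiable hk hτ
  obtain ⟨w1, hw1⟩ := exists_h0_ne_zero hk hτ
  have hopen : {w | h0 k τ w ≠ 0} ∈ nhds w1 :=
    (a0.continuous.isOpen_preimage _ isOpen_compl_singleton).mem_nhds hw1
  obtain ⟨r, hr, hball⟩ := Metric.mem_nhds_iff.mp hopen
  have hd : ∀ w ∈ Metric.ball w1 r, HasDerivAt (fun w => h1 k τ w / h0 k τ w) 0 w := by
    intro w hw
    have hne : h0 k τ w ≠ 0 := hball hw
    have := (a1 w).hasDerivAt.div (a0 w).hasDerivAt hne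
    have e : (deriv (h1 k τ) w * h0 k τ w - h1 k τ w * deriv (h0 k τ) w) / h0 k τ w ^ 2 = 0 := by
      have := hcon w
      rw [Wr] at this
      rw [div_eq_zero_iff]
      left
      rw [← this]
      ring
    rw [e] at this
    exact this
  have hconst : ∀ w ∈ Metric.ball w1 r, h1 k τ w / h0 k τ w = h1 k τ w1 / h0 k τ w1 := by
    intro w hw
    refine (convex_ball w1 r).is_const_of_fderivWithin_eq_zero (𝕜 := ℂ)
      (f := fun w => h1 k τ w / h0 k τ w) (fun w hw => (hd w hw).differentiableAt.differentiableWithinAt)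
      (fun w hw => ?_) hw (Metric.mem_ball_self hr)
    have h3 := (hd w hw).hasFDerivAt.hasFDerivWithinAt (s := Metric.ball w1 r)
    rw [h3.fderivWithin (Metric.isOpen_ball.uniqueDiffWithinAt hw)]
    ext
    simp
  set c := h1 k τ w1 / h0 k τ w1 with hc
  have hev : ∀ᶠ w in nhds w1, h1 k τ w - c * h0 k τ w = 0 := by
    filter_upwards [Metric.ball_mem_nhds w1 hr] with w hw
    have hne : h0 k τ w ≠ 0 := hball hw
    have := hconst w hw
    field_simp at this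
    rw [this]
    ring
  have han : AnalyticOnNhd ℂ (fun w => h1 k τ w - c * h0 k τ w) Set.univ :=
    (a1.sub (a0.const_mul c)).differentiableOn.analyticOnNhd isOpen_univ
  have hall := han.eqOn_zero_of_preconnected_of_eventuallyEq_zero isPreconnected_univ
    (Set.mem_univ w1) hev
  obtain ⟨y, z, h⟩ := exists_Rf_ne_zero hk hτ
  apply h
  have e1 : h1 k τ y = c * h0 k τ y := sub_eq_zero.mp (hall (Set.mem_univ y))
  have e2 : h1 k τ z = c * h0 k τ z := sub_eq_zero.mp (hall (Set.mem_univ z))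
  rw [Rf, e1, e2]
  ring

end MP2c4b12
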